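import Mathlib

set_option autoImplicit false

namespace Pool.Agent.H542R3

open MulAction

/-- counting: transitive action of a finite group with at most two fixed points for each nontrivial element -/
theorem count_one {K : Type*} [Group K] [Finite K] (B : Subgroup K)
    (h2 : ∀ k : K, k ≠ 1 → ∀ g₁ g₂ g₃ : K, g₁⁻¹ * k * g₁ ∈ B → g₂⁻¹ * k * g₂ ∈ B →
      g₃⁻¹ * k * g₃ ∈ B → g₁⁻¹ * g₂ ∈ B ∨ g₁⁻¹ * g₃ ∈ B ∨ g₂⁻¹ * g₃ ∈ B) :
    Nat.card K ≤ Nat.card (K ⧸ B) +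
      2 * Nat.card {k : K // k ≠ 1 ∧ ∃ g : K, g⁻¹ * k * g ∈ B} := by
  classical
  have := Fintype.ofFinite K
  have : Fintype (K ⧸ B) := Fintype.ofFinite _
  have hfix : ∀ (k g : K), (k • (g : K ⧸ B) = (g : K ⧸ B)) ↔ g⁻¹ * k * g ∈ B := by
    intro k g
    have : k • (g : K ⧸ B) = ((k * g : K) : K ⧸ B) := rfl
    rw [this, eq_comm, QuotientGroup.eq, mul_assoc]
  have hcard : ∀ k : K, k ≠ 1 → Fintype.card (fixedBy (K ⧸ B) k) ≤ 2 := by
    intro k hk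
    by_contra hcon
    push Not at hcon
    rw [← Finset.card_univ, Finset.two_lt_card] at hcon
    obtain ⟨a, -, b, -, c, -, hab, hac, hbc⟩ := hcon
    obtain ⟨a, ha⟩ := a
    obtain ⟨b, hb⟩ := b
    obtain ⟨c, hc⟩ := c
    induction a using QuotientGroup.induction_on with | _ a => ?_
    induction b using QuotientGroup.induction_on with | _ b => ?_
    induction c using QuotientGroup.induction_on with | _ c => ?_
    rw [mem_fixedBy, hfix] at ha hb hc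
    rcases h2 k hk a b c ha hb hc with h | h | h
    · exact hab (Subtype.ext (QuotientGroup.eq.2 h))
    · exact hac (Subtype.ext (QuotientGroup.eq.2 h))
    · exact hbc (Subtype.ext (QuotientGroup.eq.2 h))
  have hburn := MulAction.sum_card_fixedBy_eq_card_orbits_mul_card_group K (K ⧸ B)
  have horb : Fintype.card (Quotient (MulAction.orbitRel K (K ⧸ B))) = 1 := by
    rw [Fintype.card_eq_one_iff]
    refine ⟨Quotient.mk _ ((1 : K) : K ⧸ B), ?_⟩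
    intro y
    induction y using Quotient.inductionOn with | _ y => ?_
    apply Quotient.sound
    obtain ⟨g, hg⟩ := MulAction.exists_smul_eq K ((1 : K) : K ⧸ B) y
    exact ⟨g, hg⟩
  rw [horb, one_mul] at hburn
  rw [Nat.card_eq_fintype_card, ← hburn]
  have hsplit : (∑ a : K, Fintype.card (fixedBy (K ⧸ B) a)) =
      Fintype.card (fixedBy (K ⧸ B) (1 : K)) +
        ∑ a ∈ Finset.univ.erase (1 : K), Fintype.card (fixedBy (K ⧸ B) a) := by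
    exact (Finset.add_sum_erase _ (fun a : K => Fintype.card (fixedBy (K ⧸ B) a))
      (Finset.mem_univ (1 : K))).symm
  rw [hsplit]
  have h1 : Fintype.card (fixedBy (K ⧸ B) (1 : K)) ≤ Nat.card (K ⧸ B) := by
    rw [Nat.card_eq_fintype_card]
    exact Fintype.card_subtype_le _
  have h3 : ∑ a ∈ Finset.univ.erase (1 : K), Fintype.card (fixedBy (K ⧸ B) a) ≤
      2 * Nat.card {k : K // k ≠ 1 ∧ ∃ g : K, g⁻¹ * k * g ∈ B} := by
    rw [Nat.card_eq_fintype_card, Fintype.card_subtype, mul_comm, ← smul_eq_mul, ← Finset.sum_const,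
      Finset.sum_filter]
    rw [← Finset.add_sum_erase Finset.univ _ (Finset.mem_univ (1 : K))]
    simp only [ne_eq, not_true_eq_false, false_and, if_false, zero_add]
    apply Finset.sum_le_sum
    intro a ha
    have ha1 : a ≠ 1 := (Finset.mem_erase.1 ha).1
    by_cases hex : ∃ g : K, g⁻¹ * a * g ∈ B
    · rw [if_pos ⟨ha1, hex⟩]
      exact hcard a ha1
    · rw [if_neg (fun h => hex h.2)]
      rw [Nat.le_zero, Fintype.card_eq_zero_iff]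
      refine ⟨?_⟩
      rintro ⟨y, hy⟩
      induction y using QuotientGroup.induction_on with | _ y => ?_
      rw [mem_fixedBy, hfix] at hy
      exact hex ⟨y, hy⟩
  omega

/-- If a finite group has three pairwise disjoint actions as above, the indices satisfy an inequality. -/
theorem count_three {K : Type*} [Group K] [Finite K] (B₁ B₂ B₃ : Subgroup K)
    (h1 : ∀ k : K, k ≠ 1 → ∀ g₁ g₂ g₃ : K, g₁⁻¹ * k * g₁ ∈ B₁ → g₂⁻¹ * k * g₂ ∈ B₁ →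
      g₃⁻¹ * k * g₃ ∈ B₁ → g₁⁻¹ * g₂ ∈ B₁ ∨ g₁⁻¹ * g₃ ∈ B₁ ∨ g₂⁻¹ * g₃ ∈ B₁)
    (h2 : ∀ k : K, k ≠ 1 → ∀ g₁ g₂ g₃ : K, g₁⁻¹ * k * g₁ ∈ B₂ → g₂⁻¹ * k * g₂ ∈ B₂ →
      g₃⁻¹ * k * g₃ ∈ B₂ → g₁⁻¹ * g₂ ∈ B₂ ∨ g₁⁻¹ * g₃ ∈ B₂ ∨ g₂⁻¹ * g₃ ∈ B₂)
    (h3 : ∀ k : K, k ≠ 1 → ∀ g₁ g₂ g₃ : K, g₁⁻¹ * k * g₁ ∈ B₃ → g₂⁻¹ * k * g₂ ∈ B₃ →
      g₃⁻¹ * k * g₃ ∈ B₃ → g₁⁻¹ * g₂ ∈ B₃ ∨ g₁⁻¹ * g₃ ∈ B₃ ∨ g₂⁻¹ * g₃ ∈ B₃)
    (d12 : ∀ k : K, k ≠ 1 → ∀ g₁ g₂ : K, g₁⁻¹ * k * g₁ ∈ B₁ → g₂⁻¹ * k * g₂ ∈ B₂ → False)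
    (d13 : ∀ k : K, k ≠ 1 → ∀ g₁ g₂ : K, g₁⁻¹ * k * g₁ ∈ B₁ → g₂⁻¹ * k * g₂ ∈ B₃ → False)
    (d23 : ∀ k : K, k ≠ 1 → ∀ g₁ g₂ : K, g₁⁻¹ * k * g₁ ∈ B₂ → g₂⁻¹ * k * g₂ ∈ B₃ → False) :
    Nat.card K + 2 ≤ Nat.card (K ⧸ B₁) + Nat.card (K ⧸ B₂) + Nat.card (K ⧸ B₃) := by
  classical
  have := Fintype.ofFinite K
  have c1 := count_one B₁ h1
  have c2 := count_one B₂ h2
  have c3 := count_one B₃ h3
  set D₁ : Finset K := Finset.univ.filter (fun k => k ≠ 1 ∧ ∃ g : K, g⁻¹ * k * g ∈ B₁) with hD₁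
  set D₂ : Finset K := Finset.univ.filter (fun k => k ≠ 1 ∧ ∃ g : K, g⁻¹ * k * g ∈ B₂) with hD₂
  set D₃ : Finset K := Finset.univ.filter (fun k => k ≠ 1 ∧ ∃ g : K, g⁻¹ * k * g ∈ B₃) with hD₃
  have e1 : Nat.card {k : K // k ≠ 1 ∧ ∃ g : K, g⁻¹ * k * g ∈ B₁} = D₁.card := by
    rw [Nat.card_eq_fintype_card, Fintype.card_subtype]
  have e2 : Nat.card {k : K // k ≠ 1 ∧ ∃ g : K, g⁻¹ * k * g ∈ B₂} = D₂.card := by
    rw [Nat.card_eq_fintype_card, Fintype.card_subtype]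
  have e3 : Nat.card {k : K // k ≠ 1 ∧ ∃ g : K, g⁻¹ * k * g ∈ B₃} = D₃.card := by
    rw [Nat.card_eq_fintype_card, Fintype.card_subtype]
  have hd12 : Disjoint D₁ D₂ := by
    rw [Finset.disjoint_left]
    intro k hk1 hk2
    simp only [hD₁, hD₂, Finset.mem_filter, Finset.mem_univ, true_and] at hk1 hk2
    obtain ⟨hk, g₁, hg₁⟩ := hk1
    obtain ⟨-, g₂, hg₂⟩ := hk2
    exact d12 k hk g₁ g₂ hg₁ hg₂
  have hd13 : Disjoint D₁ D₃ := by
    rw [Finset.disjoint_left]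
    intro k hk1 hk2
    simp only [hD₁, hD₃, Finset.mem_filter, Finset.mem_univ, true_and] at hk1 hk2
    obtain ⟨hk, g₁, hg₁⟩ := hk1
    obtain ⟨-, g₂, hg₂⟩ := hk2
    exact d13 k hk g₁ g₂ hg₁ hg₂
  have hd23 : Disjoint D₂ D₃ := by
    rw [Finset.disjoint_left]
    intro k hk1 hk2
    simp only [hD₂, hD₃, Finset.mem_filter, Finset.mem_univ, true_and] at hk1 hk2
    obtain ⟨hk, g₁, hg₁⟩ := hk1
    obtain ⟨-, g₂, hg₂⟩ := hk2
    exact d23 k hk g₁ g₂ hg₁ hg₂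
  have hsub : (D₁ ∪ D₂) ∪ D₃ ⊆ Finset.univ.erase (1 : K) := by
    intro k hk
    simp only [hD₁, hD₂, hD₃, Finset.mem_union, Finset.mem_filter, Finset.mem_univ, true_and] at hk
    rw [Finset.mem_erase]
    refine ⟨?_, Finset.mem_univ _⟩
    rcases hk with (h | h) | h
    · exact h.1
    · exact h.1
    · exact h.1
  have hc := Finset.card_le_card hsub
  rw [Finset.card_union_of_disjoint (Finset.disjoint_union_left.2 ⟨hd13, hd23⟩),
    Finset.card_union_of_disjoint hd12, Finset.card_erase_of_mem (Finset.mem_univ _),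
    Finset.card_univ] at hc
  have hK : Nat.card K = Fintype.card K := Nat.card_eq_fintype_card
  have hpos : 0 < Fintype.card K := Fintype.card_pos
  omega

/-- final numerical form: 1/2+1/3+1/7 < 1 -/
theorem count_contra {K : Type*} [Group K] [Finite K] (B₁ B₂ B₃ : Subgroup K)
    (h : Nat.card K + 2 ≤ Nat.card (K ⧸ B₁) + Nat.card (K ⧸ B₂) + Nat.card (K ⧸ B₃))
    (b1 : 2 ≤ Nat.card B₁) (b2 : 3 ≤ Nat.card B₂) (b3 : 7 ≤ Nat.card B₃) : False := by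
  have e1 := Subgroup.card_eq_card_quotient_mul_card_subgroup B₁
  have e2 := Subgroup.card_eq_card_quotient_mul_card_subgroup B₂
  have e3 := Subgroup.card_eq_card_quotient_mul_card_subgroup B₃
  have f1 : 2 * Nat.card (K ⧸ B₁) ≤ Nat.card K := by
    rw [e1, mul_comm]; exact Nat.mul_le_mul_left _ b1
  have f2 : 3 * Nat.card (K ⧸ B₂) ≤ Nat.card K := by
    rw [e2, mul_comm]; exact Nat.mul_le_mul_left _ b2
  have f3 : 7 * Nat.card (K ⧸ B₃) ≤ Nat.card K := by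
    rw [e3, mul_comm]; exact Nat.mul_le_mul_left _ b3
  omega

end Pool.Agent.H542R3
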