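import Mathlib
import Pool.Agent.H542R3.Count

set_option autoImplicit false

namespace Pool.Agent.H542R3

open Matrix

abbrev SL2 (F : Type*) [CommRing F] := Matrix.SpecialLinearGroup (Fin 2) F

section
variable {F : Type*} [Field F] [CharP F 2]

/-- upper unipotent -/
def up (a : F) : SL2 F := ⟨!![1, a; 0, 1], by simp [Matrix.det_fin_two]⟩

/-- lower unipotent -/
def lo (a : F) : SL2 F := ⟨!![1, 0; a, 1], by simp [Matrix.det_fin_two]⟩

/-- diagonal -/
def dg (a : F) (ha : a ≠ 0) : SL2 F := ⟨!![a, 0; 0, a⁻¹], by simp [Matrix.det_fin_two, ha]⟩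

theorem up_apply (a : F) : (up a : SL2 F) 0 0 = 1 ∧ (up a : SL2 F) 0 1 = a ∧ (up a : SL2 F) 1 0 = 0 ∧
    (up a : SL2 F) 1 1 = 1 := by
  simp [up]

theorem sl2_ext {g h : SL2 F} (h00 : g 0 0 = h 0 0) (h01 : g 0 1 = h 0 1) (h10 : g 1 0 = h 1 0)
    (h11 : g 1 1 = h 1 1) : g = h := by
  ext i j
  fin_cases i <;> fin_cases j <;> assumption

theorem sl2_det (g : SL2 F) : g 0 0 * g 1 1 - g 0 1 * g 1 0 = 1 := by
  have := g.2
  rw [Matrix.det_fin_two] at this
  exact this

theorem mul00 (g h : SL2 F) : (g * h) 0 0 = g 0 0 * h 0 0 + g 0 1 * h 1 0 := by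
  simp [Matrix.SpecialLinearGroup.coe_mul, Matrix.mul_apply, Fin.sum_univ_two]
theorem mul01 (g h : SL2 F) : (g * h) 0 1 = g 0 0 * h 0 1 + g 0 1 * h 1 1 := by
  simp [Matrix.SpecialLinearGroup.coe_mul, Matrix.mul_apply, Fin.sum_univ_two]
theorem mul10 (g h : SL2 F) : (g * h) 1 0 = g 1 0 * h 0 0 + g 1 1 * h 1 0 := by
  simp [Matrix.SpecialLinearGroup.coe_mul, Matrix.mul_apply, Fin.sum_univ_two]
theorem mul11 (g h : SL2 F) : (g * h) 1 1 = g 1 0 * h 0 1 + g 1 1 * h 1 1 := by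
  simp [Matrix.SpecialLinearGroup.coe_mul, Matrix.mul_apply, Fin.sum_univ_two]

theorem inv00 (g : SL2 F) : (g⁻¹) 0 0 = g 1 1 := by
  rw [Matrix.SpecialLinearGroup.coe_inv, Matrix.adjugate_fin_two]; simp
theorem inv01 (g : SL2 F) : (g⁻¹) 0 1 = - g 0 1 := by
  rw [Matrix.SpecialLinearGroup.coe_inv, Matrix.adjugate_fin_two]; simp
theorem inv10 (g : SL2 F) : (g⁻¹) 1 0 = - g 1 0 := by
  rw [Matrix.SpecialLinearGroup.coe_inv, Matrix.adjugate_fin_two]; simp
theorem inv11 (g : SL2 F) : (g⁻¹) 1 1 = g 0 0 := by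
  rw [Matrix.SpecialLinearGroup.coe_inv, Matrix.adjugate_fin_two]; simp

theorem one_apply' : (1 : SL2 F) 0 0 = 1 ∧ (1 : SL2 F) 0 1 = 0 ∧ (1 : SL2 F) 1 0 = 0 ∧ (1 : SL2 F) 1 1 = 1 := by
  simp

theorem two_eq_zero' : (2 : F) = 0 := CharTwo.two_eq_zero

theorem neg_eq' (x : F) : -x = x := CharTwo.neg_eq x

/-- trace -/
def tr (g : SL2 F) : F := g 0 0 + g 1 1

/-- A scalar element is trivial. -/
theorem eq_one_of_scalar (g : SL2 F) (h01 : g 0 1 = 0) (h10 : g 1 0 = 0) (h : g 0 0 = g 1 1) : g = 1 := by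
  have hd := sl2_det g
  rw [h01, h10, h] at hd
  have h1 : (g 1 1 - 1) ^ 2 = 0 := by
    have : (g 1 1 - 1) ^ 2 = g 1 1 * g 1 1 - 2 * g 1 1 + 1 := by ring
    rw [this, two_eq_zero']
    have h2 : g 1 1 * g 1 1 = 1 := by linear_combination hd
    rw [h2]
    have : (1 : F) - 0 * g 1 1 + 1 = 2 := by ring
    rw [this, two_eq_zero']
  have h2 : g 1 1 = 1 := by
    have := pow_eq_zero_iff (two_ne_zero) |>.1 h1
    linear_combination this
  apply sl2_ext
  · rw [h, h2]; simp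
  · rw [h01]; simp
  · rw [h10]; simp
  · rw [h2]; simp

/-- an element commuting with a non-scalar `k` is of the form `x + y k` -/
theorem comm_form (k t : SL2 F) (hk : k ≠ 1) (h : t * k = k * t) :
    ∃ x y : F, t 0 0 = x + y * k 0 0 ∧ t 0 1 = y * k 0 1 ∧ t 1 0 = y * k 1 0 ∧
      t 1 1 = x + y * k 1 1 := by
  have e00 : (t * k) 0 0 = (k * t) 0 0 := by rw [h]
  have e01 : (t * k) 0 1 = (k * t) 0 1 := by rw [h]
  have e10 : (t * k) 1 0 = (k * t) 1 0 := by rw [h]
  rw [mul00, mul00] at e00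
  rw [mul01, mul01] at e01
  rw [mul10, mul10] at e10
  by_cases hb : k 0 1 = 0
  · by_cases hc : k 1 0 = 0
    · have hd : k 0 0 - k 1 1 ≠ 0 := by
        intro hd
        exact hk (eq_one_of_scalar k hb hc (by linear_combination hd))
      rw [hb] at e01
      rw [hc] at e10
      refine ⟨t 0 0 - (t 0 0 - t 1 1) / (k 0 0 - k 1 1) * k 0 0,
        (t 0 0 - t 1 1) / (k 0 0 - k 1 1), by ring, ?_, ?_, ?_⟩
      · rw [hb, mul_zero]
        have : t 0 1 * (k 0 0 - k 1 1) = 0 := by linear_combination -e01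
        exact (mul_eq_zero.1 this).resolve_right hd
      · rw [hc, mul_zero]
        have : t 1 0 * (k 0 0 - k 1 1) = 0 := by linear_combination e10
        exact (mul_eq_zero.1 this).resolve_right hd
      · field_simp
        ring
    · refine ⟨t 0 0 - t 1 0 / k 1 0 * k 0 0, t 1 0 / k 1 0, by ring, ?_, ?_, ?_⟩
      · field_simp
        linear_combination e00
      · field_simp
      · field_simp
        linear_combination e10
  · refine ⟨t 0 0 - t 0 1 / k 0 1 * k 0 0, t 0 1 / k 0 1, by ring, ?_, ?_, ?_⟩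
    · field_simp
    · field_simp
      linear_combination -e00
    · field_simp
      linear_combination -e01

/-- product helper: g⁻¹ k g has zero lower left entry iff the first column of g is an eigenvector -/
theorem conj10 (k g : SL2 F) : (g⁻¹ * k * g) 1 0 =
    - g 1 0 * (k 0 0 * g 0 0 + k 0 1 * g 1 0) + g 0 0 * (k 1 0 * g 0 0 + k 1 1 * g 1 0) := by
  rw [mul_assoc, mul10, mul00, mul10, inv10, inv11]

/-- Borel condition for a product with inverse -/
theorem invmul10 (g h : SL2 F) : (g⁻¹ * h) 1 0 = - g 1 0 * h 0 0 + g 0 0 * h 1 0 := by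
  rw [mul10, inv10, inv11]

/-- eigenvector transfer -/
theorem eigen_of_conj10 (k g : SL2 F) (h : (g⁻¹ * k * g) 1 0 = 0) :
    ∃ l : F, k 0 0 * g 0 0 + k 0 1 * g 1 0 = l * g 0 0 ∧ k 1 0 * g 0 0 + k 1 1 * g 1 0 = l * g 1 0 := by
  rw [conj10] at h
  have hd := sl2_det g
  by_cases h0 : g 0 0 = 0
  · have h1 : g 1 0 ≠ 0 := by
      intro h1
      rw [h0, h1] at hd
      simp at hd
    refine ⟨(k 1 0 * g 0 0 + k 1 1 * g 1 0) / g 1 0, ?_, ?_⟩
    · rw [h0] at h ⊢
      have : g 1 0 * (k 0 1 * g 1 0) = 0 := by linear_combination -h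
      have h2 := (mul_eq_zero.1 this).resolve_left h1
      rw [h2]; ring
    · field_simp
  · refine ⟨(k 0 0 * g 0 0 + k 0 1 * g 1 0) / g 0 0, ?_, ?_⟩
    · field_simp
    · field_simp
      linear_combination h

/-- three pairwise non proportional eigenvectors force triviality -/
theorem three_eigen (k : SL2 F) (hk : k ≠ 1) (a b c : SL2 F)
    (ha : (a⁻¹ * k * a) 1 0 = 0) (hb : (b⁻¹ * k * b) 1 0 = 0) (hc : (c⁻¹ * k * c) 1 0 = 0) :
    (a⁻¹ * b) 1 0 = 0 ∨ (a⁻¹ * c) 1 0 = 0 ∨ (b⁻¹ * c) 1 0 = 0 := by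
  by_contra hcon
  push Not at hcon
  obtain ⟨hab, hac, hbc⟩ := hcon
  rw [invmul10] at hab hac hbc
  obtain ⟨l, la0, la1⟩ := eigen_of_conj10 k a ha
  obtain ⟨m, mb0, mb1⟩ := eigen_of_conj10 k b hb
  obtain ⟨n, nc0, nc1⟩ := eigen_of_conj10 k c hc
  have hlm : l + m = k 0 0 + k 1 1 := by
    have : (l + m - (k 0 0 + k 1 1)) * (-a 1 0 * b 0 0 + a 0 0 * b 1 0) = 0 := by
      linear_combination (-b 1 0) * la0 + (b 0 0) * la1 + (a 1 0) * mb0 - (a 0 0) * mb1
    have := (mul_eq_zero.1 this).resolve_right hab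
    linear_combination this
  have hln : l + n = k 0 0 + k 1 1 := by
    have : (l + n - (k 0 0 + k 1 1)) * (-a 1 0 * c 0 0 + a 0 0 * c 1 0) = 0 := by
      linear_combination (-c 1 0) * la0 + (c 0 0) * la1 + (a 1 0) * nc0 - (a 0 0) * nc1
    have := (mul_eq_zero.1 this).resolve_right hac
    linear_combination this
  have hmn : m + n = k 0 0 + k 1 1 := by
    have : (m + n - (k 0 0 + k 1 1)) * (-b 1 0 * c 0 0 + b 0 0 * c 1 0) = 0 := by
      linear_combination (-c 1 0) * mb0 + (c 0 0) * mb1 + (b 1 0) * nc0 - (b 0 0) * nc1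
    have := (mul_eq_zero.1 this).resolve_right hbc
    linear_combination this
  have hl : m = l := by linear_combination hmn - hln
  rw [hl] at mb0 mb1
  have k00 : k 0 0 = l := by
    have : (k 0 0 - l) * (-a 1 0 * b 0 0 + a 0 0 * b 1 0) = 0 := by
      linear_combination (b 1 0) * la0 - (a 1 0) * mb0
    have := (mul_eq_zero.1 this).resolve_right hab
    linear_combination this
  have k01 : k 0 1 = 0 := by
    have : (k 0 1) * (-a 1 0 * b 0 0 + a 0 0 * b 1 0) = 0 := by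
      linear_combination (-b 0 0) * la0 + (a 0 0) * mb0
    exact (mul_eq_zero.1 this).resolve_right hab
  have k10 : k 1 0 = 0 := by
    have : (k 1 0) * (-a 1 0 * b 0 0 + a 0 0 * b 1 0) = 0 := by
      linear_combination (b 1 0) * la1 - (a 1 0) * mb1
    exact (mul_eq_zero.1 this).resolve_right hab
  have k11 : k 1 1 = l := by
    have : (k 1 1 - l) * (-a 1 0 * b 0 0 + a 0 0 * b 1 0) = 0 := by
      linear_combination (-b 0 0) * la1 + (a 0 0) * mb1
    have := (mul_eq_zero.1 this).resolve_right hab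
    linear_combination this
  exact hk (eq_one_of_scalar k k01 k10 (by rw [k00, k11]))

/-- two elements of the same nonzero trace commuting with a nontrivial element are equal or inverse -/
theorem comm_same_trace (k t₁ t₂ : SL2 F) (hk : k ≠ 1) (h1 : t₁ * k = k * t₁) (h2 : t₂ * k = k * t₂)
    (htr : t₁ 0 0 + t₁ 1 1 = t₂ 0 0 + t₂ 1 1) (hne : t₁ 0 0 + t₁ 1 1 ≠ 0) :
    t₂ = t₁ ∨ t₂ = t₁⁻¹ := by
  -- t₂ commutes with t₁
  obtain ⟨x₁, y₁, a00, a01, a10, a11⟩ := comm_form k t₁ hk h1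
  obtain ⟨x₂, y₂, b00, b01, b10, b11⟩ := comm_form k t₂ hk h2
  have two0 : (2 : F) = 0 := CharTwo.two_eq_zero
  have e1 : t₁ 0 0 + t₁ 1 1 = y₁ * (k 0 0 + k 1 1) := by
    rw [a00, a11]; linear_combination x₁ * two0
  have e2 : t₂ 0 0 + t₂ 1 1 = y₂ * (k 0 0 + k 1 1) := by
    rw [b00, b11]; linear_combination x₂ * two0
  have hk0 : k 0 0 + k 1 1 ≠ 0 := by
    intro h; rw [h, mul_zero] at e1; exact hne e1
  have hy : y₁ = y₂ := by
    have : (y₁ - y₂) * (k 0 0 + k 1 1) = 0 := by linear_combination htr - e1 + e2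
    have := (mul_eq_zero.1 this).resolve_right hk0
    linear_combination this
  subst hy
  have d1 := sl2_det t₁
  have d2 := sl2_det t₂
  have hx : (x₂ - x₁) * (x₂ + x₁ + y₁ * (k 0 0 + k 1 1)) = 0 := by
    rw [a00, a01, a10, a11] at d1
    rw [b00, b01, b10, b11] at d2
    linear_combination d2 - d1
  rcases mul_eq_zero.1 hx with h | h
  · left
    have hxx : x₂ = x₁ := by linear_combination h
    apply sl2_ext
    · rw [a00, b00, hxx]
    · rw [a01, b01]
    · rw [a10, b10]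
    · rw [a11, b11, hxx]
  · right
    apply sl2_ext
    · rw [inv00, a11, b00]; linear_combination h - (x₁ + y₁ * k 1 1) * two0
    · rw [inv01, a01, b01]; linear_combination (y₁ * k 0 1) * two0
    · rw [inv10, a10, b10]; linear_combination (y₁ * k 1 0) * two0
    · rw [inv11, a00, b11]; linear_combination h - (x₁ + y₁ * k 0 0) * two0

end

end Pool.Agent.H542R3
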