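import Mathlib
import Pool.Agent.H542R3.SL2

set_option autoImplicit false

namespace Pool.Agent.H542R3

open Matrix

variable {F : Type*} [Field F] [CharP F 2]

theorem trace_conj (g s : SL2 F) : (g * s * g⁻¹) 0 0 + (g * s * g⁻¹) 1 1 = s 0 0 + s 1 1 := by
  rw [mul00, mul11, mul00, mul01, mul10, mul11, inv00, inv01, inv10, inv11]
  have := sl2_det g
  linear_combination (s 0 0 + s 1 1) * this

/-- if `t` commutes with `k ≠ 1` then eigenvectors of `k` are eigenvectors of `t` -/
theorem tri_of_comm (k t h : SL2 F) (hk : k ≠ 1) (hc : t * k = k * t) (hh : (h⁻¹ * k * h) 1 0 = 0) :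
    (h⁻¹ * t * h) 1 0 = 0 := by
  obtain ⟨x, y, a00, a01, a10, a11⟩ := comm_form k t hk hc
  rw [conj10] at hh ⊢
  rw [a00, a01, a10, a11]
  linear_combination y * hh

/-- an element of trace one is not triangularisable when `x^2+x+1` has no root. -/
theorem not_tri (hno : ∀ x : F, x ^ 2 + x + 1 ≠ 0) (s : SL2 F) (hs : s 0 0 + s 1 1 = 1) (h10 : s 1 0 = 0) :
    False := by
  have hd := sl2_det s
  rw [h10] at hd
  have two0 : (2 : F) = 0 := CharTwo.two_eq_zero
  apply hno (s 0 0)
  have h11 : s 1 1 = 1 - s 0 0 := by linear_combination hs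
  rw [h11] at hd
  linear_combination -hd + (s 0 0) * two0

theorem trace_conj' (g s : SL2 F) : (g⁻¹ * s * g) 0 0 + (g⁻¹ * s * g) 1 1 = s 0 0 + s 1 1 := by
  have := trace_conj g⁻¹ s
  rwa [inv_inv] at this

theorem key (hno : ∀ x : F, x ^ 2 + x + 1 ≠ 0) (K : Subgroup (SL2 F)) [Finite K]
    (s t : SL2 F) (hu : up (1 : F) ∈ K) (hs : s ∈ K) (ht : t ∈ K) (hs1 : s 0 0 + s 1 1 = 1)
    (hs3 : s ^ 3 = 1) (ht0 : t 0 0 + t 1 1 ≠ 0) (ht7 : 7 ≤ orderOf t)
    (hsplit : ∃ g : SL2 F, (g⁻¹ * t * g) 1 0 = 0) :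
    ∃ k ∈ K, (k⁻¹ * t * k) 1 0 = 0 := by
  by_contra hcon
  push Not at hcon
  have two0 : (2 : F) = 0 := CharTwo.two_eq_zero
  let B₁ : Subgroup K :=
    { carrier := {k | (k : SL2 F) 1 0 = 0}
      mul_mem' := by
        intro a b ha hb
        simp only [Set.mem_setOf_eq] at ha hb ⊢
        rw [Subgroup.coe_mul, mul10, ha, hb]; ring
      one_mem' := by simp
      inv_mem' := by
        intro a ha
        simp only [Set.mem_setOf_eq] at ha ⊢
        rw [Subgroup.coe_inv, inv10, ha, neg_zero] }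
  have memB₁ : ∀ k : K, k ∈ B₁ ↔ (k : SL2 F) 1 0 = 0 := fun k => Iff.rfl
  let s' : K := ⟨s, hs⟩
  let t' : K := ⟨t, ht⟩
  let u' : K := ⟨up 1, hu⟩
  have memC : ∀ (r g k : K), g⁻¹ * k * g ∈ Subgroup.centralizer {r} ↔
      ((g : SL2 F) * r * (g : SL2 F)⁻¹) * k = k * ((g : SL2 F) * r * (g : SL2 F)⁻¹) := by
    intro r g k
    rw [Subgroup.mem_centralizer_singleton_iff]
    constructor
    · intro h
      have h' : (g : SL2 F)⁻¹ * k * g * r = r * ((g : SL2 F)⁻¹ * k * g) := by
        have := congrArg (Subtype.val) h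
        simpa using this
      calc ((g : SL2 F) * r * (g : SL2 F)⁻¹) * k
          = g * (r * ((g : SL2 F)⁻¹ * k * g)) * (g : SL2 F)⁻¹ := by group
        _ = g * ((g : SL2 F)⁻¹ * k * g * r) * (g : SL2 F)⁻¹ := by rw [h']
        _ = k * ((g : SL2 F) * r * (g : SL2 F)⁻¹) := by group
    · intro h
      apply Subtype.ext
      simp only [Subgroup.coe_mul, Subgroup.coe_inv]
      calc (g : SL2 F)⁻¹ * k * g * r = (g : SL2 F)⁻¹ * (k * ((g : SL2 F) * r * (g : SL2 F)⁻¹)) * g := by group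
        _ = (g : SL2 F)⁻¹ * (((g : SL2 F) * r * (g : SL2 F)⁻¹) * k) * g := by rw [h]
        _ = r * ((g : SL2 F)⁻¹ * k * g) := by group
  have hne1 : ∀ k : K, k ≠ 1 → (k : SL2 F) ≠ 1 := by
    intro k hk h
    exact hk (Subtype.ext h)
  -- general at most two fixed points for centralisers
  have hcent : ∀ (r : K), (r : SL2 F) 0 0 + (r : SL2 F) 1 1 ≠ 0 → ∀ k : K, k ≠ 1 → ∀ g₁ g₂ g₃ : K,
      g₁⁻¹ * k * g₁ ∈ Subgroup.centralizer {r} → g₂⁻¹ * k * g₂ ∈ Subgroup.centralizer {r} →
      g₃⁻¹ * k * g₃ ∈ Subgroup.centralizer {r} →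
      g₁⁻¹ * g₂ ∈ Subgroup.centralizer {r} ∨ g₁⁻¹ * g₃ ∈ Subgroup.centralizer {r} ∨
        g₂⁻¹ * g₃ ∈ Subgroup.centralizer {r} := by
    intro r hr k hk g₁ g₂ g₃ h1 h2 h3
    rw [memC] at h1 h2 h3
    have cc : ∀ a b : K, ((a : SL2 F) * r * (a : SL2 F)⁻¹) = ((b : SL2 F) * r * (b : SL2 F)⁻¹) →
        a⁻¹ * b ∈ Subgroup.centralizer {r} := by
      intro a b hab
      rw [Subgroup.mem_centralizer_singleton_iff]
      apply Subtype.ext
      simp only [Subgroup.coe_mul, Subgroup.coe_inv]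
      calc (a : SL2 F)⁻¹ * b * r = (a : SL2 F)⁻¹ * ((b : SL2 F) * r * (b : SL2 F)⁻¹) * b := by group
        _ = (a : SL2 F)⁻¹ * ((a : SL2 F) * r * (a : SL2 F)⁻¹) * b := by rw [hab]
        _ = r * ((a : SL2 F)⁻¹ * b) := by group
    have hk' := hne1 k hk
    have tr1 := trace_conj (g₁ : SL2 F) (r : SL2 F)
    have tr2 := trace_conj (g₂ : SL2 F) (r : SL2 F)
    have tr3 := trace_conj (g₃ : SL2 F) (r : SL2 F)
    have c12 := comm_same_trace (k : SL2 F) _ _ hk' h1 h2 (by rw [tr1, tr2]) (by rw [tr1]; exact hr)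
    have c13 := comm_same_trace (k : SL2 F) _ _ hk' h1 h3 (by rw [tr1, tr3]) (by rw [tr1]; exact hr)
    rcases c12 with c12 | c12
    · exact Or.inl (cc _ _ c12.symm)
    · rcases c13 with c13 | c13
      · exact Or.inr (Or.inl (cc _ _ c13.symm))
      · exact Or.inr (Or.inr (cc _ _ (by rw [c12, c13])))
  have hmain := count_three B₁ (Subgroup.centralizer {s'}) (Subgroup.centralizer {t'})
    (by
      intro k hk g₁ g₂ g₃ h1 h2 h3
      rw [memB₁] at h1 h2 h3
      simp only [memB₁]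
      exact three_eigen (k : SL2 F) (hne1 k hk) g₁ g₂ g₃ h1 h2 h3)
    (hcent s' (by simp only [s']; rw [hs1]; exact one_ne_zero))
    (hcent t' (by simpa only [t'] using ht0))
    (by
      intro k hk g₁ g₂ h1 h2
      rw [memB₁] at h1
      rw [memC] at h2
      have h3 := tri_of_comm (k : SL2 F) _ (g₁ : SL2 F) (hne1 k hk) h2 h1
      refine not_tri hno _ ?_ h3
      rw [trace_conj', trace_conj]
      exact hs1)
    (by
      intro k hk g₁ g₂ h1 h2
      rw [memB₁] at h1
      rw [memC] at h2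
      have h3 := tri_of_comm (k : SL2 F) _ (g₁ : SL2 F) (hne1 k hk) h2 h1
      refine hcon ((g₂ : SL2 F)⁻¹ * g₁) (K.mul_mem (K.inv_mem g₂.2) g₁.2) ?_
      rw [← h3]
      congr 2
      simp only [t']
      group)
    (by
      intro k hk g₁ g₂ h1 h2
      rw [memC] at h1 h2
      obtain ⟨g, hg⟩ := hsplit
      -- t'' = g₂ t g₂⁻¹ is triangularised by g₂ g
      have htne : ((g₂ : SL2 F) * t' * (g₂ : SL2 F)⁻¹) ≠ 1 := by
        intro h
        have := trace_conj (g₂ : SL2 F) t
        simp only [t'] at h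
        rw [h] at this
        apply ht0
        rw [← this]
        simp only [Matrix.SpecialLinearGroup.coe_one, Matrix.one_apply_eq]
        linear_combination two0
      have h4 : (((g₂ : SL2 F) * g)⁻¹ * ((g₂ : SL2 F) * t' * (g₂ : SL2 F)⁻¹) * ((g₂ : SL2 F) * g)) 1 0 = 0 := by
        rw [← hg]
        congr 2
        simp only [t']
        group
      have h5 := tri_of_comm _ (k : SL2 F) ((g₂ : SL2 F) * g) htne h2.symm h4
      have h6 := tri_of_comm _ _ _ (hne1 k hk) h1 h5
      refine not_tri hno _ ?_ h6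
      rw [trace_conj', trace_conj]
      exact hs1)
  refine count_contra B₁ (Subgroup.centralizer {s'}) (Subgroup.centralizer {t'}) hmain ?_ ?_ ?_
  · have hm : u' ∈ B₁ := by
      rw [memB₁]; simp [u', up]
    have h1 : u' ≠ 1 := by
      intro h
      have := congrArg (fun x : K => (x : SL2 F) 0 1) h
      simp [u', up] at this
    have : 1 < Nat.card B₁ := by
      rw [Subgroup.one_lt_card_iff_ne_bot]
      intro hb
      rw [hb, Subgroup.mem_bot] at hm
      exact h1 hm
    omega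
  · have hm : s' ∈ Subgroup.centralizer {s'} := by
      rw [Subgroup.mem_centralizer_singleton_iff]
    have h1 : orderOf s' = 3 := by
      have : Fact (Nat.Prime 3) := ⟨by norm_num⟩
      apply orderOf_eq_prime
      · apply Subtype.ext; simpa [s'] using hs3
      · intro h
        have h2 : s = 1 := congrArg Subtype.val h
        rw [h2] at hs1
        simp only [Matrix.SpecialLinearGroup.coe_one, Matrix.one_apply_eq] at hs1
        have : (1 : F) = 0 := by linear_combination two0 - hs1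
        exact one_ne_zero this
    have := Nat.le_of_dvd Nat.card_pos (Subgroup.orderOf_dvd_natCard _ hm)
    omega
  · have hm : t' ∈ Subgroup.centralizer {t'} := by
      rw [Subgroup.mem_centralizer_singleton_iff]
    have h1 : orderOf t' = orderOf t := by
      rw [← Subgroup.orderOf_coe]
    have := Nat.le_of_dvd Nat.card_pos (Subgroup.orderOf_dvd_natCard _ hm)
    omega

end Pool.Agent.H542R3
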