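import Mathlib
import Pool.Agent.H542R3.Key

set_option autoImplicit false

namespace Pool.Agent.H542R3

open Matrix

variable {F : Type*} [Field F] [CharP F 2]

theorem dg_pow (a : F) (ha : a ≠ 0) (n : ℕ) : (dg a ha) ^ n = dg (a ^ n) (pow_ne_zero n ha) := by
  induction n with
  | zero =>
    rw [pow_zero]
    apply sl2_ext <;> simp [dg]
  | succ n ih =>
    rw [pow_succ, ih]
    apply sl2_ext
    · rw [mul00]; simp [dg, pow_succ]
    · rw [mul01]; simp [dg]
    · rw [mul10]; simp [dg]
    · rw [mul11]; simp [dg, pow_succ, mul_comm]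

theorem seven_le (a : F) (ha : a ≠ 0) (h7 : 7 ≤ orderOf a) (t : SL2 F) (ht : IsConj (dg a ha) t)
    (hfin : IsOfFinOrder t) : 7 ≤ orderOf t := by
  have h1 : orderOf (dg a ha) = orderOf t := by
    obtain ⟨c, hc⟩ := isConj_iff.1 ht
    rw [← hc]
    exact (MulEquiv.orderOf_eq (MulAut.conj c) (dg a ha)).symm
  have h2 : a ^ orderOf t = 1 := by
    have h3 : (dg a ha) ^ orderOf t = 1 := by rw [← h1]; exact pow_orderOf_eq_one _
    rw [dg_pow] at h3
    have := congrArg (fun x : SL2 F => x 0 0) h3
    simpa [dg] using this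
  have h3 := orderOf_dvd_of_pow_eq_one h2
  have h4 : 0 < orderOf t := hfin.orderOf_pos
  exact h7.trans (Nat.le_of_dvd h4 h3)

theorem cube_of_trace_one (s : SL2 F) (hs : s 0 0 + s 1 1 = 1) : s ^ 3 = 1 := by
  have hd := sl2_det s
  have two0 : (2 : F) = 0 := CharTwo.two_eq_zero
  have h11 : s 1 1 = 1 - s 0 0 := by linear_combination hs
  rw [h11] at hd
  have e : s 0 1 * s 1 0 = s 0 0 - s 0 0 ^ 2 - 1 := by linear_combination -hd
  rw [pow_succ, pow_two]
  apply sl2_ext
  · rw [mul00, mul00, mul01, h11]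
    simp only [Matrix.SpecialLinearGroup.coe_one, Matrix.one_apply_eq]
    linear_combination (s 0 0 + 1) * e - two0
  · rw [mul01, mul00, mul01, h11]
    simp only [Matrix.SpecialLinearGroup.coe_one]
    rw [Matrix.one_apply_ne (by decide)]
    linear_combination (s 0 1) * e
  · rw [mul10, mul10, mul11, h11]
    simp only [Matrix.SpecialLinearGroup.coe_one]
    rw [Matrix.one_apply_ne (by decide)]
    linear_combination (s 1 0) * e
  · rw [mul11, mul10, mul11, h11]
    simp only [Matrix.SpecialLinearGroup.coe_one, Matrix.one_apply_eq]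
    linear_combination (2 - s 0 0) * e - two0

/-- the standard trace one element -/
def s0 : SL2 F := ⟨!![0, 1; 1, 1], by
  rw [Matrix.det_fin_two]
  simp only [Matrix.of_apply, Matrix.cons_val', Matrix.cons_val_zero, Matrix.cons_val_one,
    Matrix.cons_val_fin_one]
  have : (2 : F) = 0 := CharTwo.two_eq_zero
  linear_combination -this⟩

/-- conjugating an upper unipotent by a triangular element -/
theorem conj_up (h : SL2 F) (h10 : h 1 0 = 0) (x : F) : h * up x * h⁻¹ = up ((h 0 0) ^ 2 * x) := by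
  have hd := sl2_det h
  rw [h10] at hd
  have two0 : (2 : F) = 0 := CharTwo.two_eq_zero
  apply sl2_ext
  · rw [mul00, mul00, mul01, inv00, inv10, h10]
    simp only [up, Matrix.of_apply, Matrix.cons_val', Matrix.cons_val_zero, Matrix.cons_val_one,
      Matrix.cons_val_fin_one]
    linear_combination hd
  · rw [mul01, mul00, mul01, inv01, inv11]
    simp only [up, Matrix.of_apply, Matrix.cons_val', Matrix.cons_val_zero, Matrix.cons_val_one,
      Matrix.cons_val_fin_one]
    ring
  · rw [mul10, mul10, mul11, inv00, inv10, h10]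
    simp only [up, Matrix.of_apply, Matrix.cons_val', Matrix.cons_val_zero, Matrix.cons_val_one,
      Matrix.cons_val_fin_one]
    ring
  · rw [mul11, mul10, mul11, inv01, inv11, h10]
    simp only [up, Matrix.of_apply, Matrix.cons_val', Matrix.cons_val_zero, Matrix.cons_val_one,
      Matrix.cons_val_fin_one]
    linear_combination hd

/-- main step: the case where `H` contains the standard unipotent. -/
theorem ig_aux (hno : ∀ x : F, x ^ 2 + x + 1 ≠ 0) (hsq : ∀ x : F, ∃ y : F, y ^ 2 = x)
    (hord : ∀ a : F, a ≠ 0 → a ≠ 1 → 7 ≤ orderOf a)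
    (hlf : ∀ a b c : SL2 F, Finite (Subgroup.closure ({a, b, c} : Set (SL2 F))))
    (H : Subgroup (SL2 F)) (hH : ∀ g : SL2 F, ∃ h ∈ H, IsConj g h) (hu : up (1 : F) ∈ H) : H = ⊤ := by
  have two0 : (2 : F) = 0 := CharTwo.two_eq_zero
  -- trace of conjugates
  have htrc : ∀ g h : SL2 F, IsConj g h → h 0 0 + h 1 1 = g 0 0 + g 1 1 := by
    intro g h hgh
    obtain ⟨c, hc⟩ := isConj_iff.1 hgh
    rw [← hc, trace_conj]
  obtain ⟨s, hsH, hs⟩ := hH (s0 : SL2 F)
  have hs1 : s 0 0 + s 1 1 = 1 := by
    rw [htrc _ _ hs]; simp [s0]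
  have hs3 := cube_of_trace_one s hs1
  -- Step 1
  have step1 : ∀ a : F, a ≠ 0 → ∃ h ∈ H, h 1 0 = 0 ∧ h 0 0 = a := by
    intro a ha
    by_cases ha1 : a = 1
    · exact ⟨1, H.one_mem, by simp, by simp [ha1]⟩
    obtain ⟨t, htH, ht⟩ := hH (dg a ha)
    have hfin := hlf (up 1) s t
    set K := Subgroup.closure ({up 1, s, t} : Set (SL2 F)) with hK
    have huK : up (1 : F) ∈ K := Subgroup.subset_closure (by simp)
    have hsK : s ∈ K := Subgroup.subset_closure (by simp)
    have htK : t ∈ K := Subgroup.subset_closure (by simp)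
    have hKH : K ≤ H := by
      rw [hK, Subgroup.closure_le]
      intro x hx
      simp only [Set.mem_insert_iff, Set.mem_singleton_iff] at hx
      rcases hx with rfl | rfl | rfl
      · exact hu
      · exact hsH
      · exact htH
    have httr : t 0 0 + t 1 1 = a + a⁻¹ := by
      rw [htrc _ _ ht]; simp [dg]
    have ht0 : t 0 0 + t 1 1 ≠ 0 := by
      rw [httr]
      intro h
      have h2 : a ^ 2 = 1 := by
        have : a * (a + a⁻¹) = 0 := by rw [h, mul_zero]
        rw [mul_add, mul_inv_cancel₀ ha] at this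
        linear_combination this - two0
      have h3 : (a - 1) ^ 2 = 0 := by linear_combination h2 + (1 - a) * two0
      have := pow_eq_zero_iff (two_ne_zero) |>.1 h3
      exact ha1 (by linear_combination this)
    have hfo : IsOfFinOrder t := by
      have h1 : IsOfFinOrder (⟨t, htK⟩ : K) := isOfFinOrder_of_finite _
      exact (MonoidHom.isOfFinOrder K.subtype h1)
    have ht7 := seven_le a ha (hord a ha ha1) t ht hfo
    obtain ⟨c, hc⟩ := isConj_iff.1 ht
    have hsplit : ∃ g : SL2 F, (g⁻¹ * t * g) 1 0 = 0 := by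
      refine ⟨c, ?_⟩
      have : c⁻¹ * t * c = dg a ha := by rw [← hc]; group
      rw [this]; simp [dg]
    obtain ⟨k, hkK, hk⟩ := key hno K s t huK hsK htK hs1 hs3 ht0 ht7 hsplit
    have hmem : k⁻¹ * t * k ∈ H := hKH (K.mul_mem (K.mul_mem (K.inv_mem hkK) htK) hkK)
    have htr2 := trace_conj' k t
    set r := k⁻¹ * t * k with hr
    have hd := sl2_det r
    rw [hk] at hd
    have hprod : (r 0 0 - a) * (r 0 0 - a⁻¹) = 0 := by
      have h1 : r 1 1 = a + a⁻¹ - r 0 0 := by linear_combination htr2 + httr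
      rw [h1] at hd
      have h2 := mul_inv_cancel₀ ha
      linear_combination -hd + h2
    rcases mul_eq_zero.1 hprod with h | h
    · exact ⟨r, hmem, hk, by linear_combination h⟩
    · refine ⟨r⁻¹, H.inv_mem hmem, ?_, ?_⟩
      · rw [inv10, hk, neg_zero]
      · rw [inv00]
        have h1 : r 0 0 = a⁻¹ := by linear_combination h
        rw [h1] at hd
        field_simp at hd
        linear_combination hd
  -- Step 2
  have step2 : ∀ x : F, up x ∈ H := by
    intro x
    by_cases hx : x = 0
    · have : up x = (1 : SL2 F) := by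
        rw [hx]; apply sl2_ext <;> simp [up]
      rw [this]; exact H.one_mem
    · obtain ⟨y, hy⟩ := hsq x
      have hy0 : y ≠ 0 := by
        intro h; rw [h] at hy; apply hx; rw [← hy]; ring
      obtain ⟨h, hhH, h10, h00⟩ := step1 y hy0
      have := conj_up h h10 1
      rw [h00, hy, mul_one] at this
      rw [← this]
      exact H.mul_mem (H.mul_mem hhH hu) (H.inv_mem hhH)
  -- Step 3
  have step3 : ∀ g : SL2 F, g 1 0 = 0 → g ∈ H := by
    intro g hg
    have hd := sl2_det g
    rw [hg] at hd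
    have h0 : g 0 0 ≠ 0 := by
      intro h; rw [h] at hd; simp at hd
    obtain ⟨h, hhH, h10, h00⟩ := step1 (g 0 0) h0
    have hd' := sl2_det h
    rw [h10, h00] at hd'
    have : g = h * up ((g 0 1 - h 0 1) / g 0 0) := by
      apply sl2_ext
      · rw [mul00, h00]; simp [up]
      · rw [mul01, h00]
        simp only [up, Matrix.of_apply, Matrix.cons_val', Matrix.cons_val_zero, Matrix.cons_val_one,
          Matrix.cons_val_fin_one]
        field_simp
        ring
      · rw [mul10, h10]; simp [up, hg]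
      · rw [mul11, h10]
        simp only [up, Matrix.of_apply, Matrix.cons_val', Matrix.cons_val_zero, Matrix.cons_val_one,
          Matrix.cons_val_fin_one]
        have : g 0 0 * (g 1 1 - h 1 1) = 0 := by linear_combination hd - hd'
        have := (mul_eq_zero.1 this).resolve_left h0
        linear_combination this
    rw [this]
    exact H.mul_mem hhH (step2 _)
  -- Step 4
  have hs10 : s 1 0 ≠ 0 := fun h => not_tri hno s hs1 h
  rw [eq_top_iff]
  intro g _
  by_cases hg : g 1 0 = 0
  · exact step3 g hg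
  · set x := g 0 0 / g 1 0 - s 0 0 / s 1 0 with hx
    have h1 : s⁻¹ * (up (-x)) * g ∈ H := by
      apply step3
      rw [mul_assoc, mul10, inv10, inv11, mul00, mul10]
      simp only [up, Matrix.of_apply, Matrix.cons_val', Matrix.cons_val_zero, Matrix.cons_val_one,
          Matrix.cons_val_fin_one]
      rw [hx]
      field_simp
      ring
    have h2 : g = (up (-x))⁻¹ * s * (s⁻¹ * (up (-x)) * g) := by group
    rw [h2]
    exact H.mul_mem (H.mul_mem (H.inv_mem (step2 _)) hsH) h1

theorem ig_sl2 (hno : ∀ x : F, x ^ 2 + x + 1 ≠ 0) (hsq : ∀ x : F, ∃ y : F, y ^ 2 = x)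
    (hord : ∀ a : F, a ≠ 0 → a ≠ 1 → 7 ≤ orderOf a)
    (hlf : ∀ a b c : SL2 F, Finite (Subgroup.closure ({a, b, c} : Set (SL2 F))))
    (H : Subgroup (SL2 F)) (hH : ∀ g : SL2 F, ∃ h ∈ H, IsConj g h) : H = ⊤ := by
  obtain ⟨u, huH, hu⟩ := hH (up 1)
  obtain ⟨c, hc⟩ := isConj_iff.1 hu
  -- H' = c⁻¹ H c
  let H' : Subgroup (SL2 F) := H.comap (MulAut.conj c).toMonoidHom
  have hmem : ∀ x, x ∈ H' ↔ c * x * c⁻¹ ∈ H := by
    intro x
    simp [H', Subgroup.mem_comap, MulAut.conj_apply]
  have h1 : H' = ⊤ := by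
    apply ig_aux hno hsq hord hlf H'
    · intro g
      obtain ⟨h, hh, hgh⟩ := hH g
      refine ⟨c⁻¹ * h * c, ?_, ?_⟩
      · rw [hmem]
        have : c * (c⁻¹ * h * c) * c⁻¹ = h := by group
        rw [this]; exact hh
      · refine hgh.trans ?_
        rw [isConj_iff]
        exact ⟨c⁻¹, by group⟩
    · rw [hmem, hc]; exact huH
  rw [eq_top_iff]
  intro g _
  have : c⁻¹ * g * c ∈ H' := by rw [h1]; exact Subgroup.mem_top _
  rw [hmem] at this
  have h2 : c * (c⁻¹ * g * c) * c⁻¹ = g := by group
  rwa [h2] at this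

end Pool.Agent.H542R3
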