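import Pool.Agent.Helper455.KZ.Gap

set_option autoImplicit false

/-!
Property (T) for a group generated by three elements of order three, any two of which
generate a quotient of the Frobenius group of order 21. Uses the spectral gap library of helper455.
-/

open scoped InnerProductSpace

namespace Pool.Agent.H542R3.MU

open Pool.Agent.Helper455.KZ

section ring

variable {R : Type*} [Ring R]

theorem comm_pow (A T : R) (hAT : A * T = T ^ 4 * A) (k : ℕ) : A * T ^ k = T ^ (4 * k) * A := by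
  induction k with
  | zero => simp
  | succ k ih =>
    rw [pow_succ, ← mul_assoc, ih, mul_assoc, hAT, ← mul_assoc, ← pow_add]
    congr 2

theorem red7 (T : R) (hT : T ^ 7 = 1) (k : ℕ) : T ^ k = T ^ (k % 7) := by
  conv_lhs => rw [← Nat.div_add_mod k 7, pow_add, pow_mul, hT, one_pow, one_mul]

theorem ring_comm (A T : R) (hT : T ^ 7 = 1) (hAT : A * T = T ^ 4 * A) :
    A * (1 + T + T ^ 2 + T ^ 3 + T ^ 4 + T ^ 5 + T ^ 6) =
      (1 + T + T ^ 2 + T ^ 3 + T ^ 4 + T ^ 5 + T ^ 6) * A := by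
  have h1 : A * T = T ^ 4 * A := hAT
  have h2 : A * T ^ 2 = T * A := by
    rw [comm_pow A T hAT, red7 T hT (4 * 2)]; norm_num
  have h3 : A * T ^ 3 = T ^ 5 * A := by
    rw [comm_pow A T hAT, red7 T hT (4 * 3)]
  have h4 : A * T ^ 4 = T ^ 2 * A := by
    rw [comm_pow A T hAT, red7 T hT (4 * 4)]
  have h5 : A * T ^ 5 = T ^ 6 * A := by
    rw [comm_pow A T hAT, red7 T hT (4 * 5)]
  have h6 : A * T ^ 6 = T ^ 3 * A := by
    rw [comm_pow A T hAT, red7 T hT (4 * 6)]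
  simp only [mul_add, add_mul, mul_one, one_mul, h1, h2, h3, h4, h5, h6]
  abel

theorem ring_id (A B T : R) (hA : A ^ 3 = 1) (hT : T ^ 7 = 1) (hAT : A * T = T ^ 4 * A)
    (hB : B = A ^ 2 * T) (hB2 : B ^ 2 = T ^ 6 * A) :
    (1 + A + A ^ 2) * (1 + B + B ^ 2) * (1 + A + A ^ 2) =
      (1 + A + A ^ 2) + (1 + A + A ^ 2) +
        (1 + T + T ^ 2 + T ^ 3 + T ^ 4 + T ^ 5 + T ^ 6) * (1 + A + A ^ 2) := by
  have h1 : A * T = T ^ 4 * A := hAT
  have h6 : A * T ^ 6 = T ^ 3 * A := by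
    rw [comm_pow A T hAT, red7 T hT (4 * 6)]
  have h4 : A * T ^ 4 = T ^ 2 * A := by
    rw [comm_pow A T hAT, red7 T hT (4 * 4)]
  have h3 : A * T ^ 3 = T ^ 5 * A := by
    rw [comm_pow A T hAT, red7 T hT (4 * 3)]
  obtain ⟨S, hS⟩ : ∃ S, S = 1 + A + A ^ 2 := ⟨_, rfl⟩
  rw [← hS]
  have e1 : A * S = S := by
    rw [hS, mul_add, mul_add, mul_one, ← pow_two, ← pow_succ', hA]; abel
  have e2 : S * A = S := by
    rw [hS, add_mul, add_mul, one_mul, ← pow_two, ← pow_succ, hA]; abel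
  have e3 : A ^ 2 * S = S := by rw [pow_two, mul_assoc, e1, e1]
  have e4 : S * A ^ 2 = S := by rw [pow_two, ← mul_assoc, e2, e2]
  have e5 : S * S = S + S + S := by
    have : S * S = (1 + A + A ^ 2) * S := by rw [← hS]
    rw [this, add_mul, add_mul, one_mul, e1, e3]
  have e6 : S * T * S = (T + T ^ 4 + T ^ 2) * S := by
    have : S * T = T + T ^ 4 * A + T ^ 2 * A ^ 2 := by
      rw [hS, add_mul, add_mul, one_mul, h1]
      congr 1
      rw [pow_two, mul_assoc, h1, ← mul_assoc, h4, mul_assoc]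
    rw [this, add_mul, add_mul, mul_assoc, mul_assoc, e1, e3, add_mul, add_mul]
  have e7 : S * T ^ 6 * S = (T ^ 6 + T ^ 3 + T ^ 5) * S := by
    have : S * T ^ 6 = T ^ 6 + T ^ 3 * A + T ^ 5 * A ^ 2 := by
      rw [hS, add_mul, add_mul, one_mul, h6]
      congr 1
      rw [pow_two, mul_assoc, h6, ← mul_assoc, h3, mul_assoc]
    rw [this, add_mul, add_mul, mul_assoc, mul_assoc, e1, e3, add_mul, add_mul]
  have e8 : S * (1 + B + B ^ 2) * S = S * S + S * T * S + S * T ^ 6 * S := by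
    rw [hB2, hB, mul_add, mul_add, mul_one, add_mul, add_mul]
    have f1 : S * (A ^ 2 * T) = S * T := by rw [← mul_assoc, e4]
    have f2 : S * (T ^ 6 * A) * S = S * T ^ 6 * S := by
      rw [← mul_assoc, mul_assoc (S * T ^ 6), e1]
    rw [f1, f2]
  rw [e8, e5, e6, e7]
  simp only [add_mul, one_mul]
  abel

end ring

section rep

variable {G : Type} [Group G]
variable {H : Type} [NormedAddCommGroup H] [InnerProductSpace ℂ H] [CompleteSpace H]

/-- the operators of a cyclic group -/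
noncomputable def cyc (π : G →* unitary (H →L[ℂ] H)) (n : ℕ) (g : G) : ZMod n → (H →L[ℂ] H) :=
  fun t => (π (g ^ t.val) : H →L[ℂ] H)

theorem op_mul (π : G →* unitary (H →L[ℂ] H)) (g h : G) (x : H) :
    (π (g * h) : H →L[ℂ] H) x = (π g : H →L[ℂ] H) ((π h : H →L[ℂ] H) x) := by
  simp [map_mul]

theorem cyc_rep (π : G →* unitary (H →L[ℂ] H)) (n : ℕ) [NeZero n] (g : G) (hg : g ^ n = 1) :
    URep (cyc π n g) where
  zero v := by simp [cyc]
  add a b v := by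
    simp only [cyc]
    rw [← op_mul, ← pow_add, ZMod.val_add, ← pow_eq_pow_mod _ hg]
  inner a v w := Unitary.inner_map_map _ _ _

theorem avg3 (π : G →* unitary (H →L[ℂ] H)) (g : G) (x : H) :
    avg (cyc π 3 g) x = ((3 : ℂ)⁻¹) •
      ((1 + (π g : H →L[ℂ] H) + (π g : H →L[ℂ] H) ^ 2 : H →L[ℂ] H) x) := by
  have h : (∑ a : ZMod 3, cyc π 3 g a x) = cyc π 3 g 0 x + cyc π 3 g 1 x + cyc π 3 g 2 x :=
    Fin.sum_univ_three (fun a : Fin 3 => cyc π 3 g a x)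
  have hv0 : ZMod.val (0 : ZMod 3) = 0 := rfl
  have hv1 : ZMod.val (1 : ZMod 3) = 1 := rfl
  have hv2 : ZMod.val (2 : ZMod 3) = 2 := rfl
  rw [avg, h]
  simp only [cyc, hv0, hv1, hv2, pow_zero, pow_one, map_one, map_pow]
  simp [ZMod.card]

theorem avg7 (π : G →* unitary (H →L[ℂ] H)) (g : G) (x : H) :
    avg (cyc π 7 g) x = ((7 : ℂ)⁻¹) •
      ((1 + (π g : H →L[ℂ] H) + (π g : H →L[ℂ] H) ^ 2 + (π g : H →L[ℂ] H) ^ 3
        + (π g : H →L[ℂ] H) ^ 4 + (π g : H →L[ℂ] H) ^ 5 + (π g : H →L[ℂ] H) ^ 6 :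
          H →L[ℂ] H) x) := by
  have h : (∑ a : ZMod 7, cyc π 7 g a x) = cyc π 7 g 0 x + cyc π 7 g 1 x + cyc π 7 g 2 x
      + cyc π 7 g 3 x + cyc π 7 g 4 x + cyc π 7 g 5 x + cyc π 7 g 6 x :=
    Fin.sum_univ_seven (fun a : Fin 7 => cyc π 7 g a x)
  have hv0 : ZMod.val (0 : ZMod 7) = 0 := rfl
  have hv1 : ZMod.val (1 : ZMod 7) = 1 := rfl
  have hv2 : ZMod.val (2 : ZMod 7) = 2 := rfl
  have hv3 : ZMod.val (3 : ZMod 7) = 3 := rfl
  have hv4 : ZMod.val (4 : ZMod 7) = 4 := rfl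
  have hv5 : ZMod.val (5 : ZMod 7) = 5 := rfl
  have hv6 : ZMod.val (6 : ZMod 7) = 6 := rfl
  rw [avg, h]
  simp only [cyc, hv0, hv1, hv2, hv3, hv4, hv5, hv6, pow_zero, pow_one, map_one, map_pow]
  simp [ZMod.card]

/-- consequences of the relations -/
theorem frob_rels {a b : G} (ha : a ^ 3 = 1) (hb : b ^ 3 = 1)
    (hab : (a * b) ^ 2 = b * a) :
    (a * b) ^ 7 = 1 ∧ a * (a * b) = (a * b) ^ 4 * a ∧ b ^ 2 = (a * b) ^ 6 * a := by
  obtain ⟨t, ht⟩ : ∃ t, t = a * b := ⟨_, rfl⟩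
  rw [← ht] at hab ⊢
  have hb' : b = a⁻¹ * t := by rw [ht]; group
  have h1 : t ^ 2 = a⁻¹ * t * a := by rw [hab, hb']
  have h2 : a * t ^ 2 * a⁻¹ = t := by rw [h1]; group
  have h4 : t ^ 4 = a⁻¹ * t ^ 2 * a := by
    have : t ^ 4 = t ^ 2 * t ^ 2 := by rw [← pow_add]
    rw [this]
    conv_lhs => rw [h1]
    rw [pow_two]
    group
  have h8 : t ^ 8 = a⁻¹ * t ^ 4 * a := by
    have : t ^ 8 = t ^ 4 * t ^ 4 := by rw [← pow_add]
    rw [this]
    conv_lhs => rw [h4]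
    have : t ^ 4 = t ^ 2 * t ^ 2 := by rw [← pow_add]
    rw [this]
    simp only [mul_assoc, mul_inv_cancel_left]
  have ha' : a⁻¹ * a⁻¹ * a⁻¹ = 1 := by
    have : (a ^ 3)⁻¹ = 1 := by rw [ha, inv_one]
    rw [← this]; group
  have h8' : t ^ 8 = t := by
    rw [h8, h4, h1]
    have : a⁻¹ * (a⁻¹ * (a⁻¹ * t * a) * a) * a = (a⁻¹ * a⁻¹ * a⁻¹) * t * (a⁻¹ * a⁻¹ * a⁻¹)⁻¹ := by
      simp only [mul_inv_rev, inv_inv, mul_assoc]
    rw [this, ha']; group
  have h7 : t ^ 7 = 1 := by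
    have : t ^ 7 * t = t := by rw [← pow_succ]; exact h8'
    exact mul_eq_right.mp this
  have h5 : a * t = t ^ 4 * a := by
    have e : a * t ^ 8 * a⁻¹ = t ^ 4 := by rw [h8]; group
    rw [h8'] at e
    rw [← e]; group
  refine ⟨h7, h5, ?_⟩
  have hb3 : b ^ 2 = b⁻¹ := by
    have : b ^ 2 * b = 1 := by rw [← pow_succ]; exact hb
    exact eq_inv_of_mul_eq_one_left this
  have ht6 : t ^ 6 = t⁻¹ := by
    have : t ^ 6 * t = 1 := by rw [← pow_succ]; exact h7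
    exact eq_inv_of_mul_eq_one_left this
  rw [hb3, ht6, hb']; group

theorem pair_frob (π : G →* unitary (H →L[ℂ] H)) {a b : G} (ha : a ^ 3 = 1) (hb : b ^ 3 = 1)
    (hab : (a * b) ^ 2 = b * a) (v : H) :
    0 ≤ 2 * (⟪co (avg (cyc π 3 a)) v, co (avg (cyc π 3 b)) v⟫_ℂ).re +
      (12 / 25) * (‖co (avg (cyc π 3 a)) v‖ ^ 2 + ‖co (avg (cyc π 3 b)) v‖ ^ 2) := by
  obtain ⟨h7, h5, hb2⟩ := frob_rels ha hb hab
  have rA := cyc_rep π 3 a ha
  have rB := cyc_rep π 3 b hb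
  have rT := cyc_rep π 7 (a * b) h7
  set P := avg (cyc π 3 a) with hP
  set P' := avg (cyc π 3 b) with hP'
  set R := avg (cyc π 7 (a * b)) with hR
  have pP : Proj P := rA.avg_proj
  have pP' : Proj P' := rB.avg_proj
  have pR : Proj R := rT.avg_proj
  -- operators
  set A : H →L[ℂ] H := (π a : H →L[ℂ] H) with hAd
  set B : H →L[ℂ] H := (π b : H →L[ℂ] H) with hBd
  set T : H →L[ℂ] H := (π (a * b) : H →L[ℂ] H) with hTd
  have oA : A ^ 3 = 1 := by
    have := congrArg (fun g => (π g : H →L[ℂ] H)) ha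
    simpa [map_pow] using this
  have oT : T ^ 7 = 1 := by
    have := congrArg (fun g => (π g : H →L[ℂ] H)) h7
    simpa only [map_pow, map_one, SubmonoidClass.coe_pow, OneMemClass.coe_one] using this
  have oAT : A * T = T ^ 4 * A := by
    have := congrArg (fun g => (π g : H →L[ℂ] H)) h5
    simpa only [map_pow, map_mul π a (a * b), map_mul π ((a * b) ^ 4) a, map_one,
      SubmonoidClass.coe_pow, OneMemClass.coe_one, Submonoid.coe_mul] using this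
  have oB2 : B ^ 2 = T ^ 6 * A := by
    have := congrArg (fun g => (π g : H →L[ℂ] H)) hb2
    simpa only [map_pow, map_mul π ((a * b) ^ 6) a, map_one,
      SubmonoidClass.coe_pow, OneMemClass.coe_one, Submonoid.coe_mul] using this
  have hbe : b = a ^ 2 * (a * b) := by
    have : a ^ 2 * (a * b) = a ^ 3 * b := by rw [pow_succ a 2, mul_assoc]
    rw [this, ha, one_mul]
  have oB : B = A ^ 2 * T := by
    have := congrArg (fun g => (π g : H →L[ℂ] H)) hbe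
    simpa only [map_pow, map_mul π (a ^ 2) (a * b), map_one,
      SubmonoidClass.coe_pow, OneMemClass.coe_one, Submonoid.coe_mul] using this
  have id1 := ring_id A B T oA oT oAT oB oB2
  have id2 := ring_comm A T oT oAT
  have hPx : ∀ x, P x = ((3 : ℂ)⁻¹) • ((1 + A + A ^ 2 : H →L[ℂ] H) x) := fun x => avg3 π a x
  have hP'x : ∀ x, P' x = ((3 : ℂ)⁻¹) • ((1 + B + B ^ 2 : H →L[ℂ] H) x) := fun x => avg3 π b x
  have hRx : ∀ x, R x = ((7 : ℂ)⁻¹) •
      ((1 + T + T ^ 2 + T ^ 3 + T ^ 4 + T ^ 5 + T ^ 6 : H →L[ℂ] H) x) :=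
    fun x => avg7 π (a * b) x
  have key : ∀ x, P (P' (P x)) = ((2 : ℂ) / 9) • P x + ((7 : ℂ) / 9) • R (P x) := by
    intro x
    have e : ((1 + A + A ^ 2) * (1 + B + B ^ 2) * (1 + A + A ^ 2) : H →L[ℂ] H) x = _ :=
      congrArg (fun F : H →L[ℂ] H => F x) id1
    have e1 : P (P' (P x)) = ((27 : ℂ)⁻¹) •
        (((1 + A + A ^ 2) * (1 + B + B ^ 2) * (1 + A + A ^ 2) : H →L[ℂ] H) x) := by
      rw [hPx x, hP'x, hPx, map_smul, map_smul, map_smul, smul_smul, smul_smul]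
      have : ((3 : ℂ)⁻¹ * 3⁻¹ * 3⁻¹) = 27⁻¹ := by norm_num
      rw [mul_assoc] at this
      rw [mul_assoc, this]; rfl
    rw [e1, e, hRx, hPx x, map_smul, smul_smul, smul_smul, smul_smul]
    have e2 : ((1 + A + A ^ 2) + (1 + A + A ^ 2) +
        (1 + T + T ^ 2 + T ^ 3 + T ^ 4 + T ^ 5 + T ^ 6) * (1 + A + A ^ 2) : H →L[ℂ] H) x =
        (1 + A + A ^ 2 : H →L[ℂ] H) x + (1 + A + A ^ 2 : H →L[ℂ] H) x +
        (1 + T + T ^ 2 + T ^ 3 + T ^ 4 + T ^ 5 + T ^ 6 : H →L[ℂ] H)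
          ((1 + A + A ^ 2 : H →L[ℂ] H) x) := rfl
    rw [e2, smul_add, smul_add, ← add_smul]
    congr 2
    · norm_num
    · norm_num
  have aE : ∀ x, A (R (P x)) = R (P x) := by
    intro x
    have e := congrArg (fun F : H →L[ℂ] H => F (P x)) id2
    have e0 : A (P x) = P x := by
      have := rA.fix_avg 1 x
      simpa [cyc, ZMod.val_one] using this
    rw [hRx, map_smul]
    congr 1
    have e' : A ((1 + T + T ^ 2 + T ^ 3 + T ^ 4 + T ^ 5 + T ^ 6 : H →L[ℂ] H) (P x)) =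
        (1 + T + T ^ 2 + T ^ 3 + T ^ 4 + T ^ 5 + T ^ 6 : H →L[ℂ] H) (A (P x)) := e
    rw [e', e0]
  have tE : ∀ x, T (R x) = R x := by
    intro x
    have := rT.fix_avg 1 x
    have h1 : (1 : ZMod 7).val = 1 := rfl
    simp only [cyc, h1, pow_one] at this
    exact this
  have bE : ∀ x, B (R (P x)) = R (P x) := by
    intro x
    have : B (R (P x)) = A (A (T (R (P x)))) := by
      rw [oB, pow_two]; rfl
    rw [this, tE, aE, aE]
  have fixpow : ∀ (g : G) (y : H), (π g : H →L[ℂ] H) y = y → ∀ k : ℕ,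
      (π (g ^ k) : H →L[ℂ] H) y = y := by
    intro g y hy k
    induction k with
    | zero => simp
    | succ k ih => rw [pow_succ, op_mul, hy, ih]
  have PE : ∀ x, P (R (P x)) = R (P x) := fun x =>
    avg_of_fix _ fun k => fixpow a _ (aE x) _
  have P'E : ∀ x, P' (R (P x)) = R (P x) := fun x =>
    avg_of_fix _ fun k => fixpow b _ (bE x) _
  -- reduction
  set w := v - R (P v) with hw
  have cw : co P w = co P v := by
    rw [hw, pP.co.sub]
    have : co P (R (P v)) = 0 := by rw [co, PE, sub_self]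
    rw [this, sub_zero]
  have cw' : co P' w = co P' v := by
    rw [hw, pP'.co.sub]
    have : co P' (R (P v)) = 0 := by rw [co, P'E, sub_self]
    rw [this, sub_zero]
  have Ew : R (P w) = 0 := by
    rw [hw, pP.sub, pR.sub, PE, pR.idem, sub_self]
  rw [← cw, ← cw']
  refine pair_small pP pP' (12 / 25) (by norm_num) (by norm_num) w ?_
  have n1 : ‖P' (P w)‖ ^ 2 = (2 / 9) * ‖P w‖ ^ 2 := by
    have h1 := pP'.re_inner_self (P w)
    rw [← h1]
    have h2 : ⟪P' (P w), P w⟫_ℂ = ⟪P (P' (P w)), P w⟫_ℂ := by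
      rw [pP.sym, pP.idem]
    rw [h2, key, Ew, smul_zero, add_zero, inner_smul_left, inner_self_eq_norm_sq_to_K]
    have h29 : ((2 : ℂ) / 9) = ((2 / 9 : ℝ) : ℂ) := by push_cast; rfl
    have : (starRingEnd ℂ) (2 / 9) = ((2 / 9 : ℝ) : ℂ) := by
      rw [h29]; exact Complex.conj_ofReal _
    rw [this]
    show (((2 / 9 : ℝ) : ℂ) * ((‖P w‖ : ℝ) : ℂ) ^ 2).re = _
    rw [← Complex.ofReal_pow, ← Complex.ofReal_mul, Complex.ofReal_re]
  have n2 : ‖P' (P w)‖ ≤ 12 / 25 * ‖P w‖ := by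
    apply le_of_sq_le_sq _ (by positivity)
    rw [n1, mul_pow]
    have := sq_nonneg ‖P w‖
    nlinarith
  have n3 : ⟪P w, P' w⟫_ℂ = ⟪P' (P w), P' w⟫_ℂ := by
    rw [pP'.sym, pP'.idem]
  rw [n3]
  refine (norm_inner_le_norm _ _).trans ?_
  have := mul_le_mul_of_nonneg_right n2 (norm_nonneg (P' w))
  linarith

end rep

/-- property (T) -/
theorem propT {G : Type} [Group G] (g : Fin 3 → G) (h3 : ∀ i, g i ^ 3 = 1)
    (h01 : (g 0 * g 1) ^ 2 = g 1 * g 0) (h12 : (g 1 * g 2) ^ 2 = g 2 * g 1)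
    (h20 : (g 2 * g 0) ^ 2 = g 0 * g 2) (gen : Subgroup.closure (Set.range g) = ⊤)
    (H : Type) [NormedAddCommGroup H] [InnerProductSpace ℂ H] [CompleteSpace H]
    (ρ : G →* unitary (H →L[ℂ] H))
    (hai : ∀ (S : Finset G) (ε : ℝ), 0 < ε →
      ∃ v : H, ‖v‖ = 1 ∧ ∀ s ∈ S, ‖(ρ s : H →L[ℂ] H) v - v‖ < ε) :
    ∃ v : H, v ≠ 0 ∧ ∀ g : G, (ρ g : H →L[ℂ] H) v = v := by
  classical
  obtain ⟨v, hv, hsm⟩ := hai ((Finset.univ : Finset (Fin 3 × ZMod 3)).image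
    (fun q => g q.1 ^ q.2.val)) (thr (3 : ℝ) (1 - ((3 : ℝ) - 1) * (12 / 25)))
    (thr_pos _ _ (by norm_num) (by norm_num))
  have hcard : (Fintype.card (Fin 3) : ℝ) = 3 := by simp
  let Q : Fin 3 → H → H := fun i => co (avg (cyc ρ 3 (g i)))
  have hrep : ∀ i, URep (cyc ρ 3 (g i)) := fun i => cyc_rep ρ 3 (g i) (h3 i)
  have hQ : ∀ i, Proj (Q i) := fun i => (hrep i).avg_proj.co
  have hsymm : ∀ i j : Fin 3, ∀ v,
      (0 ≤ 2 * (⟪Q i v, Q j v⟫_ℂ).re + (12 / 25) * (‖Q i v‖ ^ 2 + ‖Q j v‖ ^ 2)) →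
      (0 ≤ 2 * (⟪Q j v, Q i v⟫_ℂ).re + (12 / 25) * (‖Q j v‖ ^ 2 + ‖Q i v‖ ^ 2)) := by
    intro i j v h
    have e : (⟪Q j v, Q i v⟫_ℂ).re = (⟪Q i v, Q j v⟫_ℂ).re := by
      rw [← inner_conj_symm, Complex.conj_re]
    rw [e, add_comm (‖Q j v‖ ^ 2)]
    exact h
  have hpair : ∀ i j : Fin 3, i ≠ j → ∀ v, 0 ≤ 2 * (⟪Q i v, Q j v⟫_ℂ).re +
      (12 / 25) * (‖Q i v‖ ^ 2 + ‖Q j v‖ ^ 2) := by
    intro i j hij v
    fin_cases i <;> fin_cases j
    · exact absurd rfl hij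
    · exact pair_frob ρ (h3 0) (h3 1) h01 v
    · exact hsymm 2 0 v (pair_frob ρ (h3 2) (h3 0) h20 v)
    · exact hsymm 0 1 v (pair_frob ρ (h3 0) (h3 1) h01 v)
    · exact absurd rfl hij
    · exact pair_frob ρ (h3 1) (h3 2) h12 v
    · exact pair_frob ρ (h3 2) (h3 0) h20 v
    · exact hsymm 1 2 v (pair_frob ρ (h3 1) (h3 2) h12 v)
    · exact absurd rfl hij
  have hDE : ∀ v, (1 - ((3 : ℝ) - 1) * (12 / 25)) * EE Q v ≤ ‖DD Q v‖ ^ 2 := by
    intro v
    have := DD_lower Q (12 / 25) hpair v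
    rwa [hcard] at this
  have hv' : ∀ i, ‖Q i v‖ ≤ thr (Fintype.card (Fin 3) : ℝ) (1 - ((3 : ℝ) - 1) * (12 / 25)) := by
    intro i
    rw [hcard]
    refine co_avg_small v _ fun a => ?_
    exact (hsm (g i ^ a.val) (Finset.mem_image.mpr ⟨(i, a), Finset.mem_univ _, rfl⟩)).le
  obtain ⟨w, hw, hwi⟩ := exists_invariant (by simp) Q hQ _ (by norm_num) (by norm_num) hDE v hv hv'
  refine ⟨w, hw, ?_⟩
  let St : Subgroup G :=
    { carrier := {g | (ρ g : H →L[ℂ] H) w = w}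
      one_mem' := by simp
      mul_mem' := by
        intro a b ha hb
        show (ρ (a * b) : H →L[ℂ] H) w = w
        have ha' : (ρ a : H →L[ℂ] H) w = w := ha
        have hb' : (ρ b : H →L[ℂ] H) w = w := hb
        rw [op_mul, hb', ha']
      inv_mem' := by
        intro a ha
        show (ρ a⁻¹ : H →L[ℂ] H) w = w
        have ha' : (ρ a : H →L[ℂ] H) w = w := ha
        have h1 : (ρ a⁻¹ : H →L[ℂ] H) ((ρ a : H →L[ℂ] H) w) = w := by
          rw [← op_mul, inv_mul_cancel]; simp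
        rwa [ha'] at h1 }
  have hle : Subgroup.closure (Set.range g) ≤ St := by
    rw [Subgroup.closure_le]
    rintro _ ⟨i, rfl⟩
    show (ρ (g i) : H →L[ℂ] H) w = w
    have h1 : avg (cyc ρ 3 (g i)) w = w := by
      have : w - avg (cyc ρ 3 (g i)) w = 0 := hwi i
      rw [sub_eq_zero] at this
      exact this.symm
    have h3 := (hrep i).fix_avg 1 w
    rw [h1] at h3
    have hv1 : ZMod.val (1 : ZMod 3) = 1 := rfl
    simpa only [cyc, hv1, pow_one] using h3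
  intro x
  rw [gen] at hle
  exact hle (Subgroup.mem_top x)

end Pool.Agent.H542R3.MU
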