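import Pool.Agent.H542R3.MUH
import Pool.Agent.H542R3.MUT

set_option autoImplicit false

/-!
The presented group, its finite quotients and the choice of primes.
-/

open Matrix

namespace Pool.Agent.H542R3.MU

section group

/-- relators -/
def rels : Set (FreeGroup (Fin 3)) :=
  {FreeGroup.of 0 ^ 3, FreeGroup.of 1 ^ 3, FreeGroup.of 2 ^ 3,
    (FreeGroup.of 0 * FreeGroup.of 1) ^ 2 * (FreeGroup.of 1 * FreeGroup.of 0)⁻¹,
    (FreeGroup.of 1 * FreeGroup.of 2) ^ 2 * (FreeGroup.of 2 * FreeGroup.of 1)⁻¹,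
    (FreeGroup.of 2 * FreeGroup.of 0) ^ 2 * (FreeGroup.of 0 * FreeGroup.of 2)⁻¹}

/-- the group -/
abbrev Gam : Type := PresentedGroup rels

/-- generators -/
def gen (i : Fin 3) : Gam := PresentedGroup.of i

theorem gen_cube (i : Fin 3) : gen i ^ 3 = 1 := by
  have h : ∀ i : Fin 3, (FreeGroup.of i ^ 3 : FreeGroup (Fin 3)) ∈ rels := by
    intro i
    fin_cases i <;> simp [rels]
  have := PresentedGroup.one_of_mem (h i)
  rw [map_pow] at this
  exact this

theorem gen01 : (gen 0 * gen 1) ^ 2 = gen 1 * gen 0 := by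
  have h : ((FreeGroup.of 0 * FreeGroup.of 1) ^ 2 * (FreeGroup.of 1 * FreeGroup.of 0)⁻¹ :
      FreeGroup (Fin 3)) ∈ rels := by simp [rels]
  have := PresentedGroup.mk_eq_mk_of_mul_inv_mem h
  rw [map_pow, map_mul, map_mul] at this
  exact this

theorem gen12 : (gen 1 * gen 2) ^ 2 = gen 2 * gen 1 := by
  have h : ((FreeGroup.of 1 * FreeGroup.of 2) ^ 2 * (FreeGroup.of 2 * FreeGroup.of 1)⁻¹ :
      FreeGroup (Fin 3)) ∈ rels := by simp [rels]
  have := PresentedGroup.mk_eq_mk_of_mul_inv_mem h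
  rw [map_pow, map_mul, map_mul] at this
  exact this

theorem gen20 : (gen 2 * gen 0) ^ 2 = gen 0 * gen 2 := by
  have h : ((FreeGroup.of 2 * FreeGroup.of 0) ^ 2 * (FreeGroup.of 0 * FreeGroup.of 2)⁻¹ :
      FreeGroup (Fin 3)) ∈ rels := by simp [rels]
  have := PresentedGroup.mk_eq_mk_of_mul_inv_mem h
  rw [map_pow, map_mul, map_mul] at this
  exact this

theorem closure_gen : Subgroup.closure (Set.range gen) = ⊤ :=
  PresentedGroup.closure_range_of rels

theorem perfect : commutator Gam = ⊤ := by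
  have hc : ∀ x y : Gam, (QuotientGroup.mk (x * y) : Gam ⧸ commutator Gam) =
      QuotientGroup.mk (y * x) := by
    intro x y
    have hcm := Subgroup.Normal.quotient_commutative_iff_commutator_le.mpr
      (le_refl (commutator Gam))
    rw [QuotientGroup.mk_mul, QuotientGroup.mk_mul]
    exact hcm.is_comm.comm _ _
  -- in the abelianization the products of two generators are trivial
  have key : ∀ x y : Gam, (x * y) ^ 2 = y * x → x * y ∈ commutator Gam := by
    intro x y h
    rw [← QuotientGroup.eq_one_iff]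
    have h1 : (QuotientGroup.mk ((x * y) ^ 2) : Gam ⧸ commutator Gam) =
        QuotientGroup.mk (x * y) := by rw [h, hc]
    rw [QuotientGroup.mk_pow, pow_two] at h1
    exact mul_eq_left.mp h1
  have h01 := key _ _ gen01
  have h12 := key _ _ gen12
  have h20 := key _ _ gen20
  rw [← QuotientGroup.eq_one_iff, QuotientGroup.mk_mul] at h01 h12 h20
  have e1 : (QuotientGroup.mk (gen 1) : Gam ⧸ commutator Gam) = (QuotientGroup.mk (gen 0))⁻¹ :=
    eq_inv_of_mul_eq_one_right h01
  have e2 : (QuotientGroup.mk (gen 2) : Gam ⧸ commutator Gam) = (QuotientGroup.mk (gen 1))⁻¹ :=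
    eq_inv_of_mul_eq_one_right h12
  have e3 : (QuotientGroup.mk (gen 2) : Gam ⧸ commutator Gam) = QuotientGroup.mk (gen 0) := by
    rw [e2, e1, inv_inv]
  rw [e3, ← pow_two] at h20
  have h3 : (QuotientGroup.mk (gen 0) : Gam ⧸ commutator Gam) ^ 3 = 1 := by
    rw [← QuotientGroup.mk_pow, gen_cube, QuotientGroup.mk_one]
  have e0 : (QuotientGroup.mk (gen 0) : Gam ⧸ commutator Gam) = 1 := by
    rw [pow_succ, h20, one_mul] at h3
    exact h3
  have hall : ∀ i, gen i ∈ commutator Gam := by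
    intro i
    rw [← QuotientGroup.eq_one_iff]
    fin_cases i
    · exact e0
    · show (QuotientGroup.mk (gen 1) : Gam ⧸ commutator Gam) = 1
      rw [e1, e0, inv_one]
    · show (QuotientGroup.mk (gen 2) : Gam ⧸ commutator Gam) = 1
      rw [e3, e0]
  rw [eq_top_iff, ← closure_gen, Subgroup.closure_le]
  rintro _ ⟨i, rfl⟩
  exact hall i

end group

section rep

variable {F : Type} [Field F]

/-- units from matrices of order three -/
def u3 (M : Matrix (Fin 3) (Fin 3) F) (h : M * M * M = 1) : GL (Fin 3) F :=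
  ⟨M, M * M, by rw [← Matrix.mul_assoc, h], h⟩

theorem exists_rep {l : F} (hl : l * l + l + 2 = 0) (h2 : (2 : F) ≠ 0) :
    ∃ ψ : Gam →* GL (Fin 3) F, (ψ (gen 0)).val = mA l ∧ (ψ (gen 1)).val = mB l ∧
      (ψ (gen 2)).val = mC l := by
  obtain ⟨a, ha⟩ : ∃ a : GL (Fin 3) F, a.val = mA l := ⟨u3 (mA l) (mA3 hl h2), rfl⟩
  obtain ⟨b, hb⟩ : ∃ a : GL (Fin 3) F, a.val = mB l := ⟨u3 (mB l) (mB3 hl h2), rfl⟩
  obtain ⟨c, hc⟩ : ∃ a : GL (Fin 3) F, a.val = mC l := ⟨u3 (mC l) (mC3 hl h2), rfl⟩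
  have ha3 : a ^ 3 = 1 := by
    apply Units.ext
    rw [Units.val_pow_eq_pow_val, ha, pow_succ, pow_two, mA3 hl h2, Units.val_one]
  have hb3 : b ^ 3 = 1 := by
    apply Units.ext
    rw [Units.val_pow_eq_pow_val, hb, pow_succ, pow_two, mB3 hl h2, Units.val_one]
  have hc3 : c ^ 3 = 1 := by
    apply Units.ext
    rw [Units.val_pow_eq_pow_val, hc, pow_succ, pow_two, mC3 hl h2, Units.val_one]
  have hab : (a * b) ^ 2 = b * a := by
    apply Units.ext
    rw [Units.val_pow_eq_pow_val, Units.val_mul, Units.val_mul, ha, hb, pow_two, mAB hl h2]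
  have hbc : (b * c) ^ 2 = c * b := by
    apply Units.ext
    rw [Units.val_pow_eq_pow_val, Units.val_mul, Units.val_mul, hb, hc, pow_two, mBC hl h2]
  have hca : (c * a) ^ 2 = a * c := by
    apply Units.ext
    rw [Units.val_pow_eq_pow_val, Units.val_mul, Units.val_mul, hc, ha, pow_two, mCA hl h2]
  have hr : ∀ r ∈ rels, FreeGroup.lift ![a, b, c] r = 1 := by
    intro r hr
    simp only [rels, Set.mem_insert_iff, Set.mem_singleton_iff] at hr
    rcases hr with rfl | rfl | rfl | rfl | rfl | rfl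
    · simpa using ha3
    · simpa using hb3
    · simpa using hc3
    · rw [map_mul, map_pow, map_mul, map_inv, map_mul, mul_inv_eq_one]
      simpa using hab
    · rw [map_mul, map_pow, map_mul, map_inv, map_mul, mul_inv_eq_one]
      simpa using hbc
    · rw [map_mul, map_pow, map_mul, map_inv, map_mul, mul_inv_eq_one]
      simpa using hca
  refine ⟨PresentedGroup.toGroup hr, ?_, ?_, ?_⟩
  · rw [gen, PresentedGroup.toGroup.of]; exact ha
  · rw [gen, PresentedGroup.toGroup.of]; exact hb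
  · rw [gen, PresentedGroup.toGroup.of]; exact hc

/-- the unitary group of the form -/
def PMS (bar : F →+* F) (H : Matrix (Fin 3) (Fin 3) F) : Subgroup (GL (Fin 3) F) where
  carrier := {g | PM bar H g.val}
  mul_mem' := by
    intro a b ha hb
    exact PM_mul ha hb
  one_mem' := PM_one
  inv_mem' := by
    intro a ha
    exact PM_inv ha a.mul_inv

/-- existence of one simple quotient of the required kind -/
theorem one_quotient [Finite F] (p : ℕ) [hp : Fact p.Prime] [CharP F p] (hp100 : 100 < p)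
    {bar : F →+* F} (hb : ∀ x, bar (bar x) = x) (hbp : ∀ x, bar x = x ^ p) {l : F}
    (hl : l * l + l + 2 = 0) (hbl : bar l = -1 - l) (hcard : ¬ 7 ∣ Nat.card F - 1) :
    ∃ N : Subgroup Gam, p ≤ N.index ∧ ∃ (Q : Type) (_ : Group Q), ∃ f : Gam →* Q,
          Function.Surjective f ∧ f.ker = N ∧ Finite Q ∧ IsSimpleGroup Q ∧
          ∃ (X : Type) (φ : Q →* Equiv.Perm X), Finite X ∧ 3 ≤ Nat.card X ∧
            (∀ a b c d : X, a ≠ b → c ≠ d → ∃ g : Q, φ g a = c ∧ φ g b = d) ∧
            ∃ (x : X) (U : Subgroup Q),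
              (∀ u ∈ U, φ u x = x) ∧
              (∀ u ∈ U, ∀ h : Q, φ h x = x → h * u * h⁻¹ ∈ U) ∧
              ∀ y z : X, y ≠ x → z ≠ x → ∃! u : Q, u ∈ U ∧ φ u y = z := by
  have hcast : ∀ n : ℕ, 0 < n → n < p → (n : F) ≠ 0 := by
    intro n hn hnp h
    rw [CharP.cast_eq_zero_iff F p] at h
    exact absurd (Nat.le_of_dvd hn h) (by omega)
  have h2 : (2 : F) ≠ 0 := by exact_mod_cast hcast 2 (by norm_num) (by omega)
  obtain ⟨ψ, h0, h1, h2'⟩ := exists_rep hl h2
  have hle : ψ.range ≤ PMS bar (mH l) := by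
    rw [MonoidHom.range_eq_map, ← closure_gen, MonoidHom.map_closure, Subgroup.closure_le]
    rintro _ ⟨_, ⟨i, rfl⟩, rfl⟩
    fin_cases i
    · show PM bar (mH l) (ψ (gen 0)).val
      rw [h0]; exact mA_PM hl h2 hbl
    · show PM bar (mH l) (ψ (gen 1)).val
      rw [h1]; exact mB_PM hl h2 hbl
    · show PM bar (mH l) (ψ (gen 2)).val
      rw [h2']; exact mC_PM hl h2 hbl
  obtain ⟨P, hP⟩ := exists_hyp p hp100 hb hbp hl hbl hcard ψ.range (fun g hg => hle hg)
    (ψ (gen 0)) (ψ (gen 1)) (ψ (gen 2)) ⟨_, rfl⟩ ⟨_, rfl⟩ ⟨_, rfl⟩ h0 h1 h2'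
  obtain ⟨S, hS⟩ : ∃ S, S = ψ.range.map (MulAut.conj P⁻¹).toMonoidHom := ⟨_, rfl⟩
  rw [← hS] at hP
  -- surjection onto S
  obtain ⟨χ, hχ⟩ : ∃ χ : Gam →* S, Function.Surjective χ := by
    let χ0 : Gam →* GL (Fin 3) F := (MulAut.conj P⁻¹).toMonoidHom.comp ψ
    have hr : χ0.range = S := by
      rw [hS, MonoidHom.range_eq_map, MonoidHom.range_eq_map, Subgroup.map_map]
    subst hr
    exact ⟨χ0.rangeRestrict, MonoidHom.rangeRestrict_surjective _⟩
  have hSperf : commutator S = ⊤ := by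
    have h3 : (commutator Gam).map χ = commutator S := by
      rw [commutator_def, commutator_def, Subgroup.map_commutator,
        Subgroup.map_top_of_surjective χ hχ]
    rw [← h3, perfect, Subgroup.map_top_of_surjective χ hχ]
  obtain ⟨B, U, T, w, hR, hT, hcU⟩ := hP.rankOne hSperf p
  have hSfin : Finite S := inferInstance
  obtain ⟨f, hf⟩ : ∃ f : Gam →* RankOne.Qt B, Function.Surjective f :=
    ⟨(RankOne.qmap B).comp χ, (RankOne.qmap_surj B).comp hχ⟩
  have hQfin : Finite (RankOne.Qt B) := Finite.of_surjective _ (RankOne.qmap_surj B)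
  obtain ⟨s1, s2, s3⟩ := hR.split
  refine ⟨f.ker, ?_, RankOne.Qt B, inferInstance, f, hf, rfl, hQfin, hR.simple, S ⧸ B,
    (MulAction.toPermHom S (S ⧸ B)).range.subtype, inferInstance, hR.card_ge hT, ?_, ?_⟩
  · rw [Subgroup.index_ker, MonoidHom.range_eq_top.mpr hf]
    rw [Nat.card_congr (Subgroup.topEquiv (G := RankOne.Qt B)).toEquiv]
    exact hcU.trans hR.card_U
  · intro a b c d hab hcd
    exact hR.two_trans a b c d hab hcd
  · exact ⟨((1 : S) : S ⧸ B), U.map (RankOne.qmap B), s1, s2, s3⟩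

end rep

section primes

theorem neg7 (p : ℕ) [hp : Fact p.Prime] (h4 : p % 4 = 1) (h7 : p % 7 = 3) :
    ¬ IsSquare (-7 : ZMod p) := by
  have h37 : ¬ IsSquare (((3 : ℕ)) : ZMod 7) := by decide
  intro h
  have h1 : IsSquare (-1 : ZMod p) := ZMod.exists_sq_eq_neg_one_iff.mpr (by omega)
  have h2 : IsSquare (((7 : ℕ)) : ZMod p) := by
    have := h1.mul h
    have e : (-1 : ZMod p) * (-7) = ((7 : ℕ) : ZMod p) := by push_cast; ring
    rwa [e] at this
  have : Fact (Nat.Prime 7) := ⟨by norm_num⟩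
  rw [ZMod.exists_sq_eq_prime_iff_of_mod_four_eq_one h4 (by norm_num)] at h2
  have h3 : (p : ZMod 7) = ((3 : ℕ) : ZMod 7) := by
    rw [ZMod.natCast_eq_natCast_iff]
    exact h7
  rw [h3] at h2
  exact h37 h2

theorem exists_quotient (p : ℕ) [hp : Fact p.Prime] (hp100 : 100 < p) (h4 : p % 4 = 1)
    (h7 : p % 7 = 3) :
    ∃ N : Subgroup Gam, p ≤ N.index ∧ ∃ (Q : Type) (_ : Group Q), ∃ f : Gam →* Q,
          Function.Surjective f ∧ f.ker = N ∧ Finite Q ∧ IsSimpleGroup Q ∧
          ∃ (X : Type) (φ : Q →* Equiv.Perm X), Finite X ∧ 3 ≤ Nat.card X ∧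
            (∀ a b c d : X, a ≠ b → c ≠ d → ∃ g : Q, φ g a = c ∧ φ g b = d) ∧
            ∃ (x : X) (U : Subgroup Q),
              (∀ u ∈ U, φ u x = x) ∧
              (∀ u ∈ U, ∀ h : Q, φ h x = x → h * u * h⁻¹ ∈ U) ∧
              ∀ y z : X, y ≠ x → z ≠ x → ∃! u : Q, u ∈ U ∧ φ u y = z := by
  have hcardF : Nat.card (GaloisField p 2) = p ^ 2 := GaloisField.card p 2 (by norm_num)
  have hft : Fintype (GaloisField p 2) := Fintype.ofFinite _
  have hfc : Fintype.card (GaloisField p 2) = p ^ 2 := by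
    rw [← Nat.card_eq_fintype_card, hcardF]
  have hcast : ∀ n : ℕ, 0 < n → n < p → (n : GaloisField p 2) ≠ 0 := by
    intro n hn hnp h
    rw [CharP.cast_eq_zero_iff (GaloisField p 2) p] at h
    exact absurd (Nat.le_of_dvd hn h) (by omega)
  have h2 : (2 : GaloisField p 2) ≠ 0 := by exact_mod_cast hcast 2 (by norm_num) (by omega)
  have h7' : (7 : GaloisField p 2) ≠ 0 := by exact_mod_cast hcast 7 (by norm_num) (by omega)
  have h77 : (-7 : GaloisField p 2) ≠ 0 := neg_ne_zero.mpr h7'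
  have hfr : ∀ x : GaloisField p 2, frobenius (GaloisField p 2) p x = x ^ p := fun x => rfl
  have hpp : ∀ x : GaloisField p 2, (x ^ p) ^ p = x := by
    intro x
    rw [← pow_mul, ← pow_two, ← hfc]
    exact FiniteField.pow_card x
  have hneg7p : (-7 : GaloisField p 2) ^ p = -7 := by
    rw [← hfr, map_neg, map_ofNat]
  have hneg7 : (-7 : GaloisField p 2) ^ (p - 1) = 1 := by
    have h1 : (-7 : GaloisField p 2) ^ (p - 1) * (-7) = -7 := by
      rw [← pow_succ]
      have : p - 1 + 1 = p := by omega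
      rw [this, hneg7p]
    exact (mul_eq_right₀ h77).mp h1
  -- square root of minus seven
  have hsq : IsSquare (-7 : GaloisField p 2) := by
    rw [FiniteField.isSquare_iff _ h77, hfc]
    · have e : p ^ 2 / 2 = (p - 1) * ((p + 1) / 2) := by
        obtain ⟨k, hk⟩ : ∃ k, p = 2 * k + 1 := ⟨p / 2, by omega⟩
        have h3 : (p + 1) / 2 = k + 1 := by omega
        have h5 : p - 1 = 2 * k := by omega
        rw [h3, h5, hk]
        have h6 : (2 * k + 1) ^ 2 = 2 * (2 * k * (k + 1)) + 1 := by ring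
        rw [h6]
        omega
      rw [e, pow_mul, hneg7, one_pow]
    · rw [ringChar.eq (GaloisField p 2) p]
      omega
  obtain ⟨s, hs⟩ := hsq
  have hsp : s ^ p = -s := by
    have h1 : (s ^ p) ^ 2 = s ^ 2 := by
      rw [← pow_mul, mul_comm, pow_mul, pow_two, ← hs, hneg7p]
    rcases sq_eq_sq_iff_eq_or_eq_neg.mp h1 with h | h
    · exfalso
      rw [← Subfield.mem_bot_iff_pow_eq_self (GaloisField p 2) p, mem_bot_iff_intCast p] at h
      obtain ⟨n, hn⟩ := h
      apply neg7 p h4 h7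
      refine ⟨(n : ZMod p), ?_⟩
      have h5 : (((n * n + 7 : ℤ)) : GaloisField p 2) = 0 := by
        push_cast
        rw [hn, ← hs]; ring
      rw [CharP.intCast_eq_zero_iff (GaloisField p 2) p] at h5
      have h6 : (((n * n + 7 : ℤ)) : ZMod p) = 0 := by
        rw [CharP.intCast_eq_zero_iff (ZMod p) p]; exact h5
      push_cast at h6
      linear_combination -h6
    · exact h
  obtain ⟨l, hl⟩ : ∃ l : GaloisField p 2, 2 * l = -1 + s := ⟨(-1 + s) / 2, by field_simp⟩
  have h4' : (4 : GaloisField p 2) ≠ 0 := by exact_mod_cast hcast 4 (by norm_num) (by omega)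
  have hlq : l * l + l + 2 = 0 := by
    have : 4 * (l * l + l + 2) = 0 := by
      linear_combination (2 * l + 1 + s) * hl - hs
    exact (mul_eq_zero.mp this).resolve_left h4'
  have hbl : frobenius (GaloisField p 2) p l = -1 - l := by
    have h1 := congrArg (frobenius (GaloisField p 2) p) hl
    rw [map_mul, map_add, map_neg, map_one, map_ofNat, hfr s, hsp] at h1
    have : 2 * (frobenius (GaloisField p 2) p l - (-1 - l)) = 0 := by
      linear_combination h1 + hl
    have := (mul_eq_zero.mp this).resolve_left h2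
    linear_combination this
  refine one_quotient p hp100 (bar := frobenius (GaloisField p 2) p) ?_ hfr hlq hbl ?_
  · intro x
    rw [hfr, hfr, hpp]
  · rw [hcardF]
    intro hdvd
    have h1 : p ^ 2 % 7 = 2 := by rw [Nat.pow_mod, h7]
    have h3 : 1 ≤ p ^ 2 := Nat.one_le_pow _ _ (by omega)
    omega

theorem infinite_quotients (M : ℕ) : ∃ N : Subgroup Gam, M < N.index ∧
    ∃ (Q : Type) (_ : Group Q), ∃ f : Gam →* Q,
          Function.Surjective f ∧ f.ker = N ∧ Finite Q ∧ IsSimpleGroup Q ∧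
          ∃ (X : Type) (φ : Q →* Equiv.Perm X), Finite X ∧ 3 ≤ Nat.card X ∧
            (∀ a b c d : X, a ≠ b → c ≠ d → ∃ g : Q, φ g a = c ∧ φ g b = d) ∧
            ∃ (x : X) (U : Subgroup Q),
              (∀ u ∈ U, φ u x = x) ∧
              (∀ u ∈ U, ∀ h : Q, φ h x = x → h * u * h⁻¹ ∈ U) ∧
              ∀ y z : X, y ≠ x → z ≠ x → ∃! u : Q, u ∈ U ∧ φ u y = z := by
  obtain ⟨p, hpM, hpp, hmod⟩ := Nat.forall_exists_prime_gt_and_modEq (M + 100) (q := 28) (a := 17)
    (by norm_num) (by norm_num)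
  have : Fact p.Prime := ⟨hpp⟩
  have h28 : p % 28 = 17 := hmod
  obtain ⟨N, hN, h⟩ := exists_quotient p (by omega) (by omega) (by omega)
  exact ⟨N, by omega, h⟩

end primes

end Pool.Agent.H542R3.MU
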