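import Mathlib

set_option autoImplicit false

/-!
Subgroups of the three-dimensional unitary group which contain two opposite transvection groups
and an element in general position contain the whole unipotent radical.
-/

open Matrix

namespace Pool.Agent.H542R3.MU

section basic

variable {F : Type} [Field F] (bar : F →+* F)

/-- the hermitian form -/
def her (v w : Fin 3 → F) : F := v 0 * bar (w 2) + v 1 * bar (w 1) + v 2 * bar (w 0)

/-- transvections -/
def TV (v : Fin 3 → F) (k : F) : Matrix (Fin 3) (Fin 3) F :=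
  1 + k • Matrix.vecMulVec v ![bar (v 2), bar (v 1), bar (v 0)]

theorem TV_mulVec (v w : Fin 3 → F) (k : F) : TV bar v k *ᵥ w = w + (k * her bar w v) • v := by
  rw [TV, Matrix.add_mulVec, Matrix.one_mulVec, Matrix.smul_mulVec, Matrix.vecMulVec_mulVec]
  ext i
  simp [her, dotProduct, Fin.sum_univ_three]
  ring

/-- preservation of the form -/
def Pres (M : Matrix (Fin 3) (Fin 3) F) : Prop :=
  ∀ v w, her bar (M *ᵥ v) (M *ᵥ w) = her bar v w

theorem TV_conj {g : Matrix (Fin 3) (Fin 3) F} (hg : Pres bar g) (v : Fin 3 → F) (k : F) :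
    g * TV bar v k = TV bar (g *ᵥ v) k * g := by
  rw [Matrix.ext_iff_mulVec]
  intro w
  rw [← Matrix.mulVec_mulVec, ← Matrix.mulVec_mulVec, TV_mulVec, TV_mulVec, hg,
    Matrix.mulVec_add, Matrix.mulVec_smul]

/-- upper transvection -/
def tt (c : F) : Matrix (Fin 3) (Fin 3) F := !![1, 0, c; 0, 1, 0; 0, 0, 1]

/-- lower transvection -/
def lt (c : F) : Matrix (Fin 3) (Fin 3) F := !![1, 0, 0; 0, 1, 0; c, 0, 1]

/-- unipotent radical -/
def EE (w c : F) : Matrix (Fin 3) (Fin 3) F := !![1, -bar w, c; 0, 1, w; 0, 0, 1]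

theorem TV_tt (c : F) : TV bar ![1, 0, 0] c = tt c := by
  ext i j
  fin_cases i <;> fin_cases j <;> simp [TV, tt, Matrix.vecMulVec_apply]

theorem TV_lt (c : F) : TV bar ![0, 0, 1] c = lt c := by
  ext i j
  fin_cases i <;> fin_cases j <;> simp [TV, lt, Matrix.vecMulVec_apply]

theorem TV_smul (v : Fin 3 → F) (m k : F) : TV bar (m • v) k = TV bar v (k * (m * bar m)) := by
  rw [Matrix.ext_iff_mulVec]
  intro w
  rw [TV_mulVec, TV_mulVec]
  have : her bar w (m • v) = bar m * her bar w v := by simp [her]; ring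
  rw [this, smul_smul]
  congr 2
  ring

theorem EE_mul (w c w' c' : F) :
    EE bar w c * EE bar w' c' = EE bar (w + w') (c + c' - bar w * w') := by
  ext i j
  fin_cases i <;> fin_cases j <;>
    simp [EE, Matrix.mul_apply, Fin.sum_univ_three] <;> ring

theorem EE_zero : EE bar 0 0 = 1 := by
  ext i j
  fin_cases i <;> fin_cases j <;> simp [EE]

theorem EE_inv {w c : F} (h : c + bar c + w * bar w = 0) :
    EE bar w c * EE bar (-w) (bar c) = 1 := by
  rw [EE_mul, ← EE_zero bar]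
  congr 1
  · ring
  · linear_combination h

theorem EE_inv' (hb : ∀ x, bar (bar x) = x) {w c : F} (h : c + bar c + w * bar w = 0) :
    EE bar (-w) (bar c) * EE bar w c = 1 := by
  rw [EE_mul, ← EE_zero bar]
  congr 1
  · ring
  · rw [map_neg]
    linear_combination h

theorem tt_eq_EE (c : F) : tt c = EE bar 0 c := by
  ext i j
  fin_cases i <;> fin_cases j <;> simp [EE, tt]

theorem EE_pres (hb : ∀ x, bar (bar x) = x) {w c : F} (h : c + bar c + w * bar w = 0) :
    Pres bar (EE bar w c) := by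
  intro v v'
  simp only [her, EE, Matrix.mulVec, dotProduct, Fin.sum_univ_three, Matrix.of_apply,
    Matrix.cons_val', Matrix.cons_val_zero, Matrix.cons_val_one, Matrix.cons_val,
    map_add, map_mul, map_neg, map_one, map_zero, hb]
  linear_combination (v 2 * bar (v' 2)) * h

end basic

section gen

variable {F : Type} [Field F] {bar : F →+* F}

/-- membership of matrices -/
def mem (S : Subgroup (GL (Fin 3) F)) (M : Matrix (Fin 3) (Fin 3) F) : Prop :=
  ∃ g ∈ S, (g : Matrix (Fin 3) (Fin 3) F) = M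

theorem mem_mul {S : Subgroup (GL (Fin 3) F)} {M N : Matrix (Fin 3) (Fin 3) F}
    (hM : mem S M) (hN : mem S N) : mem S (M * N) := by
  obtain ⟨g, hg, rfl⟩ := hM
  obtain ⟨g', hg', rfl⟩ := hN
  exact ⟨g * g', mul_mem hg hg', rfl⟩

theorem mem_inv {S : Subgroup (GL (Fin 3) F)} {M N : Matrix (Fin 3) (Fin 3) F}
    (hM : mem S M) (h : M * N = 1) : mem S N := by
  obtain ⟨g, hg, rfl⟩ := hM
  exact ⟨g⁻¹, inv_mem hg, Units.inv_eq_of_mul_eq_one_right h⟩

variable (bar)

/-- the hypotheses on the subgroup -/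
structure Hyp (S : Subgroup (GL (Fin 3) F)) : Prop where
  two : (2 : F) ≠ 0
  hb : ∀ x, bar (bar x) = x
  ne : ∃ x, bar x ≠ x
  hS : ∀ g ∈ S, Pres bar (g : Matrix (Fin 3) (Fin 3) F)
  hT : ∀ c, bar c = -c → mem S (tt c)
  hL : ∀ c, bar c = -c → mem S (lt c)
  hg : ∃ g ∈ S, (g : Matrix (Fin 3) (Fin 3) F) 1 0 ≠ 0

variable {bar}

namespace Hyp

variable {S : Subgroup (GL (Fin 3) F)}

/-- the Weyl element -/
def wm (c : F) : Matrix (Fin 3) (Fin 3) F := !![0, 0, c; 0, 1, 0; -c⁻¹, 0, 0]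

theorem wm_eq {c : F} (hc : c ≠ 0) : wm c = tt c * lt (-c⁻¹) * tt c := by
  ext i j
  fin_cases i <;> fin_cases j <;>
    simp [wm, tt, lt, Matrix.mul_apply, Fin.sum_univ_three, hc]

/-- minus one on the hyperbolic plane -/
def Dm : Matrix (Fin 3) (Fin 3) F := !![-1, 0, 0; 0, 1, 0; 0, 0, -1]

theorem wm_sq {c : F} (hc : c ≠ 0) : wm c * wm c = Dm := by
  ext i j
  fin_cases i <;> fin_cases j <;>
    simp [wm, Dm, Matrix.mul_apply, Fin.sum_univ_three, hc]

theorem exists_eps (h : Hyp bar S) : ∃ e : F, e ≠ 0 ∧ bar e = -e := by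
  obtain ⟨x, hx⟩ := h.ne
  refine ⟨bar x - x, sub_ne_zero.mpr hx, ?_⟩
  rw [map_sub, h.hb]; ring

theorem skew_inv {c : F} (hc : bar c = -c) : bar (-c⁻¹) = -(-c⁻¹) := by
  rw [map_neg, map_inv₀, hc, inv_neg]

theorem mem_wm (h : Hyp bar S) {c : F} (hc0 : c ≠ 0) (hc : bar c = -c) : mem S (wm c) := by
  rw [wm_eq hc0]
  exact mem_mul (mem_mul (h.hT c hc) (h.hL _ (skew_inv hc))) (h.hT c hc)

theorem conj_mem (h : Hyp bar S) {w₀ c₀ γ : F}
    (hz : ∃ g ∈ S, (g : Matrix (Fin 3) (Fin 3) F) *ᵥ ![1, 0, 0] = γ • ![c₀, w₀, 1])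
    (hγ : γ ≠ 0) (hw : w₀ ≠ 0) (hc : c₀ + bar c₀ + w₀ * bar w₀ = 0) {d : F} (hd : bar d ≠ d) :
    ∃ c : F, c + bar c + (w₀ / d) * bar (w₀ / d) = 0 ∧
      ∀ k, bar k = -k → mem S (EE bar (w₀ / d) c * lt k * EE bar (-(w₀ / d)) (bar c)) := by
  obtain ⟨g, hgS, hg⟩ := hz
  have hd0 : d ≠ 0 := by rintro rfl; exact hd (map_zero bar)
  have hdd : d - bar d ≠ 0 := sub_ne_zero.mpr (Ne.symm hd)
  have hbw : bar w₀ ≠ 0 := (map_ne_zero bar).mpr hw
  have hbd : bar d ≠ 0 := (map_ne_zero bar).mpr hd0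
  have hn : w₀ * bar w₀ ≠ 0 := mul_ne_zero hw hbw
  obtain ⟨s, hs⟩ : ∃ s, s = -(d - bar d) / (w₀ * bar w₀) := ⟨_, rfl⟩
  have hs0 : s ≠ 0 := by
    rw [hs]
    exact div_ne_zero (neg_ne_zero.mpr hdd) hn
  have hbs : bar s = -s := by
    rw [hs, map_div₀, map_mul, h.hb, map_neg, map_sub, h.hb]
    field_simp
    ring
  obtain ⟨c₁, hc1⟩ : ∃ c₁, c₁ = (d - 1) / s := ⟨_, rfl⟩
  have hsc1 : s * c₁ = d - 1 := by rw [hc1]; field_simp
  have htr : c₁ + bar c₁ + w₀ * bar w₀ = 0 := by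
    have e : bar c₁ = -(bar d - 1) / s := by
      rw [hc1, map_div₀, hbs, map_sub, map_one]
      field_simp
    have e2 : w₀ * bar w₀ * s = -(d - bar d) := by
      rw [hs]; field_simp
    have e3 : s * (c₁ + bar c₁ + w₀ * bar w₀) = 0 := by
      rw [e, hc1]
      field_simp
      linear_combination e2
    exact (mul_eq_zero.mp e3).resolve_left hs0
  obtain ⟨k', hk'⟩ : ∃ k', k' = c₁ - c₀ := ⟨_, rfl⟩
  have hbk' : bar k' = -k' := by
    rw [hk', map_sub]
    linear_combination htr - hc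
  -- the element of S moving the base point
  obtain ⟨a, haS, ha⟩ := mem_mul (mem_mul (h.hL s hbs) (h.hT k' hbk')) ⟨g, hgS, rfl⟩
  have hae : (a : Matrix (Fin 3) (Fin 3) F) *ᵥ ![1, 0, 0] = (γ * d) • ![c₁ / d, w₀ / d, 1] := by
    rw [ha, ← Matrix.mulVec_mulVec, hg, ← Matrix.mulVec_mulVec, Matrix.mulVec_smul,
      Matrix.mulVec_smul]
    have e1 : (tt k' : Matrix (Fin 3) (Fin 3) F) *ᵥ ![c₀, w₀, 1] = ![c₁, w₀, 1] := by
      ext i
      fin_cases i <;> simp [tt, Matrix.mulVec, dotProduct, Fin.sum_univ_three, hk']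
    have e2 : (lt s : Matrix (Fin 3) (Fin 3) F) *ᵥ ![c₁, w₀, 1] = ![c₁, w₀, d] := by
      ext i
      fin_cases i <;> simp [lt, Matrix.mulVec, dotProduct, Fin.sum_univ_three, hsc1]
    rw [e1, e2, mul_smul]
    congr 1
    ext i
    fin_cases i
    · simp; field_simp
    · simp; field_simp
    · simp
  have hc : c₁ / d + bar (c₁ / d) + (w₀ / d) * bar (w₀ / d) = 0 := by
    rw [map_div₀, map_div₀]
    have e3 : bar c₁ = -(w₀ * bar w₀) - c₁ := by linear_combination htr
    have e4 : s * w₀ * bar w₀ = -(d - bar d) := by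
      rw [hs]; field_simp
    field_simp
    rw [e3]
    have e5 : s * (c₁ * bar d + d * (-(w₀ * bar w₀) - c₁) + w₀ * bar w₀) = 0 := by
      linear_combination (bar d - d) * hsc1 + (1 - d) * e4
    have e6 := (mul_eq_zero.mp e5).resolve_left hs0
    linear_combination e6
  refine ⟨c₁ / d, hc, ?_⟩
  intro k hk
  set E := EE bar (w₀ / d) (c₁ / d) with hE
  set Ei := EE bar (-(w₀ / d)) (bar (c₁ / d)) with hEi
  have hEE : E * Ei = 1 := EE_inv bar hc
  have hEE' : Ei * E = 1 := EE_inv' bar h.hb hc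
  have hpE : Pres bar E := EE_pres bar h.hb hc
  have haP : Pres bar (a : Matrix (Fin 3) (Fin 3) F) := h.hS a haS
  have hEe : E *ᵥ ![0, 0, 1] = ![c₁ / d, w₀ / d, 1] := by
    ext i
    fin_cases i <;> simp [hE, EE, Matrix.mulVec, dotProduct, Fin.sum_univ_three]
  set m : F := γ * d with hm
  have hm0 : m ≠ 0 := mul_ne_zero hγ hd0
  have hbm : bar m ≠ 0 := (map_ne_zero bar).mpr hm0
  set k₂ : F := k / (m * bar m) with hk2
  have hbk2 : bar k₂ = -k₂ := by
    rw [hk2, map_div₀, map_mul, h.hb, hk]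
    field_simp
  have c1 := TV_conj bar haP ![1, 0, 0] k₂
  rw [TV_tt, hae, TV_smul] at c1
  have c2 := TV_conj bar hpE ![0, 0, 1] k
  rw [TV_lt, hEe] at c2
  have c3 : k₂ * (m * bar m) = k := by rw [hk2]; field_simp
  rw [c3] at c1
  -- conclude
  obtain ⟨b, hbS, hb⟩ := h.hT k₂ hbk2
  refine ⟨a * b * a⁻¹, mul_mem (mul_mem haS hbS) (inv_mem haS), ?_⟩
  have e1 : E * lt k * Ei = TV bar ![c₁ / d, w₀ / d, 1] k := by
    rw [c2, mul_assoc, hEE, mul_one]
  rw [e1, Units.val_mul, Units.val_mul, hb, c1, mul_assoc, Units.mul_inv, mul_one]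

theorem EE_comm_tt (w c k : F) : EE bar w c * tt k = tt k * EE bar w c := by
  rw [tt_eq_EE bar, EE_mul, EE_mul]
  congr 1
  · ring
  · simp; ring

/-- the unipotent radical contains elements with prescribed first component -/
theorem mem_two (h : Hyp bar S) {w₀ c₀ γ : F}
    (hz : ∃ g ∈ S, (g : Matrix (Fin 3) (Fin 3) F) *ᵥ ![1, 0, 0] = γ • ![c₀, w₀, 1])
    (hγ : γ ≠ 0) (hw : w₀ ≠ 0) (hc : c₀ + bar c₀ + w₀ * bar w₀ = 0) {d : F} (hd : bar d ≠ d) :
    ∃ c, c + bar c + (2 * (w₀ / d)) * bar (2 * (w₀ / d)) = 0 ∧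
      mem S (EE bar (2 * (w₀ / d)) c) := by
  obtain ⟨c, hcc, hmem⟩ := h.conj_mem hz hγ hw hc hd
  obtain ⟨e, he0, he⟩ := h.exists_eps
  set w := w₀ / d with hwd
  set E := EE bar w c with hE
  set Ei := EE bar (-w) (bar c) with hEi
  have hEE : E * Ei = 1 := EE_inv bar hcc
  have hEE' : Ei * E = 1 := EE_inv' bar h.hb hcc
  have ht : E * tt e * Ei = tt e := by
    rw [hE, EE_comm_tt, mul_assoc, ← hE, hEE, mul_one]
  have hwm : mem S (E * wm e * Ei) := by
    have : E * wm e * Ei = (E * tt e * Ei) * (E * lt (-e⁻¹) * Ei) * (E * tt e * Ei) := by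
      rw [wm_eq he0]
      have : (E * tt e * Ei) * (E * lt (-e⁻¹) * Ei) * (E * tt e * Ei) =
        E * tt e * (Ei * E) * lt (-e⁻¹) * (Ei * E) * tt e * Ei := by
        simp only [mul_assoc]
      rw [this, hEE', mul_one, mul_one]
      simp only [mul_assoc]
    rw [this, ht]
    exact mem_mul (mem_mul (h.hT e he) (hmem _ (skew_inv he))) (h.hT e he)
  have hDm : mem S (E * Dm * Ei) := by
    have : E * Dm * Ei = (E * wm e * Ei) * (E * wm e * Ei) := by
      have : (E * wm e * Ei) * (E * wm e * Ei) = E * wm e * (Ei * E) * wm e * Ei := by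
        simp only [mul_assoc]
      rw [this, hEE', mul_one, ← wm_sq he0]
      simp only [mul_assoc]
    rw [this]
    exact mem_mul hwm hwm
  have hDm' : mem S (Dm : Matrix (Fin 3) (Fin 3) F) := by
    rw [← wm_sq he0]
    exact mem_mul (h.mem_wm he0 he) (h.mem_wm he0 he)
  have hfin := mem_mul hDm hDm'
  have e1 : E * Dm * Ei * Dm = EE bar (2 * w) (-(2 * (w * bar w))) := by
    ext i j
    fin_cases i <;> fin_cases j <;>
      simp [hE, hEi, EE, Dm, Matrix.mul_apply, Fin.sum_univ_three, map_ofNat] <;>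
      first | ring1 | linear_combination hcc | skip
  rw [e1] at hfin
  refine ⟨_, ?_, hfin⟩
  simp only [map_neg, map_mul, map_ofNat, h.hb]
  ring

theorem shift (h : Hyp bar S) {w c c' : F} (hc : c + bar c + w * bar w = 0)
    (hc' : c' + bar c' + w * bar w = 0) (hm : mem S (EE bar w c)) : mem S (EE bar w c') := by
  have e : EE bar w c' = EE bar w c * tt (c' - c) := by
    rw [tt_eq_EE bar, EE_mul]
    congr 1
    · ring
    · ring
  rw [e]
  refine mem_mul hm (h.hT _ ?_)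
  rw [map_sub]
  linear_combination hc' - hc

/-- the whole unipotent radical lies in the subgroup -/
theorem mem_EE (h : Hyp bar S) {w c : F} (hc : c + bar c + w * bar w = 0) :
    mem S (EE bar w c) := by
  obtain ⟨g, hgS, hg⟩ := h.hg
  set z : Fin 3 → F := (g : Matrix (Fin 3) (Fin 3) F) *ᵥ ![1, 0, 0] with hz
  have hzi : ∀ i, z i = (g : Matrix (Fin 3) (Fin 3) F) i 0 := by
    intro i
    simp [hz, Matrix.mulVec, dotProduct, Fin.sum_univ_three]
  have hz1 : z 1 ≠ 0 := by rw [hzi]; exact hg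
  have hiso : her bar z z = 0 := by
    rw [hz, h.hS g hgS]
    simp [her]
  have hz2 : z 2 ≠ 0 := by
    intro h0
    simp only [her, h0, map_zero, mul_zero, zero_mul, zero_add, add_zero] at hiso
    rcases mul_eq_zero.mp hiso with h1 | h1
    · exact hz1 h1
    · exact hz1 ((map_eq_zero bar).mp h1)
  have hbz2 : bar (z 2) ≠ 0 := (map_ne_zero bar).mpr hz2
  have hzz : (g : Matrix (Fin 3) (Fin 3) F) *ᵥ ![1, 0, 0] = z 2 • ![z 0 / z 2, z 1 / z 2, 1] := by
    rw [← hz]
    ext i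
    fin_cases i
    · simp; field_simp
    · simp; field_simp
    · simp
  have hw0 : z 1 / z 2 ≠ 0 := div_ne_zero hz1 hz2
  have hc0 : z 0 / z 2 + bar (z 0 / z 2) + (z 1 / z 2) * bar (z 1 / z 2) = 0 := by
    rw [map_div₀, map_div₀]
    simp only [her] at hiso
    field_simp
    linear_combination hiso
  -- additive subgroup of first components
  have hadd : ∀ w w' : F, (∃ c, c + bar c + w * bar w = 0 ∧ mem S (EE bar w c)) →
      (∃ c, c + bar c + w' * bar w' = 0 ∧ mem S (EE bar w' c)) →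
      (∃ c, c + bar c + (w + w') * bar (w + w') = 0 ∧ mem S (EE bar (w + w') c)) := by
    rintro w w' ⟨c, hc, hm⟩ ⟨c', hc', hm'⟩
    refine ⟨c + c' - bar w * w', ?_, ?_⟩
    · simp only [map_sub, map_add, map_mul, h.hb]
      linear_combination hc + hc'
    · rw [← EE_mul]
      exact mem_mul hm hm'
  set w₀ := z 1 / z 2 with hw0d
  have key : ∀ m : F, bar m ≠ m →
      (∃ c, c + bar c + (2 * w₀ * m) * bar (2 * w₀ * m) = 0 ∧ mem S (EE bar (2 * w₀ * m) c)) := by
    intro m hm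
    have hm0 : m ≠ 0 := by rintro rfl; exact hm (map_zero bar)
    have hd : bar (m⁻¹) ≠ m⁻¹ := by
      rw [map_inv₀]
      intro hcon
      exact hm (inv_injective hcon)
    have := h.mem_two ⟨g, hgS, hzz⟩ hz2 hw0 hc0 hd
    have e : 2 * (w₀ / m⁻¹) = 2 * w₀ * m := by
      rw [div_inv_eq_mul]; ring
    rw [e] at this
    exact this
  have hall : ∃ c, c + bar c + w * bar w = 0 ∧ mem S (EE bar w c) := by
    have h2w : 2 * w₀ ≠ 0 := mul_ne_zero h.two hw0
    have h22 := h.two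
    by_cases hm : bar (w / (2 * w₀)) = w / (2 * w₀)
    · obtain ⟨x, hx⟩ := h.ne
      have h1 := key (w / (2 * w₀) + x) (by
        rw [map_add, hm]
        intro hcon
        exact hx (add_left_cancel hcon))
      have h2 := key (-x) (by
        rw [map_neg]
        intro hcon
        exact hx (neg_injective hcon))
      have := hadd _ _ h1 h2
      have e : 2 * w₀ * (w / (2 * w₀) + x) + 2 * w₀ * (-x) = w := by
        field_simp
        ring
      rw [e] at this
      exact this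
    · have := key _ hm
      have e : 2 * w₀ * (w / (2 * w₀)) = w := by
        field_simp
      rw [e] at this
      exact this
  obtain ⟨c', hc', hm'⟩ := hall
  exact h.shift hc' hc hm'

end Hyp

end gen

end Pool.Agent.H542R3.MU
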