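import Pool.Agent.H542R3.MUZ

set_option autoImplicit false

/-!
The hypotheses `Hyp` hold for the image of the group after a base change.
-/

open Matrix

namespace Pool.Agent.H542R3.MU

section form2

variable {F : Type} [Field F] {bar : F →+* F} {H : Matrix (Fin 3) (Fin 3) F}

theorem hh_add_left (x y w : Fin 3 → F) :
    hh bar H (x + y) w = hh bar H x w + hh bar H y w := by
  simp only [hh_eq, Pi.add_apply]; ring

theorem her_add_left (x y w : Fin 3 → F) :
    her bar (x + y) w = her bar x w + her bar y w := by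
  simp only [her, Pi.add_apply]; ring

theorem her_add_right (x y w : Fin 3 → F) :
    her bar w (x + y) = her bar w x + her bar w y := by
  simp only [her, Pi.add_apply, map_add]; ring

/-- a unipotent element of the standard unitary group moving the first vector suitably -/
theorem tt_of {Q : GL (Fin 3) F} (hQ : Pres bar Q.val)
    (hNN : (Q.val - 1) * (Q.val - 1) = 0) (hv : ∃ v, (Q.val - 1) *ᵥ v = ev 0) :
    ∃ c, c ≠ 0 ∧ bar c = -c ∧ Q.val = tt c := by
  obtain ⟨N, hN⟩ : ∃ N, N = Q.val - 1 := ⟨_, rfl⟩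
  rw [← hN] at hNN hv
  obtain ⟨v₀, hv₀⟩ := hv
  have hQN : ∀ v, Q.val *ᵥ v = v + N *ᵥ v := by
    intro v
    have : Q.val = 1 + N := by rw [hN]; abel
    rw [this, Matrix.add_mulVec, Matrix.one_mulVec]
  have hNNv : ∀ v, N *ᵥ (N *ᵥ v) = 0 := by
    intro v
    rw [Matrix.mulVec_mulVec, hNN, Matrix.zero_mulVec]
  have z1 : ∀ v w, her bar (N *ᵥ v) (N *ᵥ w) = 0 := by
    intro v w
    have h1 := hQ v (N *ᵥ w)
    rw [hQN, hQN, hNNv, add_zero, her_add_left] at h1
    linear_combination h1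
  have z2 : ∀ v w, her bar (N *ᵥ v) w + her bar v (N *ᵥ w) = 0 := by
    intro v w
    have h1 := hQ v w
    rw [hQN, hQN, her_add_left, her_add_right, her_add_right, z1] at h1
    linear_combination h1
  have r2 : ∀ v, (N *ᵥ v) 2 = 0 := by
    intro v
    have := z1 v v₀
    rw [hv₀, her_ev_right] at this
    exact this
  have r1 : ∀ v, (N *ᵥ v) 1 = 0 := by
    intro v
    have := z1 v v
    rw [her, r2, map_zero, mul_zero, zero_mul, zero_add, add_zero] at this
    rcases mul_eq_zero.mp this with h | h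
    · exact h
    · exact (map_eq_zero bar).mp h
  have n2 : ∀ k, N 2 k = 0 := fun k => by rw [← mulVec_ev N 2 k]; exact r2 _
  have n1 : ∀ k, N 1 k = 0 := fun k => by rw [← mulVec_ev N 1 k]; exact r1 _
  have n00 : N 0 0 = 0 := by
    have := z2 (ev 0) (ev 2)
    rw [her_ev_right, her_ev_left, mulVec_ev, mulVec_ev, show (Fin.rev (2 : Fin 3)) = 0 from rfl,
      show (Fin.rev (0 : Fin 3)) = 2 from rfl, n2, map_zero, add_zero] at this
    exact this
  have n01 : N 0 1 = 0 := by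
    have := z2 (ev 1) (ev 2)
    rw [her_ev_right, her_ev_left, mulVec_ev, mulVec_ev, show (Fin.rev (2 : Fin 3)) = 0 from rfl,
      show (Fin.rev (1 : Fin 3)) = 1 from rfl, n1, map_zero, add_zero] at this
    exact this
  have n02 : N 0 2 + bar (N 0 2) = 0 := by
    have := z2 (ev 2) (ev 2)
    rw [her_ev_right, her_ev_left, mulVec_ev,
      show (Fin.rev (2 : Fin 3)) = 0 from rfl] at this
    exact this
  refine ⟨N 0 2, ?_, by linear_combination n02, ?_⟩
  · intro h0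
    have hz : N = 0 := by
      ext i j
      fin_cases i
      · fin_cases j
        · exact n00
        · exact n01
        · exact h0
      · exact n1 j
      · exact n2 j
    rw [hz, Matrix.zero_mulVec] at hv₀
    have := congrFun hv₀ 0
    simp [ev] at this
  · have : Q.val = 1 + N := by rw [hN]; abel
    rw [this]
    ext i j
    fin_cases i <;> fin_cases j <;> simp [tt, n1, n2, n00, n01]

end form2

section main

variable {F : Type} [Field F] [Finite F]

theorem exists_hyp (p : ℕ) [hp : Fact p.Prime] [CharP F p] (hp100 : 100 < p) {bar : F →+* F}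
    (hb : ∀ x, bar (bar x) = x) (hbp : ∀ x, bar x = x ^ p) {l : F} (hl : l * l + l + 2 = 0)
    (hbl : bar l = -1 - l) (hcard : ¬ 7 ∣ Nat.card F - 1) (Γ : Subgroup (GL (Fin 3) F))
    (hΓ : ∀ g ∈ Γ, PM bar (mH l) g.val) (ga gb gc : GL (Fin 3) F) (ha : ga ∈ Γ) (hgb : gb ∈ Γ)
    (hc : gc ∈ Γ) (hga : ga.val = mA l) (hgbv : gb.val = mB l) (hgc : gc.val = mC l) :
    ∃ P : GL (Fin 3) F, Hyp bar (Γ.map (MulAut.conj P⁻¹).toMonoidHom) := by
  have hcast : ∀ n : ℕ, 0 < n → n < p → (n : F) ≠ 0 := by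
    intro n hn hnp h
    rw [CharP.cast_eq_zero_iff F p] at h
    exact absurd (Nat.le_of_dvd hn h) (by omega)
  have h2 : (2 : F) ≠ 0 := by exact_mod_cast hcast 2 (by norm_num) (by omega)
  have h7 : (7 : F) ≠ 0 := by exact_mod_cast hcast 7 (by norm_num) (by omega)
  obtain ⟨g, hgΓ, hN0, hNN⟩ := exists_unip p hp100 hl Γ hΓ ga gb gc ha hgb hc hga hgbv hgc
  obtain ⟨N, hN⟩ : ∃ N, N = g.val - 1 := ⟨_, rfl⟩
  rw [← hN] at hN0 hNN
  obtain ⟨j, hj⟩ : ∃ j, N *ᵥ ev j ≠ 0 := by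
    by_contra hcon
    push Not at hcon
    apply hN0
    ext i j
    rw [← mulVec_ev N i j, hcon j]; rfl
  obtain ⟨x, hx⟩ : ∃ x, x = N *ᵥ ev j := ⟨_, rfl⟩
  rw [← hx] at hj
  have hQN : ∀ v, g.val *ᵥ v = v + N *ᵥ v := by
    intro v
    have : g.val = 1 + N := by rw [hN]; abel
    rw [this, Matrix.add_mulVec, Matrix.one_mulVec]
  have hNNv : ∀ v, N *ᵥ (N *ᵥ v) = 0 := by
    intro v
    rw [Matrix.mulVec_mulVec, hNN, Matrix.zero_mulVec]
  have hxx : hh bar (mH l) x x = 0 := by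
    have h1 := hh_PM bar (mH l) (hΓ g hgΓ) (ev j) (N *ᵥ ev j)
    rw [hQN, hQN, hNNv, add_zero, hh_add_left, ← hx] at h1
    linear_combination h1
  have hTv : (ga * gb).val = mT l := by rw [Units.val_mul, hga, hgbv, mT_eq]
  have hTΓ : ga * gb ∈ Γ := mul_mem ha hgb
  have hTP : PM bar (mH l) (mT l) := by rw [← hTv]; exact hΓ _ hTΓ
  obtain ⟨y, hy⟩ : ∃ y, y = mT l *ᵥ x := ⟨_, rfl⟩
  obtain ⟨z, hz⟩ : ∃ z, z = mT l *ᵥ y := ⟨_, rfl⟩
  have hyy : hh bar (mH l) y y = 0 := by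
    rw [hy, hh_PM bar (mH l) hTP, hxx]
  have hind : (Matrix.of ![x, y, z]).det ≠ 0 := by
    rw [hz, hy]
    exact indep hl h7 hcard x hj
  have hHH : ∀ i j, bar (mH l i j) = mH l j i := by
    intro i j
    have h3 : bar 3 = 3 := map_ofNat bar 3
    fin_cases i <;> fin_cases j <;> simp [mH, hbl, h3]
  have hdet : (mH l).det ≠ 0 := by rw [det_mH hl]; exact h7
  obtain ⟨P, n, s, a, b, hn, hs, hP0, hP2, hPJ, hPz⟩ :=
    base bar (mH l) hb hHH hdet x y z hind hxx hyy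
  have hbs : bar s ≠ 0 := (map_ne_zero bar).mpr hs
  have hPi : ∀ v, (P⁻¹).val *ᵥ (P.val *ᵥ v) = v := by
    intro v
    rw [Matrix.mulVec_mulVec, Units.inv_mul, Matrix.one_mulVec]
  have hmapmem : ∀ g ∈ Γ, P⁻¹ * g * P ∈ Γ.map (MulAut.conj P⁻¹).toMonoidHom := by
    intro g hg
    exact ⟨g, hg, by simp [MulAut.conj_apply]⟩
  have hS : ∀ q ∈ Γ.map (MulAut.conj P⁻¹).toMonoidHom, Pres bar q.val := by
    rintro _ ⟨g, hg, rfl⟩
    have := PM_conj bar (mH l) hn hPJ (hΓ g hg)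
    have e : (MulAut.conj P⁻¹).toMonoidHom g = P⁻¹ * g * P := by simp [MulAut.conj_apply]
    rw [e]
    exact this
  -- the transvection
  obtain ⟨Q, hQ⟩ : ∃ Q, Q = P⁻¹ * g * P := ⟨_, rfl⟩
  have hQm : Q ∈ Γ.map (MulAut.conj P⁻¹).toMonoidHom := by rw [hQ]; exact hmapmem g hgΓ
  have hQN' : Q.val - 1 = (P⁻¹).val * N * P.val := by
    rw [hQ, hN, Matrix.mul_sub, Matrix.sub_mul, Matrix.mul_one, Units.inv_mul, Units.val_mul,
      Units.val_mul]
  have hQNN : (Q.val - 1) * (Q.val - 1) = 0 := by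
    rw [hQN']
    have : (P⁻¹).val * N * P.val * ((P⁻¹).val * N * P.val) =
        (P⁻¹).val * N * (P.val * (P⁻¹).val) * N * P.val := by
      simp only [Matrix.mul_assoc]
    rw [this, Units.mul_inv, Matrix.mul_one, Matrix.mul_assoc (P⁻¹).val, hNN]
    simp
  have hQv : ∃ v, (Q.val - 1) *ᵥ v = ev 0 := by
    refine ⟨(P⁻¹).val *ᵥ ev j, ?_⟩
    have e : (P⁻¹).val * N * P.val * (P⁻¹).val = (P⁻¹).val * N := by
      rw [Matrix.mul_assoc, Units.mul_inv, Matrix.mul_one]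
    rw [hQN', Matrix.mulVec_mulVec, e, ← Matrix.mulVec_mulVec, ← hx, ← hP0, hPi]
  obtain ⟨c, hc0, hbc, hQc⟩ := tt_of (hS Q hQm) hQNN hQv
  have hT : ∀ c', bar c' = -c' → mem (Γ.map (MulAut.conj P⁻¹).toMonoidHom) (tt c') := by
    intro c' hc'
    have h1 : (c' / c) ^ p = c' / c := by
      rw [← hbp, map_div₀, hc', hbc, neg_div_neg_eq]
    rw [← Subfield.mem_bot_iff_pow_eq_self F p, mem_bot_iff_intCast p] at h1
    obtain ⟨k, hk⟩ := h1
    obtain ⟨m, hm⟩ : ∃ m : ℕ, (m : F) = c' / c := by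
      refine ⟨(k % p).toNat, ?_⟩
      have hpz : (0 : ℤ) < p := by exact_mod_cast hp.out.pos
      have h3 : (((k % p).toNat : ℤ)) = k % p := Int.toNat_of_nonneg (Int.emod_nonneg _ hpz.ne')
      have h4 : (((k % p).toNat : ℕ) : F) = ((((k % p).toNat : ℤ)) : F) := by norm_cast
      rw [h4, h3, ← CharP.intCast_eq_intCast_mod F p, hk]
    have hpow : ∀ n : ℕ, (tt c : Matrix (Fin 3) (Fin 3) F) ^ n = tt (n * c) := by
      intro n
      induction n with
      | zero =>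
        rw [pow_zero, Nat.cast_zero, zero_mul]
        ext i j
        fin_cases i <;> fin_cases j <;> simp [tt]
      | succ n ih =>
        rw [pow_succ, ih]
        ext i j
        fin_cases i <;> fin_cases j <;> simp [tt, Matrix.mul_apply, Fin.sum_univ_three]
        ring
    refine ⟨Q ^ m, pow_mem hQm m, ?_⟩
    rw [Units.val_pow_eq_pow_val, hQc, hpow, hm, div_mul_cancel₀ _ hc0]
  -- the opposite transvections
  obtain ⟨t, ht⟩ : ∃ t, t = P⁻¹ * (ga * gb) * P := ⟨_, rfl⟩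
  have htm : t ∈ Γ.map (MulAut.conj P⁻¹).toMonoidHom := by rw [ht]; exact hmapmem _ hTΓ
  have hte : ∀ v, t.val *ᵥ v = (P⁻¹).val *ᵥ (mT l *ᵥ (P.val *ᵥ v)) := by
    intro v
    rw [ht, Units.val_mul, Units.val_mul, hTv, Matrix.mulVec_mulVec, Matrix.mulVec_mulVec,
      Matrix.mul_assoc]
  have ht0 : t.val *ᵥ ev 0 = s⁻¹ • ev 2 := by
    rw [hte, hP0, ← hy]
    have : y = s⁻¹ • (P.val *ᵥ ev 2) := by rw [hP2, smul_smul, inv_mul_cancel₀ hs, one_smul]
    rw [this, Matrix.mulVec_smul, hPi]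
  have hev0 : (ev 0 : Fin 3 → F) = ![1, 0, 0] := by
    ext i; fin_cases i <;> simp [ev]
  have hev2 : (ev 2 : Fin 3 → F) = ![0, 0, 1] := by
    ext i; fin_cases i <;> simp [ev]
  refine ⟨P, ⟨h2, hb, ⟨l, ?_⟩, hS, hT, ?_, ?_⟩⟩
  · rw [hbl]
    intro hcon
    apply h7
    have h3 : 2 * l + 1 = 0 := by linear_combination -hcon
    linear_combination -(2 * l + 1) * h3 + 4 * hl
  · intro c' hc'
    have hk : bar (c' * (s * bar s)) = -(c' * (s * bar s)) := by
      rw [map_mul, map_mul, hb, hc']; ring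
    obtain ⟨q, hq, hqv⟩ := hT _ hk
    refine ⟨t * q * t⁻¹, mul_mem (mul_mem htm hq) (inv_mem htm), ?_⟩
    have h1 := TV_conj bar (hS t htm) ![1, 0, 0] (c' * (s * bar s))
    rw [TV_tt, ← hev0, ht0, hev2, TV_smul, TV_lt] at h1
    have h3 : c' * (s * bar s) * (s⁻¹ * bar s⁻¹) = c' := by
      rw [map_inv₀]; field_simp
    rw [h3] at h1
    rw [Units.val_mul, Units.val_mul, hqv, h1, Matrix.mul_assoc, Units.mul_inv, Matrix.mul_one]
  · refine ⟨t * t, mul_mem htm htm, ?_⟩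
    rw [← mulVec_ev (t * t).val 1 0, Units.val_mul, ← Matrix.mulVec_mulVec, hte, hte,
      hP0, ← hy]
    have h1 : P.val *ᵥ ((P⁻¹).val *ᵥ y) = y := by
      rw [Matrix.mulVec_mulVec, Units.mul_inv, Matrix.one_mulVec]
    rw [h1, ← hz, ← hPz, hPi]
    simp

end main

end Pool.Agent.H542R3.MU
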