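import Pool.Agent.H542R3.MUG

set_option autoImplicit false

/-!
The explicit matrices.
-/

open Matrix

namespace Pool.Agent.H542R3.MU

section mats

variable {F : Type} [Field F]

/-- first generator -/
def mA (l : F) : Matrix (Fin 3) (Fin 3) F := !![1, 0, l; 0, 0, -1; 0, 1, -1]

/-- second generator -/
def mB (l : F) : Matrix (Fin 3) (Fin 3) F := !![-1, 0, 1; -1 - l, 1, 0; -1, 0, 0]

/-- third generator -/
def mC (l : F) : Matrix (Fin 3) (Fin 3) F :=
  !![0, 1 + l * 2⁻¹, 0; (l - 1) * 2⁻¹, -1, 0; 0, l, 1]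

variable {l : F} (hl : l * l + l + 2 = 0) (h2 : (2 : F) ≠ 0)
include hl h2

theorem mA3 : mA l * mA l * mA l = 1 := by
  have h := mul_inv_cancel₀ h2
  ext i j
  fin_cases i <;> fin_cases j <;> simp [mA, Matrix.mul_apply, Fin.sum_univ_three] <;> grind

theorem mB3 : mB l * mB l * mB l = 1 := by
  have h := mul_inv_cancel₀ h2
  ext i j
  fin_cases i <;> fin_cases j <;> simp [mB, Matrix.mul_apply, Fin.sum_univ_three] <;> grind

theorem mC3 : mC l * mC l * mC l = 1 := by
  have h := mul_inv_cancel₀ h2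
  generalize (2 : F)⁻¹ = t at *
  ext i j
  fin_cases i <;> fin_cases j <;> simp [mC, Matrix.mul_apply, Fin.sum_univ_three] <;> grind

theorem mAB : (mA l * mB l) * (mA l * mB l) = mB l * mA l := by
  have h := mul_inv_cancel₀ h2
  ext i j
  fin_cases i <;> fin_cases j <;> simp [mA, mB, Matrix.mul_apply, Fin.sum_univ_three] <;> grind

theorem mBC : (mB l * mC l) * (mB l * mC l) = mC l * mB l := by
  have h := mul_inv_cancel₀ h2
  ext i j
  fin_cases i <;> fin_cases j <;> simp [mB, mC, Matrix.mul_apply, Fin.sum_univ_three] <;> grind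

theorem mCA : (mC l * mA l) * (mC l * mA l) = mA l * mC l := by
  have h := mul_inv_cancel₀ h2
  ext i j
  fin_cases i <;> fin_cases j <;> simp [mC, mA, Matrix.mul_apply, Fin.sum_univ_three] <;> grind

end mats

section form

variable {F : Type} [Field F] (bar : F →+* F)

/-- the hermitian matrix -/
def mH (l : F) : Matrix (Fin 3) (Fin 3) F :=
  !![3, -1 - l, -1 - l; l, 3, l; l, -1 - l, 3]

/-- preservation of a sesquilinear form given by a matrix -/
def PM (H M : Matrix (Fin 3) (Fin 3) F) : Prop := Mᵀ * H * M.map bar = H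

variable {bar}

theorem map_bar_mul (M N : Matrix (Fin 3) (Fin 3) F) :
    (M * N).map bar = M.map bar * N.map bar := Matrix.map_mul

theorem PM_mul {H M N : Matrix (Fin 3) (Fin 3) F} (hM : PM bar H M) (hN : PM bar H N) :
    PM bar H (M * N) := by
  unfold PM at *
  rw [map_bar_mul, Matrix.transpose_mul]
  calc Nᵀ * Mᵀ * H * (M.map bar * N.map bar) = Nᵀ * (Mᵀ * H * M.map bar) * N.map bar := by
        simp only [Matrix.mul_assoc]
    _ = H := by rw [hM, hN]

theorem PM_one {H : Matrix (Fin 3) (Fin 3) F} : PM bar H 1 := by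
  unfold PM
  rw [Matrix.transpose_one, Matrix.one_mul, Matrix.map_one bar (map_zero bar) (map_one bar),
    Matrix.mul_one]

theorem PM_inv {H M N : Matrix (Fin 3) (Fin 3) F} (hM : PM bar H M) (h : M * N = 1) :
    PM bar H N := by
  unfold PM at *
  have h1 : M.map bar * N.map bar = 1 := by
    rw [← map_bar_mul, h, Matrix.map_one bar (map_zero bar) (map_one bar)]
  have h2 : Nᵀ * Mᵀ = 1 := by rw [← Matrix.transpose_mul, h, Matrix.transpose_one]
  conv_lhs => rw [← hM]
  calc Nᵀ * (Mᵀ * H * M.map bar) * N.map bar = (Nᵀ * Mᵀ) * H * (M.map bar * N.map bar) := by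
        simp only [Matrix.mul_assoc]
    _ = H := by rw [h1, h2, Matrix.one_mul, Matrix.mul_one]

variable {l : F} (hl : l * l + l + 2 = 0) (h2 : (2 : F) ≠ 0) (hbl : bar l = -1 - l)
include hl h2 hbl

theorem mA_PM : PM bar (mH l) (mA l) := by
  unfold PM
  ext i j
  fin_cases i <;> fin_cases j <;>
    simp [mA, mH, Matrix.mul_apply, Fin.sum_univ_three, Matrix.map_apply, hbl] <;> grind

theorem mB_PM : PM bar (mH l) (mB l) := by
  unfold PM
  ext i j
  fin_cases i <;> fin_cases j <;>
    simp [mB, mH, Matrix.mul_apply, Fin.sum_univ_three, Matrix.map_apply, hbl] <;> grind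

theorem mC_PM : PM bar (mH l) (mC l) := by
  unfold PM
  have h := mul_inv_cancel₀ h2
  have hb2 : bar 2 = 2 := map_ofNat bar 2
  ext i j
  fin_cases i <;> fin_cases j <;>
    simp [mC, mH, Matrix.mul_apply, Fin.sum_univ_three, Matrix.map_apply, hbl, hb2] <;> grind

omit hbl in
/-- the square of the product of the three generators -/
theorem mR_eq : (mA l * mB l * mC l) * (mA l * mB l * mC l) =
    !![(l - 1) * 2⁻¹, -l * 2⁻¹, 0; 0, (3 * l + 2) * 4⁻¹, 0; 0, (2 - l) * 4⁻¹, (l - 1) * 2⁻¹] := by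
  have h := mul_inv_cancel₀ h2
  have h4 : (4 : F) = 2 * 2 := by norm_num
  have h4' : (4 : F)⁻¹ = 2⁻¹ * 2⁻¹ := by rw [h4, mul_inv]
  rw [h4']
  ext i j
  fin_cases i <;> fin_cases j <;>
    simp [mA, mB, mC, Matrix.mul_apply, Fin.sum_univ_three] <;> grind

omit hbl h2 in
theorem det_mH : (mH l).det = 7 := by
  rw [Matrix.det_fin_three]
  simp [mH]
  grind

end form

end Pool.Agent.H542R3.MU
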