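import Mathlib

set_option autoImplicit false

/-!
Counting poles of a finite group in which every non-trivial element has exactly two fixed points.
-/

open MulAction

namespace Pool.Agent.H542R3.MU

section poles

variable {G X : Type} [Group G] [MulAction G X]

/-- the set of poles -/
def poles (G X : Type) [Group G] [MulAction G X] : SubMulAction G X where
  carrier := {y | ∃ g : G, g ≠ 1 ∧ g • y = y}
  smul_mem' := by
    rintro h y ⟨g, hg, hy⟩
    refine ⟨h * g * h⁻¹, ?_, ?_⟩
    · intro hcon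
      apply hg
      have : g = h⁻¹ * (h * g * h⁻¹) * h := by group
      rw [this, hcon]; group
    · rw [← mul_smul]
      have : h * g * h⁻¹ * h = h * g := by group
      rw [this, mul_smul, hy]

theorem poles_finite [Finite G] (hfix : ∀ g : G, g ≠ 1 → (fixedBy X g).ncard = 2) :
    Finite (poles G X) := by
  have : (⋃ g ∈ {g : G | g ≠ 1}, fixedBy X g).Finite := by
    refine Set.Finite.biUnion (Set.toFinite _) fun g hg => ?_
    exact Set.finite_of_ncard_ne_zero (by rw [hfix g hg]; norm_num)
  refine Set.Finite.subset this ?_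
  rintro y ⟨g, hg, hy⟩
  simp only [Set.mem_iUnion]
  exact ⟨g, hg, hy⟩

theorem card_fixed_poles (hfix : ∀ g : G, g ≠ 1 → (fixedBy X g).ncard = 2) (g : G) (hg : g ≠ 1) :
    Nat.card (fixedBy (poles G X) g) = 2 := by
  rw [← hfix g hg, ← Nat.card_coe_set_eq]
  refine Nat.card_congr ⟨fun y => ⟨(y : poles G X), congrArg Subtype.val y.2⟩,
    fun y => ⟨⟨y, ⟨g, hg, y.2⟩⟩, Subtype.ext y.2⟩, fun y => rfl, fun y => rfl⟩

/-- the counting argument -/
theorem pole_count [Finite G] (hfix : ∀ g : G, g ≠ 1 → (fixedBy X g).ncard = 2) (x : X)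
    (h6 : 6 ≤ Nat.card (stabilizer G x)) : Nat.card (orbit G x) ≤ 2 := by
  classical
  have hfin := poles_finite hfix
  have : Fintype G := Fintype.ofFinite G
  have : Fintype (poles G X) := Fintype.ofFinite _
  have hnt : ∃ g ∈ stabilizer G x, g ≠ 1 := by
    by_contra hcon
    push Not at hcon
    have : stabilizer G x = ⊥ := (Subgroup.eq_bot_iff_forall _).mpr hcon
    rw [this] at h6
    simp at h6
  obtain ⟨g₀, hg₀, hg₀1⟩ := hnt
  have hxP : x ∈ poles G X := ⟨g₀, hg₀1, hg₀⟩
  set n := Fintype.card G with hn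
  -- orbits
  let Ω := orbitRel.Quotient G (poles G X)
  have : Fintype Ω := Fintype.ofFinite _
  have burn := sum_card_fixedBy_eq_card_orbits_mul_card_group G (poles G X)
  have hsum : (∑ g : G, Fintype.card (fixedBy (poles G X) g)) =
      Fintype.card (poles G X) + 2 * (n - 1) := by
    rw [← Finset.add_sum_erase _ _ (Finset.mem_univ (1 : G))]
    congr 1
    · rw [← Nat.card_eq_fintype_card, ← Nat.card_eq_fintype_card]
      refine Nat.card_congr (Equiv.subtypeUnivEquiv fun y => ?_)
      simp [mem_fixedBy]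
    · rw [Finset.sum_congr rfl (g := fun _ => 2)]
      · rw [Finset.sum_const, Finset.card_erase_of_mem (Finset.mem_univ _), Finset.card_univ,
          smul_eq_mul, mul_comm]
      · intro g hg
        rw [← Nat.card_eq_fintype_card]
        exact card_fixed_poles hfix g (Finset.ne_of_mem_erase hg)
  -- sizes of orbits
  let s : Ω → ℕ := fun ω => Nat.card ω.orbit
  have hcardP : Fintype.card (poles G X) = ∑ ω : Ω, s ω := by
    rw [← Nat.card_eq_fintype_card, Nat.card_congr (selfEquivSigmaOrbits' G (poles G X)),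
      Nat.card_sigma]
  have hs : ∀ y : poles G X, Nat.card (orbit G y) * Nat.card (stabilizer G y) = n := by
    intro y
    have := card_orbit_mul_card_stabilizer_eq_card_group G y
    rw [← Nat.card_eq_fintype_card, ← Nat.card_eq_fintype_card] at this
    exact this
  have hst : ∀ y : poles G X, 2 ≤ Nat.card (stabilizer G y) := by
    intro y
    obtain ⟨g, hg, hy⟩ := y.2
    have : Nontrivial (stabilizer G y) := by
      refine ⟨⟨⟨g, Subtype.ext hy⟩, 1, fun hcon => hg (congrArg Subtype.val hcon)⟩⟩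
    exact Finite.one_lt_card
  have hsω : ∀ ω : Ω, ∃ m, 2 ≤ m ∧ s ω * m = n := by
    intro ω
    induction ω using Quotient.inductionOn' with
    | h y => exact ⟨_, hst y, hs y⟩
  -- the orbit of x
  let ω₀ : Ω := Quotient.mk'' ⟨x, hxP⟩
  have hω₀ : s ω₀ = Nat.card (orbit G x) := by
    show Nat.card (orbit G (⟨x, hxP⟩ : poles G X)) = _
    refine Nat.card_congr ⟨fun y => ⟨((y : poles G X) : X), ?_⟩, fun y => ⟨⟨(y : X), ?_⟩, ?_⟩,
      fun y => rfl, fun y => rfl⟩
    · obtain ⟨g, hg⟩ := y.2
      exact ⟨g, congrArg Subtype.val hg⟩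
    · obtain ⟨g, hg⟩ := y.2
      rw [← hg]
      exact (poles G X).smul_mem g hxP
    · obtain ⟨g, hg⟩ := y.2
      exact ⟨g, Subtype.ext hg⟩
  have h6' : 6 * s ω₀ ≤ n := by
    have h1 := hs ⟨x, hxP⟩
    have h2 : Nat.card (stabilizer G (⟨x, hxP⟩ : poles G X)) = Nat.card (stabilizer G x) := by
      refine Nat.card_congr (Equiv.subtypeEquivRight fun g => ?_)
      rw [mem_stabilizer_iff, mem_stabilizer_iff]
      exact ⟨fun h => congrArg Subtype.val h, fun h => Subtype.ext h⟩
    rw [h2] at h1
    have h3 : s ω₀ = Nat.card (orbit G (⟨x, hxP⟩ : poles G X)) := rfl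
    rw [← h3] at h1
    have := Nat.mul_le_mul_left (s ω₀) h6
    omega
  rw [← hω₀]
  have hn6 : 6 ≤ n := by
    have h1 := hs ⟨x, hxP⟩
    have h3 : 0 < s ω₀ := by
      show 0 < Nat.card (orbit G (⟨x, hxP⟩ : poles G X))
      have : Nonempty (orbit G (⟨x, hxP⟩ : poles G X)) := ⟨⟨_, mem_orbit_self _⟩⟩
      exact Nat.card_pos
    omega
  by_contra hcon
  push Not at hcon
  -- relation
  have hrel : (∑ ω : Ω, s ω) + 2 * (n - 1) = Fintype.card Ω * n := by
    rw [← hcardP, ← hsum]; exact burn
  have hle : 2 * (∑ ω : Ω, s ω) ≤ Fintype.card Ω * n := by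
    rw [Finset.mul_sum]
    calc ∑ ω : Ω, 2 * s ω ≤ ∑ _ω : Ω, n := by
          refine Finset.sum_le_sum fun ω _ => ?_
          obtain ⟨m, hm, e⟩ := hsω ω
          have := Nat.mul_le_mul_left (s ω) hm
          omega
      _ = Fintype.card Ω * n := by rw [Finset.sum_const, Finset.card_univ, smul_eq_mul]
  have hr3 : Fintype.card Ω ≤ 3 := by
    by_contra h4
    push Not at h4
    have : 4 * n ≤ Fintype.card Ω * n := Nat.mul_le_mul_right n h4
    omega
  have hsplit := Finset.add_sum_erase Finset.univ s (Finset.mem_univ ω₀)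
  interval_cases hc : Fintype.card Ω
  · omega
  · omega
  · omega
  · -- three orbits
    have hce : (Finset.univ.erase ω₀).card = 2 := by
      rw [Finset.card_erase_of_mem (Finset.mem_univ _), Finset.card_univ, hc]
    obtain ⟨ω₁, ω₂, h12, he⟩ := Finset.card_eq_two.mp hce
    rw [he, Finset.sum_pair h12] at hsplit
    obtain ⟨m₁, hm₁, e₁⟩ := hsω ω₁
    obtain ⟨m₂, hm₂, e₂⟩ := hsω ω₂
    have k1 : m₁ = 2 ∨ 3 * s ω₁ ≤ n := by
      rcases eq_or_lt_of_le hm₁ with h | h
      · exact Or.inl h.symm
      · right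
        have := Nat.mul_le_mul_left (s ω₁) (show 3 ≤ m₁ from h)
        omega
    have k2 : m₂ = 2 ∨ 3 * s ω₂ ≤ n := by
      rcases eq_or_lt_of_le hm₂ with h | h
      · exact Or.inl h.symm
      · right
        have := Nat.mul_le_mul_left (s ω₂) (show 3 ≤ m₂ from h)
        omega
    have l1 : 2 * s ω₁ ≤ n := by
      have := Nat.mul_le_mul_left (s ω₁) hm₁
      omega
    have l2 : 2 * s ω₂ ≤ n := by
      have := Nat.mul_le_mul_left (s ω₂) hm₂
      omega
    rcases k1 with k1 | k1
    · rcases k2 with k2 | k2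
      · subst k1; subst k2
        omega
      · omega
    · omega

end poles

end Pool.Agent.H542R3.MU
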