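import Pool.Agent.H542R3.MUP

set_option autoImplicit false

/-!
Subgroups of the two-dimensional linear group over a finite field containing a certain element of
order three and a certain lower triangular element have order divisible by the characteristic.
-/

open MulAction Matrix

namespace Pool.Agent.H542R3.MU

section field

variable {K : Type} [Field K]

theorem scalar_add_pow (a : K) (n : Matrix (Fin 2) (Fin 2) K) (hn : n ^ 2 = 0) (k : ℕ) :
    (Matrix.scalar (Fin 2) a + n) ^ (k + 1) =
      Matrix.scalar (Fin 2) (a ^ (k + 1)) + (((k : K) + 1) * a ^ k) • n := by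
  have hs : ∀ b : K, ∀ M : Matrix (Fin 2) (Fin 2) K, Matrix.scalar (Fin 2) b * M = b • M := by
    intro b M
    rw [Matrix.scalar_apply, ← Matrix.smul_eq_diagonal_mul]
  have hs' : ∀ b : K, ∀ M : Matrix (Fin 2) (Fin 2) K, M * Matrix.scalar (Fin 2) b = b • M := by
    intro b M
    rw [Matrix.scalar_apply, ← Matrix.op_smul_eq_mul_diagonal, op_smul_eq_smul]
  induction k with
  | zero => simp
  | succ k ih =>
    obtain ⟨t, ht⟩ : ∃ t, t = ((k : K) + 1) * a ^ k := ⟨_, rfl⟩
    rw [← ht] at ih
    have e : (Matrix.scalar (Fin 2) (a ^ (k + 1)) + t • n) * (Matrix.scalar (Fin 2) a + n) =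
        Matrix.scalar (Fin 2) (a ^ (k + 1) * a) + (t * a + a ^ (k + 1)) • n := by
      rw [mul_add, add_mul, add_mul, ← map_mul, smul_mul_assoc, smul_mul_assoc, hs', hs,
        ← pow_two, hn, smul_zero, add_zero, smul_smul, add_assoc, ← add_smul]
    rw [pow_succ, ih, e, ← pow_succ]
    congr 2
    rw [ht]
    push_cast
    ring

theorem discr_ne {g : GL (Fin 2) K} (h2 : (2 : K) ≠ 0) {N : ℕ} (hN : (N : K) ≠ 0)
    (hg : g ^ N = 1) (hns : g.val ∉ Set.range (Matrix.scalar (Fin 2))) : g.val.discr ≠ 0 := by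
  intro h0
  have : NeZero (2 : K) := ⟨h2⟩
  have hp : g.val.IsParabolic := ⟨hns, h0⟩
  obtain ⟨a, n, e, hn0, hn⟩ := Matrix.isParabolic_iff_exists.mp hp
  obtain ⟨k, rfl⟩ : ∃ k, N = k + 1 := by
    rcases N with _ | k
    · exact absurd Nat.cast_zero hN
    · exact ⟨k, rfl⟩
  have h1 : g.val ^ (k + 1) = 1 := by
    rw [← Units.val_pow_eq_pow_val, hg, Units.val_one]
  rw [e, scalar_add_pow a n hn k] at h1
  have hs : ∀ b : K, ∀ M : Matrix (Fin 2) (Fin 2) K, Matrix.scalar (Fin 2) b * M = b • M := by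
    intro b M
    rw [Matrix.scalar_apply, ← Matrix.smul_eq_diagonal_mul]
  have h3 : (a ^ (k + 1)) • n = n := by
    have := congrArg (fun M => M * n) h1
    simp only [add_mul, hs, smul_mul_assoc, one_mul] at this
    rw [← pow_two, hn, smul_zero, add_zero] at this
    exact this
  have h4 : a ^ (k + 1) = 1 := by
    by_contra hne
    have : (a ^ (k + 1) - 1) • n = 0 := by rw [sub_smul, h3, one_smul, sub_self]
    rcases smul_eq_zero.mp this with h | h
    · exact hne (sub_eq_zero.mp h)
    · exact hn0 h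
  rw [h4, map_one] at h1
  have h5 : (((k : K) + 1) * a ^ k) • n = 0 := by
    have := congrArg (fun M => M - 1) h1
    simpa using this
  rcases smul_eq_zero.mp h5 with h | h
  · have ha : a ≠ 0 := by
      rintro rfl
      rw [zero_pow (Nat.succ_ne_zero k)] at h4
      exact zero_ne_one h4
    have : (k : K) + 1 ≠ 0 := by
      have := hN
      push_cast at this
      exact this
    exact (mul_ne_zero this (pow_ne_zero k ha)) h
  · exact hn0 h

theorem ncard_fixed [IsAlgClosed K] [DecidableEq K] {g : GL (Fin 2) K} (h2 : (2 : K) ≠ 0)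
    (hd : g.val.discr ≠ 0) : (fixedBy (OnePoint K) g).ncard = 2 := by
  have hdd : g.val.discr = (g.val 1 1 - g.val 0 0) ^ 2 + 4 * (g.val 1 0 * g.val 0 1) := by
    rw [Matrix.discr_fin_two, Matrix.trace_fin_two, Matrix.det_fin_two]; ring
  have hfin : ∀ c : K, g • (c : OnePoint K) = c ↔
      g.val 1 0 * (c * c) + (g.val 1 1 - g.val 0 0) * c + -g.val 0 1 = 0 := by
    intro c
    rw [← Matrix.GeneralLinearGroup.fixpointPolynomial_aeval_eq_zero_iff]
    simp [Matrix.GeneralLinearGroup.fixpointPolynomial, pow_two, sub_eq_add_neg]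
  rw [Set.ncard_eq_two]
  by_cases hc : g.val 1 0 = 0
  · rw [hc, zero_mul, mul_zero, add_zero] at hdd
    have hda : g.val 1 1 - g.val 0 0 ≠ 0 := by
      intro h0
      rw [h0] at hdd
      apply hd
      rw [hdd]; ring
    refine ⟨OnePoint.infty, ((g.val 0 1 / (g.val 1 1 - g.val 0 0) : K) : OnePoint K),
      OnePoint.infty_ne_coe _, ?_⟩
    ext y
    rw [mem_fixedBy]
    cases y with
    | infty => simp [OnePoint.smul_infty_eq_self_iff, hc]
    | coe y =>
      rw [hfin y, hc]
      simp only [Set.mem_insert_iff, Set.mem_singleton_iff, OnePoint.coe_ne_infty, false_or,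
        OnePoint.coe_eq_coe]
      rw [eq_div_iff hda]
      constructor
      · intro h; linear_combination h
      · intro h; linear_combination h
  · obtain ⟨s, hs⟩ := IsAlgClosed.exists_pow_nat_eq g.val.discr (n := 2) (by norm_num)
    have hs0 : s ≠ 0 := by
      rintro rfl
      apply hd
      rw [← hs]; norm_num
    have hD : discrim (g.val 1 0) (g.val 1 1 - g.val 0 0) (-g.val 0 1) = s * s := by
      rw [← pow_two, hs, hdd, discrim]; ring
    have : NeZero (2 : K) := ⟨h2⟩
    have hq := fun x => quadratic_eq_zero_iff hc hD x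
    refine ⟨((((-(g.val 1 1 - g.val 0 0) + s) / (2 * g.val 1 0) : K)) : OnePoint K),
      ((((-(g.val 1 1 - g.val 0 0) - s) / (2 * g.val 1 0) : K)) : OnePoint K), ?_, ?_⟩
    · rw [Ne, OnePoint.coe_eq_coe]
      intro h
      rw [div_left_inj' (mul_ne_zero h2 hc)] at h
      have : 2 * s = 0 := by linear_combination h
      exact (mul_ne_zero h2 hs0) this
    · ext y
      rw [mem_fixedBy]
      cases y with
      | infty => simp [OnePoint.smul_infty_eq_self_iff, hc]
      | coe y =>
        rw [hfin y, hq y]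
        simp only [Set.mem_insert_iff, Set.mem_singleton_iff, OnePoint.coe_eq_coe]

end field

section finite

variable {F : Type} [Field F] [Finite F]

theorem low_pow (u v c : F) (k : ℕ) : ∃ x : F, (!![u, 0; c, v] : Matrix (Fin 2) (Fin 2) F) ^ k =
    !![u ^ k, 0; x, v ^ k] := by
  induction k with
  | zero => exact ⟨0, by ext i j; fin_cases i <;> fin_cases j <;> simp⟩
  | succ k ih =>
    obtain ⟨x, hx⟩ := ih
    refine ⟨x * u + v ^ k * c, ?_⟩
    rw [pow_succ, hx]
    ext i j
    fin_cases i <;> fin_cases j <;> simp [Matrix.mul_apply, Fin.sum_univ_two, pow_succ]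

theorem dvd_card_aux (K : Type) [Field K] [IsAlgClosed K] [DecidableEq K] (f : F →+* K)
    (p : ℕ) [hp : Fact p.Prime] [CharP K p] (hp2 : p ≠ 2)
    (a R : GL (Fin 2) F) (ha : a.val = !![0, -1; 1, -1]) (u v c : F)
    (hR : R.val = !![u, 0; c, v]) (hord : ∀ k, 1 ≤ k → k ≤ 5 → u ^ k ≠ v ^ k)
    (D : Subgroup (GL (Fin 2) F)) (haD : a ∈ D) (hRD : R ∈ D) : p ∣ Nat.card D := by
  by_contra hndvd
  have h2 : (2 : K) ≠ 0 := by
    intro h
    have h' : ((2 : ℕ) : K) = 0 := by exact_mod_cast h
    rw [CharP.cast_eq_zero_iff K p] at h'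
    have := (Nat.prime_dvd_prime_iff_eq hp.out Nat.prime_two).mp h'
    exact hp2 this
  have hNK : ((Nat.card D : ℕ) : K) ≠ 0 := by
    intro h
    rw [CharP.cast_eq_zero_iff K p] at h
    exact hndvd h
  let φ : GL (Fin 2) F →* GL (Fin 2) K := Matrix.GeneralLinearGroup.map f
  let ψ : GL (Fin 2) F →* Equiv.Perm (OnePoint K) := (toPermHom (GL (Fin 2) K) (OnePoint K)).comp φ
  have hφ : ∀ (g : GL (Fin 2) F) i j, (φ g).val i j = f (g.val i j) := fun g i j => rfl
  have hψ : ∀ (g : GL (Fin 2) F) x, ψ g x = φ g • x := fun g x => rfl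
  let G : Subgroup (Equiv.Perm (OnePoint K)) := D.map ψ
  have hGfin : Finite G := by
    have : Finite D := inferInstance
    have h1 : Set.Finite ((D.map ψ : Subgroup _) : Set (Equiv.Perm (OnePoint K))) := by
      rw [Subgroup.coe_map]
      exact Set.Finite.image _ (Set.toFinite _)
    exact h1
  have hfix : ∀ g : G, g ≠ 1 → (fixedBy (OnePoint K) g).ncard = 2 := by
    rintro ⟨_, ⟨d, hd, rfl⟩⟩ hg
    have hns : (φ d).val ∉ Set.range (Matrix.scalar (Fin 2)) := by
      rintro ⟨z, hz⟩
      apply hg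
      apply Subtype.ext
      show ψ d = 1
      have hz0 : z ≠ 0 := by
        rintro rfl
        have := (φ d).det_ne_zero
        rw [← hz] at this
        simp at this
      have e00 : (φ d).val 0 0 = z := by rw [← hz]; simp
      have e11 : (φ d).val 1 1 = z := by rw [← hz]; simp
      have e10 : (φ d).val 1 0 = 0 := by rw [← hz]; simp
      have e01 : (φ d).val 0 1 = 0 := by rw [← hz]; simp
      ext x
      rw [hψ]
      cases x with
      | infty => rw [OnePoint.smul_infty_eq_ite, if_pos e10]; rfl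
      | coe x =>
        rw [OnePoint.smul_some_eq_ite, e10, e11, e00, e01, zero_mul, zero_add, if_neg hz0,
          add_zero, mul_div_cancel_left₀ _ hz0]
        rfl
    have hdN : (φ d) ^ (Nat.card D) = 1 := by
      rw [← map_pow]
      have : (⟨d, hd⟩ : D) ^ (Nat.card D) = 1 := pow_card_eq_one'
      have h1 := congrArg Subtype.val this
      rw [SubmonoidClass.coe_pow] at h1
      rw [show d ^ Nat.card D = 1 from h1, map_one]
    have := ncard_fixed h2 (discr_ne h2 hNK hdN hns)
    exact this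
  have ha' : ψ a ∈ G := ⟨a, haD, rfl⟩
  have hR' : ∀ k, ψ (R ^ k) ∈ G := fun k => ⟨R ^ k, pow_mem hRD k, rfl⟩
  have hRk : ∀ k, ∃ x : F, (R ^ k).val = !![u ^ k, 0; x, v ^ k] := by
    intro k
    obtain ⟨x, hx⟩ := low_pow u v c k
    refine ⟨x, ?_⟩
    rw [Units.val_pow_eq_pow_val, hR, hx]
  -- stabilizer of zero
  have hst : 6 ≤ Nat.card (stabilizer G (((0 : K) : OnePoint K))) := by
    have hmem : ∀ k : ℕ, (⟨ψ (R ^ k), hR' k⟩ : G) ∈ stabilizer G (((0 : K) : OnePoint K)) := by
      intro k
      rw [mem_stabilizer_iff]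
      show φ (R ^ k) • (((0 : K) : OnePoint K)) = _
      obtain ⟨x, hx⟩ := hRk k
      have e01 : (φ (R ^ k)).val 0 1 = 0 := by rw [hφ, hx]; simp
      have e11 : (φ (R ^ k)).val 1 1 = f (v ^ k) := by rw [hφ, hx]; simp
      have hv : f (v ^ k) ≠ 0 := by
        intro h0
        have := (φ (R ^ k)).det_ne_zero
        rw [Matrix.det_fin_two, e01, e11, h0] at this
        simp at this
      rw [OnePoint.smul_some_eq_ite, e01, e11, mul_zero, mul_zero, zero_add, if_neg hv, add_zero,
        zero_div]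
    let ι : Fin 6 → stabilizer G (((0 : K) : OnePoint K)) := fun k =>
      ⟨⟨ψ (R ^ (k : ℕ)), hR' k⟩, hmem k⟩
    have hkey : ∀ i j : ℕ, i < j → j ≤ 5 → ψ (R ^ i) ≠ ψ (R ^ j) := by
      intro i j hij hj h
      have h1 : ψ (R ^ (j - i)) = 1 := by
        have : R ^ j = R ^ (j - i) * R ^ i := by rw [← pow_add]; congr 1; omega
        rw [this, map_mul] at h
        exact right_eq_mul.mp h
      obtain ⟨x, hx⟩ := hRk (j - i)
      have e00 : (φ (R ^ (j - i))).val 0 0 = f (u ^ (j - i)) := by rw [hφ, hx]; simp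
      have e01 : (φ (R ^ (j - i))).val 0 1 = 0 := by rw [hφ, hx]; simp
      have e11 : (φ (R ^ (j - i))).val 1 1 = f (v ^ (j - i)) := by rw [hφ, hx]; simp
      have e10 : (φ (R ^ (j - i))).val 1 0 = 0 := by
        have : φ (R ^ (j - i)) • (OnePoint.infty : OnePoint K) = OnePoint.infty := by
          rw [← hψ, h1]; rfl
        exact OnePoint.smul_infty_eq_self_iff.mp this
      have h3 : φ (R ^ (j - i)) • (((1 : K)) : OnePoint K) = ((1 : K) : OnePoint K) := by
        rw [← hψ, h1]; rfl
      rw [OnePoint.smul_some_eq_ite, e00, e01, e10, e11, zero_mul, zero_add, mul_one,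
        add_zero] at h3
      split_ifs at h3 with h4
      · exact absurd h3 (OnePoint.infty_ne_coe _)
      · rw [OnePoint.coe_eq_coe, div_eq_one_iff_eq h4] at h3
        exact hord (j - i) (by omega) (by omega) (f.injective h3)
    have hinj : Function.Injective ι := by
      intro i j h
      have h1 : ψ (R ^ (i : ℕ)) = ψ (R ^ (j : ℕ)) := Subtype.ext_iff.mp (Subtype.ext_iff.mp h)
      rcases lt_trichotomy (i : ℕ) j with hij | hij | hij
      · exact absurd h1 (hkey i j hij (by omega))
      · exact Fin.ext hij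
      · exact absurd h1.symm (hkey j i hij (by omega))
    have := Nat.card_le_card_of_injective ι hinj
    simpa using this
  have hpc := pole_count hfix _ hst
  -- the orbit has at least three elements
  have a00 : (φ a).val 0 0 = 0 := by rw [hφ, ha]; simp
  have a01 : (φ a).val 0 1 = -1 := by rw [hφ, ha]; simp
  have a10 : (φ a).val 1 0 = 1 := by rw [hφ, ha]; simp
  have a11 : (φ a).val 1 1 = -1 := by rw [hφ, ha]; simp
  have o1 : φ a • (((0 : K) : OnePoint K)) = ((1 : K) : OnePoint K) := by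
    rw [OnePoint.smul_some_eq_ite, a00, a01, a10, a11]
    simp
  have o2 : φ a • (((1 : K) : OnePoint K)) = OnePoint.infty := by
    rw [OnePoint.smul_some_eq_ite, a00, a01, a10, a11]
    simp
  have m0 : (((0 : K) : OnePoint K)) ∈ orbit G (((0 : K) : OnePoint K)) := mem_orbit_self _
  have m1 : (((1 : K) : OnePoint K)) ∈ orbit G (((0 : K) : OnePoint K)) := by
    refine ⟨⟨ψ a, ha'⟩, ?_⟩
    exact o1
  have m2 : (OnePoint.infty : OnePoint K) ∈ orbit G (((0 : K) : OnePoint K)) := by
    refine ⟨⟨ψ a, ha'⟩ * ⟨ψ a, ha'⟩, ?_⟩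
    show φ a • φ a • (((0 : K) : OnePoint K)) = _
    rw [o1, o2]
  have hsub : ({((0 : K) : OnePoint K), ((1 : K) : OnePoint K), OnePoint.infty} :
      Set (OnePoint K)) ⊆ orbit G (((0 : K) : OnePoint K)) := by
    rintro y (rfl | rfl | rfl)
    · exact m0
    · exact m1
    · exact m2
  have hof : (orbit G (((0 : K) : OnePoint K))).Finite := Set.finite_range _
  have hcard := Set.ncard_le_ncard hsub hof
  have h3 : ({((0 : K) : OnePoint K), ((1 : K) : OnePoint K), OnePoint.infty} :
      Set (OnePoint K)).ncard = 3 := by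
    rw [Set.ncard_eq_three]
    refine ⟨_, _, _, ?_, OnePoint.coe_ne_infty _, OnePoint.coe_ne_infty _, rfl⟩
    rw [Ne, OnePoint.coe_eq_coe]
    exact zero_ne_one
  rw [h3, ← Nat.card_coe_set_eq] at hcard
  omega

theorem dvd_card (p : ℕ) [hp : Fact p.Prime] [CharP F p] (hp2 : p ≠ 2)
    (a R : GL (Fin 2) F) (ha : a.val = !![0, -1; 1, -1]) (u v c : F)
    (hR : R.val = !![u, 0; c, v]) (hord : ∀ k, 1 ≤ k → k ≤ 5 → u ^ k ≠ v ^ k)
    (D : Subgroup (GL (Fin 2) F)) (haD : a ∈ D) (hRD : R ∈ D) : p ∣ Nat.card D := by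
  classical
  have : CharP (AlgebraicClosure F) p :=
    charP_of_injective_algebraMap (algebraMap F (AlgebraicClosure F)).injective p
  exact dvd_card_aux (AlgebraicClosure F) (algebraMap F (AlgebraicClosure F)) p hp2 a R ha u v c
    hR hord D haD hRD

end finite

end Pool.Agent.H542R3.MU
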