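import Mathlib

set_option autoImplicit false

/-!
Groups with a split BN pair of rank one: the permutation group on the cosets of `B` is simple.
-/

namespace Pool.Agent.H542R3.MU

/-- the data of a split BN pair of rank one in a perfect group -/
structure RankOne {S : Type} [Group S] (B U T : Subgroup S) (w : S) : Prop where
  hUB : U ≤ B
  hTU : T ≤ U
  hU : ∀ b ∈ B, ∀ u ∈ U, b * u * b⁻¹ ∈ U
  hT : ∀ b ∈ B, ∀ t ∈ T, b * t * b⁻¹ ∈ T
  hTc : ∀ s ∈ T, ∀ t ∈ T, s * t = t * s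
  hw : w ∉ B
  hBr : ∀ g, g ∉ B → ∃ u ∈ U, ∃ b ∈ B, g = u * w * b
  huniq : ∀ u ∈ U, w⁻¹ * u * w ∈ B → u = 1
  hBU : ∀ b ∈ B, ∀ b' ∈ B, b * b' * b⁻¹ * b'⁻¹ ∈ U
  hgenU : U ≤ Subgroup.normalClosure (T : Set S)
  hgenw : w ∈ Subgroup.normalClosure (T : Set S)
  hperf : commutator S = ⊤

namespace RankOne

variable {S : Type} [Group S] {B U T : Subgroup S} {w : S}

theorem sup_top (h : RankOne B U T w) (N : Subgroup S) [hN : N.Normal] (hNB : ¬ N ≤ B) :
    N ⊔ B = ⊤ := by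
  obtain ⟨n, hn, hnB⟩ : ∃ n ∈ N, n ∉ B := by
    by_contra hcon
    push Not at hcon
    exact hNB hcon
  obtain ⟨u, hu, b, hb, e⟩ := h.hBr n hnB
  have hwm : w ∈ N ⊔ B := by
    have : w = u⁻¹ * n * b⁻¹ := by rw [e]; group
    rw [this]
    exact mul_mem (mul_mem (Subgroup.mem_sup_right (inv_mem (h.hUB hu))) (Subgroup.mem_sup_left hn))
      (Subgroup.mem_sup_right (inv_mem hb))
  rw [eq_top_iff]
  intro g _
  by_cases hg : g ∈ B
  · exact Subgroup.mem_sup_right hg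
  · obtain ⟨u', hu', b', hb', e'⟩ := h.hBr g hg
    rw [e']
    exact mul_mem (mul_mem (Subgroup.mem_sup_right (h.hUB hu')) hwm)
      (Subgroup.mem_sup_right hb')

theorem exists_mul (h : RankOne B U T w) (N : Subgroup S) [hN : N.Normal] (hNB : ¬ N ≤ B)
    (g : S) : ∃ n ∈ N, ∃ b ∈ B, g = n * b := by
  have h1 : g ∈ N ⊔ B := by rw [h.sup_top N hNB]; trivial
  obtain ⟨n, hn, b, hb, e⟩ := Subgroup.mem_sup_of_normal_left.mp h1
  exact ⟨n, hn, b, hb, e.symm⟩

theorem nc_top (h : RankOne B U T w) : Subgroup.normalClosure (T : Set S) = ⊤ := by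
  set N := Subgroup.normalClosure (T : Set S) with hN
  have hNB : ¬ N ≤ B := fun hcon => h.hw (hcon h.hgenw)
  have key : IsMulCommutative (S ⧸ N) := by
    refine ⟨⟨?_⟩⟩
    intro x y
    obtain ⟨g, rfl⟩ := QuotientGroup.mk_surjective x
    obtain ⟨g', rfl⟩ := QuotientGroup.mk_surjective y
    obtain ⟨n, hn, b, hb, rfl⟩ := h.exists_mul N hNB g
    obtain ⟨n', hn', b', hb', rfl⟩ := h.exists_mul N hNB g'
    have e1 : ((n : S) : S ⧸ N) = 1 := (QuotientGroup.eq_one_iff n).mpr hn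
    have e2 : ((n' : S) : S ⧸ N) = 1 := (QuotientGroup.eq_one_iff n').mpr hn'
    have e3 : ((b * b' * b⁻¹ * b'⁻¹ : S) : S ⧸ N) = 1 :=
      (QuotientGroup.eq_one_iff _).mpr (h.hgenU (h.hBU b hb b' hb'))
    rw [QuotientGroup.mk_mul, QuotientGroup.mk_mul, e1, e2, one_mul, one_mul]
    rw [QuotientGroup.mk_mul, QuotientGroup.mk_mul, QuotientGroup.mk_mul, QuotientGroup.mk_inv,
      QuotientGroup.mk_inv, mul_inv_eq_one, mul_inv_eq_iff_eq_mul] at e3
    exact e3
  have := Subgroup.Normal.quotient_commutative_iff_commutator_le.mp key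
  rw [h.hperf] at this
  exact top_le_iff.mp this

theorem normal_top (h : RankOne B U T w) (N : Subgroup S) [hN : N.Normal] (hNB : ¬ N ≤ B) :
    N = ⊤ := by
  have h1 : N ⊔ T = ⊤ := by
    have hnorm : (N ⊔ T).Normal := by
      refine ⟨fun x hx g => ?_⟩
      obtain ⟨n, hn, t, ht, rfl⟩ := Subgroup.mem_sup_of_normal_left.mp hx
      obtain ⟨n', hn', b, hb, rfl⟩ := h.exists_mul N hNB g
      have : n' * b * (n * t) * (n' * b)⁻¹ = (n' * (b * n * b⁻¹)) * (b * t * b⁻¹) * n'⁻¹ := by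
        group
      rw [this]
      exact mul_mem (mul_mem (Subgroup.mem_sup_left (mul_mem hn' (hN.conj_mem n hn b)))
        (Subgroup.mem_sup_right (h.hT b hb t ht))) (Subgroup.mem_sup_left (inv_mem hn'))
    have : Subgroup.normalClosure (T : Set S) ≤ N ⊔ T :=
      Subgroup.normalClosure_le_normal (fun t ht => Subgroup.mem_sup_right ht)
    rw [h.nc_top] at this
    exact top_le_iff.mp this
  have h2 : IsMulCommutative T := ⟨⟨fun s t => Subtype.ext (h.hTc s s.2 t t.2)⟩⟩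
  have h3 := hN.commutator_le_of_self_sup_commutative_eq_top h1 h2
  rw [h.hperf] at h3
  exact top_le_iff.mp h3

/-- the quotient -/
abbrev Qt (B : Subgroup S) := (MulAction.toPermHom S (S ⧸ B)).range

/-- the quotient map -/
def qmap (B : Subgroup S) : S →* Qt B := (MulAction.toPermHom S (S ⧸ B)).rangeRestrict

theorem qmap_surj (B : Subgroup S) : Function.Surjective (qmap B) :=
  MonoidHom.rangeRestrict_surjective _

theorem qmap_apply (B : Subgroup S) (g x : S) :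
    ((qmap B g : Equiv.Perm (S ⧸ B))) (x : S ⧸ B) = ((g * x : S) : S ⧸ B) := rfl

theorem simple (h : RankOne B U T w) : IsSimpleGroup (Qt B) := by
  have hnt : Nontrivial (Qt B) := by
    refine ⟨⟨qmap B w, 1, fun hcon => h.hw ?_⟩⟩
    have h1 := congrArg (fun q : Qt B => (q : Equiv.Perm (S ⧸ B)) ((1 : S) : S ⧸ B)) hcon
    simp only [qmap_apply, mul_one, OneMemClass.coe_one, Equiv.Perm.coe_one, id_eq] at h1
    have h2 := QuotientGroup.eq.mp h1
    rw [mul_one] at h2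
    exact inv_mem_iff.mp h2
  refine ⟨fun K hK => ?_⟩
  by_cases hKB : K.comap (qmap B) ≤ B
  · left
    rw [Subgroup.eq_bot_iff_forall]
    intro q hq
    obtain ⟨g, rfl⟩ := qmap_surj B q
    apply Subtype.ext
    ext x
    obtain ⟨x, rfl⟩ := QuotientGroup.mk_surjective x
    rw [qmap_apply]
    show ((g * x : S) : S ⧸ B) = (x : S ⧸ B)
    rw [eq_comm, QuotientGroup.eq]
    have h1 : x⁻¹ * g * x ∈ K.comap (qmap B) := by
      have hn : (K.comap (qmap B)).Normal := hK.comap _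
      have := hn.conj_mem g hq x⁻¹
      simpa using this
    have h2 := hKB h1
    rwa [mul_assoc] at h2
  · right
    have hn : (K.comap (qmap B)).Normal := hK.comap _
    have h1 := h.normal_top (K.comap (qmap B)) hKB
    rw [eq_top_iff]
    intro q _
    obtain ⟨g, rfl⟩ := qmap_surj B q
    have : g ∈ K.comap (qmap B) := by rw [h1]; trivial
    exact this

theorem two_trans (h : RankOne B U T w) (a b c d : S ⧸ B) (hab : a ≠ b) (hcd : c ≠ d) :
    ∃ g : Qt B, (g : Equiv.Perm (S ⧸ B)) a = c ∧ (g : Equiv.Perm (S ⧸ B)) b = d := by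
  -- move the standard pair to an arbitrary one
  have key : ∀ a b : S ⧸ B, a ≠ b → ∃ g : S, ((g : S) : S ⧸ B) = a ∧ ((g * w : S) : S ⧸ B) = b := by
    intro a b hab
    obtain ⟨x, rfl⟩ := QuotientGroup.mk_surjective a
    obtain ⟨y, rfl⟩ := QuotientGroup.mk_surjective b
    have h1 : x⁻¹ * y ∉ B := fun hcon => hab (QuotientGroup.eq.mpr hcon)
    obtain ⟨u, hu, b', hb', e⟩ := h.hBr _ h1
    refine ⟨x * u, ?_, ?_⟩
    · rw [QuotientGroup.eq]
      have : (x * u)⁻¹ * x = u⁻¹ := by group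
      rw [this]
      exact inv_mem (h.hUB hu)
    · rw [QuotientGroup.eq]
      have : (x * u * w)⁻¹ * y = b' := by
        have : y = x * (u * w * b') := by rw [← e]; group
        rw [this]; group
      rw [this]
      exact hb'
  obtain ⟨g, hg1, hg2⟩ := key a b hab
  obtain ⟨g', hg1', hg2'⟩ := key c d hcd
  refine ⟨qmap B (g' * g⁻¹), ?_, ?_⟩
  · rw [← hg1, qmap_apply, inv_mul_cancel_right, hg1']
  · rw [← hg2, qmap_apply]
    have : g' * g⁻¹ * (g * w) = g' * w := by group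
    rw [this, hg2']

theorem exists_u (h : RankOne B U T w) (y : S ⧸ B) (hy : y ≠ ((1 : S) : S ⧸ B)) :
    ∃ u ∈ U, ((u * w : S) : S ⧸ B) = y := by
  obtain ⟨y, rfl⟩ := QuotientGroup.mk_surjective y
  have h1 : y ∉ B := by
    intro hcon
    apply hy
    rw [eq_comm, QuotientGroup.eq]
    simpa using hcon
  obtain ⟨u, hu, b, hb, e⟩ := h.hBr y h1
  refine ⟨u, hu, ?_⟩
  rw [QuotientGroup.eq, e]
  have : (u * w)⁻¹ * (u * w * b) = b := by group
  rw [this]; exact hb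

theorem u_inj (h : RankOne B U T w) {u u' : S} (hu : u ∈ U) (hu' : u' ∈ U)
    (e : ((u * w : S) : S ⧸ B) = ((u' * w : S) : S ⧸ B)) : u = u' := by
  rw [QuotientGroup.eq] at e
  have h1 : w⁻¹ * (u⁻¹ * u') * w ∈ B := by
    have : w⁻¹ * (u⁻¹ * u') * w = (u * w)⁻¹ * (u' * w) := by group
    rwa [this]
  have h2 := h.huniq _ (mul_mem (inv_mem hu) hu') h1
  exact (inv_mul_eq_one.mp h2)

theorem split (h : RankOne B U T w) :
    (∀ u ∈ U.map (qmap B), (u : Equiv.Perm (S ⧸ B)) ((1 : S) : S ⧸ B) = ((1 : S) : S ⧸ B)) ∧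
    (∀ u ∈ U.map (qmap B), ∀ q : Qt B,
      (q : Equiv.Perm (S ⧸ B)) ((1 : S) : S ⧸ B) = ((1 : S) : S ⧸ B) →
        q * u * q⁻¹ ∈ U.map (qmap B)) ∧
    ∀ y z : S ⧸ B, y ≠ ((1 : S) : S ⧸ B) → z ≠ ((1 : S) : S ⧸ B) →
      ∃! u : Qt B, u ∈ U.map (qmap B) ∧ (u : Equiv.Perm (S ⧸ B)) y = z := by
  refine ⟨?_, ?_, ?_⟩
  · rintro _ ⟨u, hu, rfl⟩
    rw [qmap_apply, eq_comm, QuotientGroup.eq]
    simpa using h.hUB hu
  · rintro _ ⟨u, hu, rfl⟩ q hq
    obtain ⟨g, rfl⟩ := qmap_surj B q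
    rw [qmap_apply, eq_comm, QuotientGroup.eq] at hq
    have hg : g ∈ B := by simpa using hq
    refine ⟨g * u * g⁻¹, h.hU g hg u hu, ?_⟩
    rw [map_mul, map_mul, map_inv]
  · intro y z hy hz
    obtain ⟨u, hu, rfl⟩ := h.exists_u y hy
    obtain ⟨v, hv, rfl⟩ := h.exists_u z hz
    refine ⟨qmap B (v * u⁻¹), ⟨⟨v * u⁻¹, mul_mem hv (inv_mem hu), rfl⟩, ?_⟩, ?_⟩
    · rw [qmap_apply]
      have : v * u⁻¹ * (u * w) = v * w := by group
      rw [this]
    · rintro q ⟨⟨x, hx, rfl⟩, hq⟩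
      rw [qmap_apply, ← mul_assoc] at hq
      have := h.u_inj (mul_mem hx hu) hv hq
      rw [← this, mul_inv_cancel_right]

theorem card_ge (h : RankOne B U T w) [Finite S] (ht : ∃ t ∈ T, t ≠ 1) :
    3 ≤ Nat.card (S ⧸ B) := by
  classical
  obtain ⟨t, htT, ht1⟩ := ht
  have : Fintype (S ⧸ B) := Fintype.ofFinite _
  rw [Nat.card_eq_fintype_card]
  have h1 : ((1 : S) : S ⧸ B) ≠ ((w : S) : S ⧸ B) := by
    intro hcon
    rw [QuotientGroup.eq] at hcon
    exact h.hw (by simpa using hcon)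
  have h2 : ((1 : S) : S ⧸ B) ≠ ((t * w : S) : S ⧸ B) := by
    intro hcon
    rw [QuotientGroup.eq] at hcon
    have h3 : t * w ∈ B := by simpa using hcon
    have h4 : w ∈ B := by
      have : w = t⁻¹ * (t * w) := by group
      rw [this]
      exact mul_mem (inv_mem (h.hUB (h.hTU htT))) h3
    exact h.hw h4
  have h3 : ((w : S) : S ⧸ B) ≠ ((t * w : S) : S ⧸ B) := by
    intro hcon
    have e : ((1 * w : S) : S ⧸ B) = ((t * w : S) : S ⧸ B) := by rw [one_mul]; exact hcon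
    exact ht1 (h.u_inj (one_mem _) (h.hTU htT) e).symm
  have hc : ({((1 : S) : S ⧸ B), ((w : S) : S ⧸ B), ((t * w : S) : S ⧸ B)} :
      Finset (S ⧸ B)).card = 3 := by
    rw [Finset.card_eq_three]
    exact ⟨_, _, _, h1, h2, h3, rfl⟩
  rw [← hc]
  exact Finset.card_le_univ _

theorem card_U (h : RankOne B U T w) [Finite S] : Nat.card U ≤ Nat.card (Qt B) := by
  apply Nat.card_le_card_of_injective (fun u : U => qmap B u)
  intro u u' e
  have h1 := congrArg (fun q : Qt B => (q : Equiv.Perm (S ⧸ B)) ((w : S) : S ⧸ B)) e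
  simp only [qmap_apply] at h1
  exact Subtype.ext (h.u_inj u.2 u'.2 h1)

end RankOne

end Pool.Agent.H542R3.MU
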