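import Pool.Agent.H542R3.MUG
import Pool.Agent.H542R3.MUS

set_option autoImplicit false

/-!
The subgroups of the unitary group satisfying `Hyp` and perfect have a split BN pair of rank one.
-/

open Matrix

namespace Pool.Agent.H542R3.MU

section entries

variable {F : Type} [Field F] {bar : F →+* F}

/-- standard basis vector -/
def ev (i : Fin 3) : Fin 3 → F := Pi.single i 1

theorem mulVec_ev (M : Matrix (Fin 3) (Fin 3) F) (i j : Fin 3) : (M *ᵥ ev j) i = M i j := by
  simp [ev]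

theorem her_ev_right (v : Fin 3 → F) (k : Fin 3) : her bar v (ev k) = v k.rev := by
  fin_cases k <;> simp [her, ev, Fin.rev]

theorem her_ev_left (v : Fin 3 → F) (k : Fin 3) : her bar (ev k) v = bar (v k.rev) := by
  fin_cases k <;> simp [her, ev, Fin.rev]

theorem inv_entry {g : GL (Fin 3) F} (hg : Pres bar (g : Matrix (Fin 3) (Fin 3) F))
    (j k : Fin 3) : ((g⁻¹ : GL (Fin 3) F) : Matrix (Fin 3) (Fin 3) F) k.rev j =
      bar ((g : Matrix (Fin 3) (Fin 3) F) j.rev k) := by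
  have h := hg (((g⁻¹ : GL (Fin 3) F) : Matrix (Fin 3) (Fin 3) F) *ᵥ ev j) (ev k)
  rw [Matrix.mulVec_mulVec, Units.mul_inv, Matrix.one_mulVec, her_ev_left, her_ev_right,
    mulVec_ev, mulVec_ev] at h
  exact h.symm

/-- upper triangular -/
def UT (M : Matrix (Fin 3) (Fin 3) F) : Prop := M 1 0 = 0 ∧ M 2 0 = 0 ∧ M 2 1 = 0

theorem UT_mul {M N : Matrix (Fin 3) (Fin 3) F} (hM : UT M) (hN : UT N) :
    UT (M * N) ∧ ∀ i, (M * N) i i = M i i * N i i := by
  obtain ⟨a, b, c⟩ := hM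
  obtain ⟨a', b', c'⟩ := hN
  refine ⟨⟨?_, ?_, ?_⟩, ?_⟩
  · simp [Matrix.mul_apply, Fin.sum_univ_three, a, a', b']
  · simp [Matrix.mul_apply, Fin.sum_univ_three, b, a', b']
  · simp [Matrix.mul_apply, Fin.sum_univ_three, b, c, c']
  · intro i
    fin_cases i
    · simp [Matrix.mul_apply, Fin.sum_univ_three, a', b']
    · simp [Matrix.mul_apply, Fin.sum_univ_three, a, c']
    · simp [Matrix.mul_apply, Fin.sum_univ_three, b, c]

theorem UT_inv {g : GL (Fin 3) F} (hg : Pres bar (g : Matrix (Fin 3) (Fin 3) F))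
    (h : UT (g : Matrix (Fin 3) (Fin 3) F)) :
    UT ((g⁻¹ : GL (Fin 3) F) : Matrix (Fin 3) (Fin 3) F) := by
  obtain ⟨a, b, c⟩ := h
  refine ⟨?_, ?_, ?_⟩
  · have := inv_entry hg 0 1
    rw [show (Fin.rev (1 : Fin 3)) = 1 from rfl, show (Fin.rev (0 : Fin 3)) = 2 from rfl, c,
      map_zero] at this
    exact this
  · have := inv_entry hg 0 0
    rw [show (Fin.rev (0 : Fin 3)) = 2 from rfl, b, map_zero] at this
    exact this
  · have := inv_entry hg 1 0
    rw [show (Fin.rev (1 : Fin 3)) = 1 from rfl, show (Fin.rev (0 : Fin 3)) = 2 from rfl, a,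
      map_zero] at this
    exact this

/-- form relations between columns -/
theorem col_rel {M : Matrix (Fin 3) (Fin 3) F} (hM : Pres bar M) (j k : Fin 3) :
    M 0 j * bar (M 2 k) + M 1 j * bar (M 1 k) + M 2 j * bar (M 0 k) =
      her bar (ev j : Fin 3 → F) (ev k) := by
  have h := hM (ev j) (ev k)
  rw [← h, her, mulVec_ev, mulVec_ev, mulVec_ev, mulVec_ev, mulVec_ev, mulVec_ev]

theorem her00 : her bar (ev 0 : Fin 3 → F) (ev 0) = 0 := by simp [her, ev]
theorem her01 : her bar (ev 0 : Fin 3 → F) (ev 1) = 0 := by simp [her, ev]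
theorem her12 : her bar (ev 1 : Fin 3 → F) (ev 2) = 0 := by simp [her, ev]
theorem her22 : her bar (ev 2 : Fin 3 → F) (ev 2) = 0 := by simp [her, ev]

theorem UT_of {g : GL (Fin 3) F} (hg : Pres bar (g : Matrix (Fin 3) (Fin 3) F))
    (h : (g : Matrix (Fin 3) (Fin 3) F) 2 0 = 0) : UT (g : Matrix (Fin 3) (Fin 3) F) := by
  have h1 := col_rel hg 0 0
  rw [h, her00, map_zero, mul_zero, zero_mul, zero_add, add_zero] at h1
  have h10 : (g : Matrix (Fin 3) (Fin 3) F) 1 0 = 0 := by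
    rcases mul_eq_zero.mp h1 with h2 | h2
    · exact h2
    · exact (map_eq_zero bar).mp h2
  have h00 : (g : Matrix (Fin 3) (Fin 3) F) 0 0 ≠ 0 := by
    intro h0
    have e : (g : Matrix (Fin 3) (Fin 3) F) *ᵥ ev 0 = 0 := by
      ext i
      rw [mulVec_ev]
      fin_cases i
      · exact h0
      · exact h10
      · exact h
    have e2 : (ev 0 : Fin 3 → F) = 0 := by
      have := congrArg (fun v => ((g⁻¹ : GL (Fin 3) F) : Matrix (Fin 3) (Fin 3) F) *ᵥ v) e
      simpa [Matrix.mulVec_mulVec] using this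
    have := congrFun e2 0
    simp [ev] at this
  have h2 := col_rel hg 0 1
  rw [h, h10, her01, zero_mul, zero_mul, add_zero, add_zero] at h2
  refine ⟨h10, h, ?_⟩
  exact (map_eq_zero bar).mp ((mul_eq_zero.mp h2).resolve_left h00)

theorem EE_of {M : Matrix (Fin 3) (Fin 3) F} (hb : ∀ x, bar (bar x) = x) (hM : Pres bar M)
    (hU : UT M) (hd : ∀ i, M i i = 1) :
    M 0 2 + bar (M 0 2) + M 1 2 * bar (M 1 2) = 0 ∧ M = EE bar (M 1 2) (M 0 2) := by
  obtain ⟨a, b, c⟩ := hU
  have h12 := col_rel hM 1 2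
  have h22 := col_rel hM 2 2
  rw [her12, hd 1, hd 2, c, map_one, mul_one, one_mul, zero_mul, add_zero] at h12
  rw [her22, hd 2, map_one, mul_one, one_mul] at h22
  refine ⟨by linear_combination h22, ?_⟩
  have h01 : M 0 1 = -bar (M 1 2) := by linear_combination h12
  ext i j
  fin_cases i <;> fin_cases j <;> simp [EE, a, b, c, hd, h01]

end entries

section bn

variable {F : Type} [Field F] {bar : F →+* F} {S : Subgroup (GL (Fin 3) F)}

/-- Borel subgroup -/
def BB (h : Hyp bar S) : Subgroup S where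
  carrier := {g | UT ((g : GL (Fin 3) F) : Matrix (Fin 3) (Fin 3) F)}
  mul_mem' := by
    intro a b ha hb
    exact (UT_mul ha hb).1
  one_mem' := by
    show UT (((1 : GL (Fin 3) F)) : Matrix (Fin 3) (Fin 3) F)
    simp [UT]
  inv_mem' := by
    intro a ha
    exact UT_inv (h.hS a a.2) ha

/-- unipotent radical -/
def UU (h : Hyp bar S) : Subgroup S where
  carrier := {g | UT ((g : GL (Fin 3) F) : Matrix (Fin 3) (Fin 3) F) ∧
    ∀ i, ((g : GL (Fin 3) F) : Matrix (Fin 3) (Fin 3) F) i i = 1}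
  mul_mem' := by
    intro a b ha hb
    obtain ⟨h1, h2⟩ := UT_mul ha.1 hb.1
    refine ⟨h1, fun i => ?_⟩
    have := h2 i
    rw [ha.2, hb.2, one_mul] at this
    exact this
  one_mem' := by
    refine ⟨?_, ?_⟩
    · show UT (((1 : GL (Fin 3) F)) : Matrix (Fin 3) (Fin 3) F)
      simp [UT]
    · intro i
      show (((1 : GL (Fin 3) F)) : Matrix (Fin 3) (Fin 3) F) i i = 1
      simp
  inv_mem' := by
    intro a ha
    refine ⟨UT_inv (h.hS a a.2) ha.1, fun i => ?_⟩
    have := inv_entry (h.hS a a.2) i i.rev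
    rw [Fin.rev_rev, ha.2, map_one] at this
    exact this

/-- central transvections -/
def TT (h : Hyp bar S) : Subgroup S where
  carrier := {g | ∃ k, bar k = -k ∧ ((g : GL (Fin 3) F) : Matrix (Fin 3) (Fin 3) F) = tt k}
  mul_mem' := by
    rintro a b ⟨k, hk, ha⟩ ⟨k', hk', hb⟩
    refine ⟨k + k', by rw [map_add, hk, hk']; ring, ?_⟩
    rw [Subgroup.coe_mul, Units.val_mul, ha, hb]
    ext i j
    fin_cases i <;> fin_cases j <;> simp [tt, Matrix.mul_apply, Fin.sum_univ_three]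
    ring
  one_mem' := by
    refine ⟨0, by simp, ?_⟩
    rw [OneMemClass.coe_one, Units.val_one]
    ext i j
    fin_cases i <;> fin_cases j <;> simp [tt]
  inv_mem' := by
    rintro a ⟨k, hk, ha⟩
    refine ⟨-k, by rw [map_neg, hk], ?_⟩
    rw [Subgroup.coe_inv]
    apply Units.inv_eq_of_mul_eq_one_right
    rw [ha]
    ext i j
    fin_cases i <;> fin_cases j <;> simp [tt, Matrix.mul_apply, Fin.sum_univ_three]

theorem tt_comm (k k' : F) : tt k * tt k' = tt k' * tt k := by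
  ext i j
  fin_cases i <;> fin_cases j <;> simp [tt, Matrix.mul_apply, Fin.sum_univ_three]
  ring

theorem diag_mul (h : Hyp bar S) {b : S} (hb : b ∈ BB h) (i : Fin 3) :
    ((b : GL (Fin 3) F) : Matrix (Fin 3) (Fin 3) F) i i *
      (((b⁻¹ : S) : GL (Fin 3) F) : Matrix (Fin 3) (Fin 3) F) i i = 1 := by
  have h1 := (UT_mul hb ((BB h).inv_mem hb)).2 i
  rw [← h1, ← Units.val_mul, ← Subgroup.coe_mul, mul_inv_cancel]
  simp

theorem wm_col (e : F) : (Hyp.wm e : Matrix (Fin 3) (Fin 3) F) 2 0 = -e⁻¹ := by simp [Hyp.wm]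

/-- restriction of the hypotheses to the normal closure of the transvections -/
theorem Hyp.nc (h : Hyp bar S) :
    Hyp bar ((Subgroup.normalClosure (TT h : Set S)).map S.subtype) := by
  obtain ⟨e, he0, he⟩ := h.exists_eps
  obtain ⟨g, hgS, hg⟩ := h.hg
  have hTm : ∀ c, bar c = -c → ∃ t ∈ TT h, ((t : GL (Fin 3) F) : Matrix (Fin 3) (Fin 3) F) = tt c := by
    intro c hc
    obtain ⟨t, ht, e⟩ := h.hT c hc
    exact ⟨⟨t, ht⟩, ⟨c, hc, e⟩, e⟩
  refine ⟨h.two, h.hb, h.ne, ?_, ?_, ?_, ?_⟩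
  · rintro _ ⟨a, _, rfl⟩
    exact h.hS a a.2
  · intro c hc
    obtain ⟨t, ht, e⟩ := hTm c hc
    exact ⟨t, ⟨t, Subgroup.subset_normalClosure ht, rfl⟩, e⟩
  · intro c hc
    obtain ⟨x, hxS, hx⟩ := h.mem_wm he0 he
    -- conjugate of a transvection
    have hc' : bar (-(c * e ^ 2)) = -(-(c * e ^ 2)) := by
      rw [map_neg, map_mul, map_pow, hc, he]; ring
    obtain ⟨t, ht, ht'⟩ := hTm _ hc'
    have hn : (⟨x, hxS⟩ : S) * t * (⟨x, hxS⟩ : S)⁻¹ ∈ Subgroup.normalClosure (TT h : Set S) :=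
      Subgroup.normalClosure_normal.conj_mem _ (Subgroup.subset_normalClosure ht) _
    refine ⟨x * t * x⁻¹, ⟨_, hn, rfl⟩, ?_⟩
    rw [Units.val_mul, Units.val_mul, ht', hx]
    have e1 : (Hyp.wm e : Matrix (Fin 3) (Fin 3) F) * tt (-(c * e ^ 2)) = lt c * Hyp.wm e := by
      ext i j
      fin_cases i <;> fin_cases j <;>
        simp [Hyp.wm, tt, lt, Matrix.mul_apply, Fin.sum_univ_three]
      field_simp
    rw [e1, mul_assoc, ← hx, Units.mul_inv, mul_one]
  · obtain ⟨t, ht, ht'⟩ := hTm e he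
    have hn : (⟨g, hgS⟩ : S) * t * (⟨g, hgS⟩ : S)⁻¹ ∈ Subgroup.normalClosure (TT h : Set S) :=
      Subgroup.normalClosure_normal.conj_mem _ (Subgroup.subset_normalClosure ht) _
    refine ⟨g * t * g⁻¹, ⟨_, hn, rfl⟩, ?_⟩
    have hP := h.hS g hgS
    have e1 := TV_conj bar hP ![1, 0, 0] e
    rw [TV_tt] at e1
    rw [Units.val_mul, Units.val_mul, ht', e1, mul_assoc, Units.mul_inv, mul_one]
    rw [← mulVec_ev (TV bar ((g : Matrix (Fin 3) (Fin 3) F) *ᵥ ![1, 0, 0]) e) 1 0, TV_mulVec]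
    have hz : ∀ i, ((g : Matrix (Fin 3) (Fin 3) F) *ᵥ ![1, 0, 0]) i =
        (g : Matrix (Fin 3) (Fin 3) F) i 0 := by
      intro i
      simp [Matrix.mulVec, dotProduct, Fin.sum_univ_three]
    have hiso := col_rel hP 0 0
    rw [her00] at hiso
    have hg2 : (g : Matrix (Fin 3) (Fin 3) F) 2 0 ≠ 0 := by
      intro h0
      exact hg (UT_of hP h0).1
    have hx : her bar (ev 0) ((g : Matrix (Fin 3) (Fin 3) F) *ᵥ ![1, 0, 0]) =
        bar ((g : Matrix (Fin 3) (Fin 3) F) 2 0) := by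
      rw [her_ev_left, hz]; rfl
    rw [hx]
    simp only [Pi.add_apply, Pi.smul_apply, hz, smul_eq_mul]
    have : (ev 0 : Fin 3 → F) 1 = 0 := by simp [ev]
    rw [this, zero_add]
    exact mul_ne_zero (mul_ne_zero he0 ((map_ne_zero bar).mpr hg2)) hg

theorem Hyp.rankOne (h : Hyp bar S) (hperf : commutator S = ⊤) (p : ℕ) [Fact p.Prime]
    [CharP F p] [Finite F] :
    ∃ (B U T : Subgroup S) (w : S), RankOne B U T w ∧ (∃ t ∈ T, t ≠ 1) ∧ p ≤ Nat.card U := by
  obtain ⟨e, he0, he⟩ := h.exists_eps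
  obtain ⟨x, hxm, hx⟩ := h.nc.mem_wm he0 he
  obtain ⟨⟨x', hx'S⟩, hxn, rfl⟩ := hxm
  set w : S := ⟨x', hx'S⟩ with hw
  have hwe : ((w : GL (Fin 3) F) : Matrix (Fin 3) (Fin 3) F) = Hyp.wm e := hx
  have hexU : ∀ w' c, c + bar c + w' * bar w' = 0 → ∃ u ∈ UU h,
      ((u : GL (Fin 3) F) : Matrix (Fin 3) (Fin 3) F) = EE bar w' c ∧
      u ∈ Subgroup.normalClosure (TT h : Set S) := by
    intro w' c hc
    obtain ⟨y, hym, hy⟩ := h.nc.mem_EE hc
    obtain ⟨y', hyn, rfl⟩ := hym
    refine ⟨y', ⟨?_, ?_⟩, hy, hyn⟩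
    · have : UT (EE bar w' c) := by simp [UT, EE]
      rw [← hy] at this
      exact this
    · intro i
      have : (EE bar w' c) i i = 1 := by fin_cases i <;> simp [EE]
      rw [← hy] at this
      exact this
  have hUT : ∀ u ∈ UU h, ∃ w' c, c + bar c + w' * bar w' = 0 ∧
      ((u : GL (Fin 3) F) : Matrix (Fin 3) (Fin 3) F) = EE bar w' c := by
    intro u hu
    obtain ⟨h1, h2⟩ := EE_of h.hb (h.hS u u.2) hu.1 hu.2
    exact ⟨_, _, h1, h2⟩
  have hTexists : ∀ k, bar k = -k → ∃ t ∈ TT h,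
      ((t : GL (Fin 3) F) : Matrix (Fin 3) (Fin 3) F) = tt k := by
    intro c hc
    obtain ⟨t, ht, e⟩ := h.hT c hc
    exact ⟨⟨t, ht⟩, ⟨c, hc, e⟩, e⟩
  have hTU : TT h ≤ UU h := by
    rintro t ⟨k, hk, ht⟩
    refine ⟨?_, ?_⟩
    · rw [ht]; simp [UT, tt]
    · intro i
      rw [ht]; fin_cases i <;> simp [tt]
  obtain ⟨t₀, ht₀, ht₀'⟩ := hTexists e he
  have ht₀1 : t₀ ≠ 1 := by
    intro hcon
    rw [hcon] at ht₀'
    have := congrFun (congrFun ht₀' 0) 2
    simp [tt] at this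
    exact he0 this.symm
  refine ⟨BB h, UU h, TT h, w, ?_, ⟨t₀, ht₀, ht₀1⟩, ?_⟩
  · refine
      { hUB := fun u hu => hu.1
        hTU := hTU
        hU := ?_
        hT := ?_
        hTc := ?_
        hw := ?_
        hBr := ?_
        huniq := ?_
        hBU := ?_
        hgenU := ?_
        hgenw := hxn
        hperf := hperf }
    · intro b hb u hu
      have h1 := UT_mul hb hu.1
      have h2 := UT_mul h1.1 ((BB h).inv_mem hb)
      refine ⟨h2.1, fun i => ?_⟩
      have h3 := h2.2 i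
      have h4 := h1.2 i
      have h5 := diag_mul h hb i
      rw [hu.2, mul_one] at h4
      rw [h4, h5] at h3
      exact h3
    · rintro b hb t ⟨k, hk, ht⟩
      have hP := h.hS b b.2
      refine ⟨k * (((b : GL (Fin 3) F) : Matrix (Fin 3) (Fin 3) F) 0 0 *
        bar (((b : GL (Fin 3) F) : Matrix (Fin 3) (Fin 3) F) 0 0)), ?_, ?_⟩
      · rw [map_mul, map_mul, h.hb, hk]; ring
      · have e1 := TV_conj bar hP ![1, 0, 0] k
        have e2 : ((b : GL (Fin 3) F) : Matrix (Fin 3) (Fin 3) F) *ᵥ ![1, 0, 0] =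
            (((b : GL (Fin 3) F) : Matrix (Fin 3) (Fin 3) F) 0 0) • ![1, 0, 0] := by
          obtain ⟨b1, b2, b3⟩ := hb
          ext i
          fin_cases i <;> simp [Matrix.mulVec, dotProduct, Fin.sum_univ_three, b1, b2]
        rw [e2, TV_smul, TV_tt, TV_tt] at e1
        rw [Subgroup.coe_mul, Subgroup.coe_mul, Units.val_mul, Units.val_mul, ht, e1, mul_assoc,
          Subgroup.coe_inv, Units.mul_inv, mul_one]
    · rintro s ⟨k, _, hs⟩ t ⟨k', _, ht⟩
      apply Subtype.ext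
      apply Units.ext
      rw [Subgroup.coe_mul, Subgroup.coe_mul, Units.val_mul, Units.val_mul, hs, ht, tt_comm]
    · intro hcon
      have h1 : ((w : GL (Fin 3) F) : Matrix (Fin 3) (Fin 3) F) 2 0 = 0 := hcon.2.1
      rw [hwe, wm_col] at h1
      exact he0 (by simpa using h1)
    · intro g hg
      have hP := h.hS g g.2
      have hg2 : ((g : GL (Fin 3) F) : Matrix (Fin 3) (Fin 3) F) 2 0 ≠ 0 := fun h0 =>
        hg (UT_of hP h0)
      have hbg2 := (map_ne_zero bar).mpr hg2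
      have hiso := col_rel hP 0 0
      rw [her00] at hiso
      obtain ⟨al, hal⟩ : ∃ al, al = ((g : GL (Fin 3) F) : Matrix (Fin 3) (Fin 3) F) 0 0 := ⟨_, rfl⟩
      obtain ⟨be, hbe⟩ : ∃ be, be = ((g : GL (Fin 3) F) : Matrix (Fin 3) (Fin 3) F) 1 0 := ⟨_, rfl⟩
      obtain ⟨ga, hga⟩ : ∃ ga, ga = ((g : GL (Fin 3) F) : Matrix (Fin 3) (Fin 3) F) 2 0 := ⟨_, rfl⟩
      rw [← hal, ← hbe, ← hga] at hiso
      rw [← hga] at hg2 hbg2
      have hcc : al / ga + bar (al / ga) + (be / ga) * bar (be / ga) = 0 := by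
        rw [map_div₀, map_div₀]
        field_simp
        linear_combination hiso
      obtain ⟨u, hu, hue, _⟩ := hexU (be / ga) (al / ga) hcc
      refine ⟨u, hu, w⁻¹ * u⁻¹ * g, ?_, by group⟩
      -- the element w⁻¹ u⁻¹ g fixes the base line
      obtain ⟨b, hb⟩ : ∃ b : S, b = w⁻¹ * u⁻¹ * g := ⟨_, rfl⟩
      rw [← hb]
      have hgb : g = u * w * b := by rw [hb]; group
      have e1 : ((g : GL (Fin 3) F) : Matrix (Fin 3) (Fin 3) F) =
          (EE bar (be / ga) (al / ga) * Hyp.wm e) *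
            ((b : GL (Fin 3) F) : Matrix (Fin 3) (Fin 3) F) := by
        rw [hgb, Subgroup.coe_mul, Subgroup.coe_mul, Units.val_mul, Units.val_mul, hue, hwe]
      apply UT_of (h.hS b b.2)
      obtain ⟨b0, hb0⟩ : ∃ b0, b0 = ((b : GL (Fin 3) F) : Matrix (Fin 3) (Fin 3) F) 0 0 := ⟨_, rfl⟩
      obtain ⟨b1, hb1⟩ : ∃ b1, b1 = ((b : GL (Fin 3) F) : Matrix (Fin 3) (Fin 3) F) 1 0 := ⟨_, rfl⟩
      obtain ⟨b2, hb2⟩ : ∃ b2, b2 = ((b : GL (Fin 3) F) : Matrix (Fin 3) (Fin 3) F) 2 0 := ⟨_, rfl⟩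
      have f0 := congrFun (congrFun e1 0) 0
      have f1 := congrFun (congrFun e1 1) 0
      have f2 := congrFun (congrFun e1 2) 0
      simp only [Matrix.mul_apply, Fin.sum_univ_three, ← hal, ← hbe, ← hga, ← hb0, ← hb1, ← hb2,
        EE, Hyp.wm, Matrix.of_apply, Matrix.cons_val', Matrix.cons_val_zero, Matrix.cons_val_one,
        Matrix.cons_val] at f0 f1 f2
      rw [← hb2]
      have hbi := col_rel (h.hS b b.2) 0 0
      rw [her00, ← hb0, ← hb1, ← hb2] at hbi
      -- from f1, f2 : b1 = 0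
      have g2 : ga = -e⁻¹ * b0 := by linear_combination f2
      have g1 : b1 = 0 := by
        have : be = (be / ga) * (-e⁻¹ * b0) + b1 := by linear_combination f1
        rw [← g2] at this
        have h3 : be / ga * ga = be := div_mul_cancel₀ be hg2
        linear_combination -this - h3
      have g0 : e * b2 = 0 := by
        have : al = (al / ga) * (-e⁻¹ * b0) + -bar (be / ga) * b1 + e * b2 := by
          linear_combination f0
        rw [← g2, g1] at this
        have h3 : al / ga * ga = al := div_mul_cancel₀ al hg2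
        linear_combination -this - h3
      exact (mul_eq_zero.mp g0).resolve_left he0
    · intro u hu hcon
      obtain ⟨w', c, hc, hue⟩ := hUT u hu
      obtain ⟨b, hb⟩ : ∃ b : S, b = w⁻¹ * u * w := ⟨_, rfl⟩
      rw [← hb] at hcon
      have e0 : w * b = u * w := by rw [hb]; group
      have e1 : (Hyp.wm e : Matrix (Fin 3) (Fin 3) F) *
          ((b : GL (Fin 3) F) : Matrix (Fin 3) (Fin 3) F) = EE bar w' c * Hyp.wm e := by
        rw [← hwe, ← hue, ← Units.val_mul, ← Units.val_mul, ← Subgroup.coe_mul,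
          ← Subgroup.coe_mul, e0]
      have f0 := congrFun (congrFun e1 0) 0
      have f1 := congrFun (congrFun e1 1) 0
      simp only [Matrix.mul_apply, Fin.sum_univ_three, hcon.1, hcon.2.1,
        EE, Hyp.wm, Matrix.of_apply, Matrix.cons_val', Matrix.cons_val_zero, Matrix.cons_val_one,
        Matrix.cons_val] at f0 f1
      have hc0 : c = 0 := by
        have : c * -e⁻¹ = 0 := by linear_combination -f0
        exact (mul_eq_zero.mp this).resolve_right (by simpa using he0)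
      have hw0 : w' = 0 := by
        have : w' * -e⁻¹ = 0 := by linear_combination -f1
        exact (mul_eq_zero.mp this).resolve_right (by simpa using he0)
      apply Subtype.ext
      apply Units.ext
      rw [hue, hc0, hw0, EE_zero]
      rfl
    · intro b hb b' hb'
      have h1 := UT_mul hb hb'
      have h2 := UT_mul h1.1 ((BB h).inv_mem hb)
      have h3 := UT_mul h2.1 ((BB h).inv_mem hb')
      refine ⟨h3.1, fun i => ?_⟩
      have k3 := h3.2 i
      rw [h2.2 i, h1.2 i] at k3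
      have d1 := diag_mul h hb i
      have d2 := diag_mul h hb' i
      refine Eq.trans k3 ?_
      have d1' : ((b : GL (Fin 3) F) : Matrix (Fin 3) (Fin 3) F) i i *
        (((b : GL (Fin 3) F)⁻¹ : GL (Fin 3) F) : Matrix (Fin 3) (Fin 3) F) i i = 1 := d1
      have d2' : ((b' : GL (Fin 3) F) : Matrix (Fin 3) (Fin 3) F) i i *
        (((b' : GL (Fin 3) F)⁻¹ : GL (Fin 3) F) : Matrix (Fin 3) (Fin 3) F) i i = 1 := d2
      linear_combination d1' * ((b' : GL (Fin 3) F) : Matrix (Fin 3) (Fin 3) F) i i *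
        (((b' : GL (Fin 3) F)⁻¹ : GL (Fin 3) F) : Matrix (Fin 3) (Fin 3) F) i i + d2'
    · intro u hu
      obtain ⟨w', c, hc, hue⟩ := hUT u hu
      obtain ⟨u', _, hue', hn⟩ := hexU w' c hc
      have : u = u' := Subtype.ext (Units.ext (hue.trans hue'.symm))
      rw [this]; exact hn
  · have hpow : ∀ n : ℕ, (tt e : Matrix (Fin 3) (Fin 3) F) ^ n = tt (n * e) := by
      intro n
      induction n with
      | zero =>
        rw [pow_zero, Nat.cast_zero, zero_mul]
        ext i j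
        fin_cases i <;> fin_cases j <;> simp [tt]
      | succ n ih =>
        rw [pow_succ, ih]
        ext i j
        fin_cases i <;> fin_cases j <;> simp [tt, Matrix.mul_apply, Fin.sum_univ_three]
        ring
    have h1 : (⟨t₀, hTU ht₀⟩ : UU h) ^ p = 1 := by
      apply Subtype.ext
      apply Subtype.ext
      apply Units.ext
      show (((t₀ : GL (Fin 3) F) : Matrix (Fin 3) (Fin 3) F)) ^ p = 1
      rw [ht₀', hpow, CharP.cast_eq_zero, zero_mul]
      ext i j
      fin_cases i <;> fin_cases j <;> simp [tt]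
    have h2 : (⟨t₀, hTU ht₀⟩ : UU h) ≠ 1 := by
      intro hcon
      exact ht₀1 (congrArg Subtype.val hcon)
    have h3 := orderOf_eq_prime h1 h2
    have h4 : Finite (GL (Fin 3) F) := inferInstance
    have h5 : Finite (UU h) := inferInstance
    rw [← h3]
    exact Nat.le_of_dvd Nat.card_pos (orderOf_dvd_natCard _)

end bn

end Pool.Agent.H542R3.MU
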