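import Pool.Agent.H542R3.MUM
import Pool.Agent.H542R3.MUQ

set_option autoImplicit false

/-!
Existence of a transvection.
-/

open Matrix

namespace Pool.Agent.H542R3.MU

section block

variable {F : Type} [Field F]

/-- stabilizer of the first coordinate line -/
def LL (F : Type) [Field F] : Subgroup (GL (Fin 3) F) where
  carrier := {g | g.val 1 0 = 0 ∧ g.val 2 0 = 0}
  mul_mem' := by
    rintro a b ⟨h1, h2⟩ ⟨h3, h4⟩
    refine ⟨?_, ?_⟩
    · rw [Units.val_mul, Matrix.mul_apply, Fin.sum_univ_three, h1, h3, h4]; ring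
    · rw [Units.val_mul, Matrix.mul_apply, Fin.sum_univ_three, h2, h3, h4]; ring
  one_mem' := by
    refine ⟨?_, ?_⟩ <;> simp
  inv_mem' := by
    rintro a ⟨h1, h2⟩
    have h := a.inv_mul
    have e0 := congrFun (congrFun h 0) 0
    have e1 := congrFun (congrFun h 1) 0
    have e2 := congrFun (congrFun h 2) 0
    rw [Matrix.mul_apply, Fin.sum_univ_three, h1, h2] at e0 e1 e2
    simp only [mul_zero, add_zero, Matrix.one_apply, if_true] at e0 e1 e2
    have h0 : a.val 0 0 ≠ 0 := by
      intro h0; rw [h0, mul_zero] at e0; exact zero_ne_one e0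
    refine ⟨?_, ?_⟩
    · rw [if_neg (by decide)] at e1
      exact (mul_eq_zero.mp e1).resolve_right h0
    · rw [if_neg (by decide)] at e2
      exact (mul_eq_zero.mp e2).resolve_right h0

/-- lower right block -/
def blkM (M : Matrix (Fin 3) (Fin 3) F) : Matrix (Fin 2) (Fin 2) F :=
  !![M 1 1, M 1 2; M 2 1, M 2 2]

theorem blkM_mul {M : Matrix (Fin 3) (Fin 3) F} (h1 : M 1 0 = 0) (h2 : M 2 0 = 0)
    (N : Matrix (Fin 3) (Fin 3) F) : blkM (M * N) = blkM M * blkM N := by
  ext i j
  fin_cases i <;> fin_cases j <;>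
    simp [blkM, Matrix.mul_apply, Fin.sum_univ_three, Fin.sum_univ_two, h1, h2]

theorem blkM_one : blkM (1 : Matrix (Fin 3) (Fin 3) F) = 1 := by
  ext i j
  fin_cases i <;> fin_cases j <;> simp [blkM]

/-- the block homomorphism -/
def blk (F : Type) [Field F] : LL F →* GL (Fin 2) F where
  toFun g := ⟨blkM (g : GL (Fin 3) F).val, blkM ((g⁻¹ : LL F) : GL (Fin 3) F).val, by
      rw [← blkM_mul g.2.1 g.2.2, ← Units.val_mul, ← Subgroup.coe_mul, mul_inv_cancel,
        OneMemClass.coe_one, Units.val_one, blkM_one], by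
      rw [← blkM_mul (g⁻¹).2.1 (g⁻¹).2.2, ← Units.val_mul, ← Subgroup.coe_mul, inv_mul_cancel,
        OneMemClass.coe_one, Units.val_one, blkM_one]⟩
  map_one' := by
    apply Units.ext
    show blkM _ = _
    rw [OneMemClass.coe_one, Units.val_one, blkM_one, Units.val_one]
  map_mul' := by
    intro a b
    apply Units.ext
    show blkM _ = blkM _ * blkM _
    rw [Subgroup.coe_mul, Units.val_mul, blkM_mul a.2.1 a.2.2]

theorem blk_val (g : LL F) : (blk F g).val = blkM (g : GL (Fin 3) F).val := rfl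

/-- the upper left entry -/
def c00 (F : Type) [Field F] : LL F →* F where
  toFun g := (g : GL (Fin 3) F).val 0 0
  map_one' := by simp
  map_mul' := by
    intro a b
    rw [Subgroup.coe_mul, Units.val_mul, Matrix.mul_apply, Fin.sum_univ_three, b.2.1, b.2.2]
    ring

theorem nil_two {n : Matrix (Fin 2) (Fin 2) F} (h : IsNilpotent n) : n * n = 0 := by
  have h1 : n.trace = 0 := (Matrix.isNilpotent_trace_of_isNilpotent h).eq_zero
  have h2 : n.det = 0 := by
    obtain ⟨k, hk⟩ := h
    have : n.det ^ k = 0 := by rw [← Matrix.det_pow, hk, Matrix.det_zero]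
    exact IsNilpotent.eq_zero ⟨k, this⟩
  rw [Matrix.trace_fin_two] at h1
  rw [Matrix.det_fin_two] at h2
  have h3 : n 1 1 = -n 0 0 := by linear_combination h1
  rw [h3] at h2
  ext i j
  fin_cases i <;> fin_cases j <;> simp [Matrix.mul_apply, Fin.sum_univ_two, h3] <;>
    first | ring1 | linear_combination -h2

end block

section unip

variable {F : Type} [Field F] [Finite F]

theorem key_order (p : ℕ) [hp : Fact p.Prime] [CharP F p] (hp100 : 100 < p) {l : F}
    (hl : l * l + l + 2 = 0) (k : ℕ) (hk1 : 1 ≤ k) (hk5 : k ≤ 5) :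
    ((3 * l + 2) * 4⁻¹) ^ k ≠ ((l - 1) * 2⁻¹) ^ k := by
  have hcast : ∀ n : ℕ, 0 < n → n < p → (n : F) ≠ 0 := by
    intro n hn hnp h
    rw [CharP.cast_eq_zero_iff F p] at h
    exact absurd (Nat.le_of_dvd hn h) (by omega)
  have h2 : (2 : F) ≠ 0 := by exact_mod_cast hcast 2 (by norm_num) (by omega)
  have h7 : (7 : F) ≠ 0 := by exact_mod_cast hcast 7 (by norm_num) (by omega)
  have h5 : (5 : F) ≠ 0 := by exact_mod_cast hcast 5 (by norm_num) (by omega)
  have h17 : (17 : F) ≠ 0 := by exact_mod_cast hcast 17 (by norm_num) (by omega)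
  have h45 : (45 : F) ≠ 0 := by exact_mod_cast hcast 45 (by norm_num) (by omega)
  have h89 : (89 : F) ≠ 0 := by exact_mod_cast hcast 89 (by norm_num) (by omega)
  have h4 : (4 : F) ≠ 0 := by exact_mod_cast hcast 4 (by norm_num) (by omega)
  have hd : 2 * l + 1 ≠ 0 := by
    intro h
    apply h7
    linear_combination -(2 * l + 1) * h + 4 * hl
  have hl0 : l ≠ 0 := by
    rintro rfl
    apply h2
    linear_combination hl
  intro h
  rw [mul_pow, mul_pow, inv_pow, inv_pow] at h
  have e1 : (3 * l + 2) = l ^ 4 := by linear_combination (-(l * l) + l + 1) * hl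
  have e2 : (l - 1) = (-1 - l) ^ 2 := by linear_combination -hl
  have e3 : (3 * l + 2) ^ k = 2 ^ k * (l - 1) ^ k := by
    have h4k : (4 : F) ^ k ≠ 0 := pow_ne_zero _ h4
    have h2k : (2 : F) ^ k ≠ 0 := pow_ne_zero _ h2
    have h44 : (4 : F) ^ k = 2 ^ k * 2 ^ k := by rw [← mul_pow]; norm_num
    rw [h44] at h
    field_simp at h
    linear_combination h
  have e4 : (2 : F) = l * (-1 - l) := by linear_combination hl
  have e5 : l ^ k * (l ^ 3) ^ k = l ^ k * ((-1 - l) ^ 3) ^ k := by
    have : (2 : F) ^ k * (l - 1) ^ k = (l * (-1 - l)) ^ k * ((-1 - l) ^ 2) ^ k := by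
      rw [← e4, ← e2]
    rw [e1, this] at e3
    rw [← mul_pow, ← mul_pow]
    have f1 : l * l ^ 3 = l ^ 4 := by ring
    have f2 : l * (-1 - l) ^ 3 = (l * (-1 - l)) * (-1 - l) ^ 2 := by ring
    rw [f1, f2, e3]
    simp only [mul_pow]
  have e6 := mul_left_cancel₀ (pow_ne_zero k hl0) e5
  have e7 : l ^ 3 = 2 - l := by linear_combination (l - 1) * hl
  have e8 : (-1 - l) ^ 3 = 3 + l := by linear_combination (-l - 2) * hl
  rw [e7, e8] at e6
  interval_cases k
  · apply hd; linear_combination -e6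
  · have : (5 : F) * (2 * l + 1) = 0 := by grind
    rcases mul_eq_zero.mp this with h | h
    · exact h5 h
    · exact hd h
  · have : (17 : F) * (2 * l + 1) = 0 := by grind
    rcases mul_eq_zero.mp this with h | h
    · exact h17 h
    · exact hd h
  · have : (45 : F) * (2 * l + 1) = 0 := by grind
    rcases mul_eq_zero.mp this with h | h
    · exact h45 h
    · exact hd h
  · have : (89 : F) * (2 * l + 1) = 0 := by grind
    rcases mul_eq_zero.mp this with h | h
    · exact h89 h
    · exact hd h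

theorem exists_unip (p : ℕ) [hp : Fact p.Prime] [CharP F p] (hp100 : 100 < p) {bar : F →+* F}
    {l : F} (hl : l * l + l + 2 = 0) (Γ : Subgroup (GL (Fin 3) F))
    (hΓ : ∀ g ∈ Γ, PM bar (mH l) g.val) (ga gb gc : GL (Fin 3) F) (ha : ga ∈ Γ) (hb : gb ∈ Γ)
    (hc : gc ∈ Γ) (hga : ga.val = mA l) (hgb : gb.val = mB l) (hgc : gc.val = mC l) :
    ∃ g ∈ Γ, g.val - 1 ≠ 0 ∧ (g.val - 1) * (g.val - 1) = 0 := by
  have hcast : ∀ n : ℕ, 0 < n → n < p → (n : F) ≠ 0 := by
    intro n hn hnp h
    rw [CharP.cast_eq_zero_iff F p] at h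
    exact absurd (Nat.le_of_dvd hn h) (by omega)
  have h2 : (2 : F) ≠ 0 := by exact_mod_cast hcast 2 (by norm_num) (by omega)
  have h3 : (3 : F) ≠ 0 := by exact_mod_cast hcast 3 (by norm_num) (by omega)
  have haL : ga ∈ LL F := by
    refine ⟨?_, ?_⟩ <;> rw [hga] <;> simp [mA]
  set gR := (ga * gb * gc) * (ga * gb * gc) with hgR
  have hRv : gR.val = !![(l - 1) * 2⁻¹, -l * 2⁻¹, 0; 0, (3 * l + 2) * 4⁻¹, 0;
      0, (2 - l) * 4⁻¹, (l - 1) * 2⁻¹] := by
    rw [hgR, Units.val_mul, Units.val_mul, Units.val_mul, hga, hgb, hgc, mR_eq hl h2]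
  have hRL : gR ∈ LL F := by
    refine ⟨?_, ?_⟩ <;> rw [hRv] <;> simp
  have hRΓ : gR ∈ Γ := mul_mem (mul_mem (mul_mem ha hb) hc) (mul_mem (mul_mem ha hb) hc)
  set D : Subgroup (GL (Fin 2) F) := (Γ.subgroupOf (LL F)).map (blk F) with hD
  have hdvd : p ∣ Nat.card D := by
    refine dvd_card p (by omega) (blk F ⟨ga, haL⟩) (blk F ⟨gR, hRL⟩) ?_ ((3 * l + 2) * 4⁻¹)
      ((l - 1) * 2⁻¹) ((2 - l) * 4⁻¹) ?_ (key_order p hp100 hl) D ⟨⟨ga, haL⟩, ha, rfl⟩
      ⟨⟨gR, hRL⟩, hRΓ, rfl⟩
    · rw [blk_val]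
      show blkM ga.val = _
      rw [hga]
      ext i j
      fin_cases i <;> fin_cases j <;> simp [blkM, mA]
    · rw [blk_val]
      show blkM gR.val = _
      rw [hRv]
      ext i j
      fin_cases i <;> fin_cases j <;> simp [blkM]
  obtain ⟨⟨_, ⟨g, hgΓ, rfl⟩⟩, hord⟩ := exists_prime_orderOf_dvd_card' p hdvd
  have hord' : orderOf (blk F g) = p := by
    rw [← hord]
    exact (Subgroup.orderOf_mk _ _).symm
  set m := Nat.card F - 1 with hm
  have hFcard : ∃ n : ℕ, 0 < n ∧ Nat.card F = p ^ n := by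
    have : Fintype F := Fintype.ofFinite F
    obtain ⟨n, hn, e⟩ := FiniteField.card F p
    exact ⟨n, n.pos, by rw [Nat.card_eq_fintype_card, e]⟩
  obtain ⟨n, hn, hcard⟩ := hFcard
  have hpm : ¬ p ∣ m := by
    intro h
    have h1 : p ∣ Nat.card F := by rw [hcard]; exact dvd_pow_self p (by omega)
    have h2 : p ∣ Nat.card F - m := Nat.dvd_sub h1 h
    have h3 : Nat.card F - m = 1 := by
      have : 0 < Nat.card F := Nat.card_pos
      omega
    rw [h3] at h2
    exact hp.out.one_lt.ne' (Nat.dvd_one.mp h2)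
  have hgm1 : blk F (g ^ m) ≠ 1 := by
    rw [map_pow]
    intro h
    have := orderOf_dvd_of_pow_eq_one h
    rw [hord'] at this
    exact hpm this
  have hgmp : (blk F (g ^ m)) ^ p = 1 := by
    rw [map_pow, ← pow_mul, mul_comm, pow_mul, ← hord', pow_orderOf_eq_one, one_pow]
  -- the element
  have h00 : ((g ^ m : LL F) : GL (Fin 3) F).val 0 0 = 1 := by
    have h1 : c00 F (g ^ m) = 1 := by
      rw [map_pow]
      have hne : c00 F g ≠ 0 := by
        intro h0
        have := congrArg (c00 F) (mul_inv_cancel g)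
        rw [map_mul, h0, zero_mul, map_one] at this
        exact zero_ne_one this
      have : Fintype F := Fintype.ofFinite F
      have h2 := FiniteField.pow_card_sub_one_eq_one (c00 F g) hne
      rw [← Nat.card_eq_fintype_card] at h2
      exact h2
    exact h1
  obtain ⟨x, hx⟩ : ∃ x, x = (g ^ m : LL F) := ⟨_, rfl⟩
  rw [← hx] at h00 hgm1 hgmp
  have hxΓ : (x : GL (Fin 3) F) ∈ Γ := by
    rw [hx, SubmonoidClass.coe_pow]
    exact pow_mem hgΓ m
  obtain ⟨h10, h20⟩ := x.2
  refine ⟨x, hxΓ, ?_, ?_⟩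
  · intro h
    apply hgm1
    apply Units.ext
    rw [blk_val, sub_eq_zero.mp h, blkM_one, Units.val_one]
  · -- the block part
    set ν := (blk F x).val - 1 with hν
    have hνnil : IsNilpotent ν := by
      refine ⟨p, ?_⟩
      have h1 : (blk F x).val ^ p = 1 := by
        rw [← Units.val_pow_eq_pow_val, hgmp, Units.val_one]
      have : CharP (Matrix (Fin 2) (Fin 2) F) p := inferInstance
      rw [hν, sub_pow_char_of_commute _ (Commute.one_right _), h1, one_pow, sub_self]
    have hνν := nil_two hνnil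
    obtain ⟨N, hN⟩ : ∃ N, N = (x : GL (Fin 3) F).val - 1 := ⟨_, rfl⟩
    rw [← hN]
    have n0 : ∀ i, N i 0 = 0 := by
      intro i
      rw [hN]
      fin_cases i
      · simp [h00]
      · simp [h10]
      · simp [h20]
    have hνe : ν = !![N 1 1, N 1 2; N 2 1, N 2 2] := by
      rw [hν, blk_val, hN]
      ext i j
      fin_cases i <;> fin_cases j <;> simp [blkM]
    rw [hνe] at hνν
    have q00 := congrFun (congrFun hνν 0) 0
    have q01 := congrFun (congrFun hνν 0) 1
    have q10 := congrFun (congrFun hνν 1) 0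
    have q11 := congrFun (congrFun hνν 1) 1
    simp only [Matrix.mul_apply, Fin.sum_univ_two, Matrix.of_apply, Matrix.cons_val',
      Matrix.cons_val_zero, Matrix.cons_val_one, Matrix.zero_apply,
      Matrix.cons_val_fin_one] at q00 q01 q10 q11
    -- orthogonality to the first basis vector
    have hP := hΓ x hxΓ
    have hxN : (x : GL (Fin 3) F).val = N + 1 := by rw [hN]; abel
    have orth1 : 3 * N 0 1 + l * N 1 1 + l * N 2 1 = 0 := by
      have h1 := congrFun (congrFun hP 1) 0
      rw [hxN] at h1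
      simp [Matrix.mul_apply, Matrix.transpose_apply, Matrix.map_apply, Fin.sum_univ_three,
        Matrix.add_apply, n0, mH, Matrix.one_apply] at h1
      linear_combination h1
    have orth2 : 3 * N 0 2 + l * N 1 2 + l * N 2 2 = 0 := by
      have h1 := congrFun (congrFun hP 2) 0
      rw [hxN] at h1
      simp [Matrix.mul_apply, Matrix.transpose_apply, Matrix.map_apply, Fin.sum_univ_three,
        Matrix.add_apply, n0, mH, Matrix.one_apply] at h1
      linear_combination h1
    have r0 : ∀ j, (N * N) 0 j = N 0 1 * N 1 j + N 0 2 * N 2 j := by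
      intro j; rw [Matrix.mul_apply, Fin.sum_univ_three, n0, zero_mul, zero_add]
    have r1 : ∀ j, (N * N) 1 j = N 1 1 * N 1 j + N 1 2 * N 2 j := by
      intro j; rw [Matrix.mul_apply, Fin.sum_univ_three, n0, zero_mul, zero_add]
    have r2 : ∀ j, (N * N) 2 j = N 2 1 * N 1 j + N 2 2 * N 2 j := by
      intro j; rw [Matrix.mul_apply, Fin.sum_univ_three, n0, zero_mul, zero_add]
    have z1 : ∀ j, (N * N) 1 j = 0 := by
      intro j; rw [r1]
      fin_cases j
      · simp [n0]
      · exact q00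
      · exact q01
    have z2 : ∀ j, (N * N) 2 j = 0 := by
      intro j; rw [r2]
      fin_cases j
      · simp [n0]
      · exact q10
      · exact q11
    have z0 : ∀ j, (N * N) 0 j = 0 := by
      intro j
      have h1 : 3 * (N * N) 0 j + l * (N * N) 1 j + l * (N * N) 2 j = 0 := by
        rw [r0, r1, r2]
        linear_combination N 1 j * orth1 + N 2 j * orth2
      rw [z1, z2, mul_zero, add_zero, add_zero] at h1
      exact (mul_eq_zero.mp h1).resolve_left h3
    ext i j
    fin_cases i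
    · exact z0 j
    · exact z1 j
    · exact z2 j

end unip

end Pool.Agent.H542R3.MU
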