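import Pool.Agent.H542R3.MUX
import Pool.Agent.H542R3.MUR

set_option autoImplicit false

/-!
Base change to the standard hermitian form.
-/

open Matrix

namespace Pool.Agent.H542R3.MU

section cubic

variable {F : Type} [Field F]

/-- the element of order seven -/
def mT (l : F) : Matrix (Fin 3) (Fin 3) F := !![-1 - l, 0, 1; 1, 0, 0; -l, 1, 0]

theorem mT_eq (l : F) : mA l * mB l = mT l := by
  ext i j
  fin_cases i <;> fin_cases j <;> simp [mA, mB, mT, Matrix.mul_apply, Fin.sum_univ_three]
  all_goals ring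

theorem mT_cube {l : F} (hl : l * l + l + 2 = 0) :
    mT l * mT l * mT l = (-1 - l) • (mT l * mT l) - l • mT l + 1 := by
  ext i j
  fin_cases i <;> fin_cases j <;>
    simp [mT, Matrix.mul_apply, Fin.sum_univ_three] <;> grind

open Polynomial in
theorem indep [Finite F] {l : F} (hl : l * l + l + 2 = 0) (h7 : (7 : F) ≠ 0)
    (hcard : ¬ 7 ∣ Nat.card F - 1) (x : Fin 3 → F) (hx : x ≠ 0) :
    (Matrix.of ![x, mT l *ᵥ x, mT l *ᵥ (mT l *ᵥ x)]).det ≠ 0 := by
  intro hdet
  obtain ⟨w, hw0, hw⟩ := Matrix.exists_vecMul_eq_zero_iff.mpr hdet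
  obtain ⟨χ, hχ⟩ : ∃ χ : F[X], χ = X ^ 3 - C (-1 - l) * X ^ 2 + C l * X - 1 := ⟨_, rfl⟩
  have hdeg : χ.natDegree = 3 := by
    rw [hχ]; compute_degree!
  have hroot : ∀ r : F, ¬ χ.IsRoot r := by
    intro r hr
    rw [hχ, IsRoot.def] at hr
    simp only [eval_sub, eval_add, eval_mul, eval_pow, eval_X, eval_C, eval_one] at hr
    have hr7 : r ^ 7 = 1 := by
      linear_combination (r - 1) * (r ^ 3 - l * r ^ 2 - (1 + l) * r - 1) * hr +
        (r ^ 5 + r ^ 4 - r ^ 3 - r ^ 2) * hl
    have hr1 : r ≠ 1 := by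
      rintro rfl
      apply h7
      have : 2 * l + 1 = 0 := by linear_combination hr
      linear_combination -(2 * l + 1) * this + 4 * hl
    have hr0 : r ≠ 0 := by
      rintro rfl
      norm_num at hr7
    have hFt : Fintype F := Fintype.ofFinite F
    have h1 := FiniteField.pow_card_sub_one_eq_one r hr0
    rw [← Nat.card_eq_fintype_card] at h1
    have h2 : orderOf r = 7 := orderOf_eq_prime (hp := ⟨by norm_num⟩) hr7 hr1
    have h3 := orderOf_dvd_of_pow_eq_one h1
    rw [h2] at h3
    exact hcard h3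
  have hirr : Irreducible χ := by
    apply Polynomial.irreducible_of_degree_le_three_of_not_isRoot _ hroot
    rw [hdeg]; decide
  obtain ⟨f, hf⟩ : ∃ f : F[X], f = C (w 0) + C (w 1) * X + C (w 2) * X ^ 2 := ⟨_, rfl⟩
  have hf0 : f ≠ 0 := by
    intro h0
    apply hw0
    ext i
    fin_cases i
    · have := congrArg (fun q => q.coeff 0) h0
      rw [hf] at this
      simpa [coeff_X, coeff_X_pow] using this
    · have := congrArg (fun q => q.coeff 1) h0
      rw [hf] at this
      simpa [coeff_X, coeff_X_pow, coeff_C] using this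
    · have := congrArg (fun q => q.coeff 2) h0
      rw [hf] at this
      simpa [coeff_X, coeff_X_pow, coeff_C] using this
  have hfdeg : f.natDegree ≤ 2 := by
    rw [hf]; compute_degree
  have hcop : IsCoprime χ f := by
    rw [hirr.coprime_iff_not_dvd]
    apply Polynomial.not_dvd_of_natDegree_lt hf0
    omega
  obtain ⟨u, v, huv⟩ := hcop
  have hχT : aeval (mT l) χ = 0 := by
    have hc := mT_cube hl
    have h3 : (mT l) ^ 3 = mT l * mT l * mT l := by rw [pow_succ, pow_two]
    rw [← h3] at hc
    rw [hχ]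
    generalize (-1 - l) = m at hc ⊢
    simp only [map_sub, map_add, map_mul, map_pow, aeval_X, aeval_C, map_one]
    rw [Algebra.algebraMap_eq_smul_one, Algebra.algebraMap_eq_smul_one]
    rw [hc, pow_two, smul_mul_assoc, smul_mul_assoc, one_mul, one_mul]
    abel
  have hfT : (aeval (mT l) f) *ᵥ x = 0 := by
    rw [hf]
    simp only [map_add, map_mul, map_pow, aeval_X, aeval_C]
    rw [Algebra.algebraMap_eq_smul_one, Algebra.algebraMap_eq_smul_one,
      Algebra.algebraMap_eq_smul_one, smul_mul_assoc, smul_mul_assoc, one_mul, one_mul,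
      Matrix.add_mulVec, Matrix.add_mulVec, Matrix.smul_mulVec, Matrix.smul_mulVec,
      Matrix.smul_mulVec, Matrix.one_mulVec, pow_two, ← Matrix.mulVec_mulVec]
    ext i
    have := congrFun hw i
    simp only [Matrix.vecMul, dotProduct, Fin.sum_univ_three, Matrix.of_apply,
      Matrix.cons_val_zero, Matrix.cons_val_one, Matrix.cons_val, Pi.zero_apply] at this
    simp only [Pi.add_apply, Pi.smul_apply, smul_eq_mul, Pi.zero_apply]
    exact this
  apply hx
  have h1 := congrArg (fun q => (aeval (mT l) q) *ᵥ x) huv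
  simp only [map_add, map_mul, map_one, hχT, mul_zero, zero_add, Matrix.one_mulVec] at h1
  rw [← Matrix.mulVec_mulVec, hfT, Matrix.mulVec_zero] at h1
  exact h1.symm

end cubic

end Pool.Agent.H542R3.MU
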