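import Pool.Agent.H542R3.MUY

set_option autoImplicit false

/-!
Base change to the standard hermitian form, continued.
-/

open Matrix

namespace Pool.Agent.H542R3.MU

section form

variable {F : Type} [Field F] (bar : F →+* F) (H : Matrix (Fin 3) (Fin 3) F)

/-- sesquilinear form with matrix `H` -/
def hh (v w : Fin 3 → F) : F := v ⬝ᵥ (H *ᵥ fun i => bar (w i))

theorem hh_eq (v w : Fin 3 → F) : hh bar H v w =
    v 0 * (H 0 0 * bar (w 0) + H 0 1 * bar (w 1) + H 0 2 * bar (w 2)) +
    v 1 * (H 1 0 * bar (w 0) + H 1 1 * bar (w 1) + H 1 2 * bar (w 2)) +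
    v 2 * (H 2 0 * bar (w 0) + H 2 1 * bar (w 1) + H 2 2 * bar (w 2)) := by
  simp [hh, Matrix.mulVec, dotProduct, Fin.sum_univ_three]

theorem hh_PM {M : Matrix (Fin 3) (Fin 3) F} (hM : PM bar H M) (v w : Fin 3 → F) :
    hh bar H (M *ᵥ v) (M *ᵥ w) = hh bar H v w := by
  have e1 : (fun i => bar ((M *ᵥ w) i)) = M.map bar *ᵥ fun i => bar (w i) := by
    ext i
    simp [Matrix.mulVec, dotProduct, Fin.sum_univ_three, Matrix.map_apply]
  have e2 : ∀ u, (M *ᵥ v) ⬝ᵥ u = v ⬝ᵥ (Mᵀ *ᵥ u) := by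
    intro u
    rw [Matrix.dotProduct_mulVec, Matrix.vecMul_transpose]
  rw [hh, e1, e2, Matrix.mulVec_mulVec, Matrix.mulVec_mulVec, hM, hh]

theorem hh_left (x y z w : Fin 3 → F) (a b : F) :
    hh bar H (z - a • x - b • y) w = hh bar H z w - a * hh bar H x w - b * hh bar H y w := by
  simp only [hh_eq, Pi.sub_apply, Pi.smul_apply, smul_eq_mul]; ring

theorem hh_right (x y z w : Fin 3 → F) (a b : F) :
    hh bar H w (z - a • x - b • y) =
      hh bar H w z - bar a * hh bar H w x - bar b * hh bar H w y := by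
  simp only [hh_eq, Pi.sub_apply, Pi.smul_apply, smul_eq_mul, map_sub, map_mul]; ring

theorem hh_smul_left (x w : Fin 3 → F) (a : F) :
    hh bar H (a • x) w = a * hh bar H x w := by
  simp only [hh_eq, Pi.smul_apply, smul_eq_mul]; ring

theorem hh_smul_right (x w : Fin 3 → F) (a : F) :
    hh bar H w (a • x) = bar a * hh bar H w x := by
  simp only [hh_eq, Pi.smul_apply, smul_eq_mul, map_mul]; ring

theorem hh_conj (hb : ∀ x, bar (bar x) = x) (hH : ∀ i j, bar (H i j) = H j i)
    (v w : Fin 3 → F) : bar (hh bar H v w) = hh bar H w v := by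
  simp only [hh_eq, map_add, map_mul, hb, hH]; ring

theorem gram_det (x y z : Fin 3 → F) :
    (Matrix.of ![![hh bar H x x, hh bar H x y, hh bar H x z],
      ![hh bar H y x, hh bar H y y, hh bar H y z],
      ![hh bar H z x, hh bar H z y, hh bar H z z]]).det =
    (Matrix.of ![x, y, z]).det * H.det * bar (Matrix.of ![x, y, z]).det := by
  have e : Matrix.of ![![hh bar H x x, hh bar H x y, hh bar H x z],
      ![hh bar H y x, hh bar H y y, hh bar H y z],
      ![hh bar H z x, hh bar H z y, hh bar H z z]] =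
      Matrix.of ![x, y, z] * H * ((Matrix.of ![x, y, z]).map bar)ᵀ := by
    ext i j
    fin_cases i <;> fin_cases j <;>
      simp [hh_eq, Matrix.mul_apply, Matrix.vecMul, dotProduct, Fin.sum_univ_three,
        Matrix.map_apply] <;> ring
  rw [e, Matrix.det_mul, Matrix.det_mul, Matrix.det_transpose, RingHom.map_det]
  rfl

/-- the standard matrix -/
def mJ : Matrix (Fin 3) (Fin 3) F := !![0, 0, 1; 0, 1, 0; 1, 0, 0]

theorem base (hb : ∀ x, bar (bar x) = x) (hH : ∀ i j, bar (H i j) = H j i) (hdet : H.det ≠ 0)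
    (x y z : Fin 3 → F) (hind : (Matrix.of ![x, y, z]).det ≠ 0)
    (hxx : hh bar H x x = 0) (hyy : hh bar H y y = 0) :
    ∃ (P : GL (Fin 3) F) (n s a b : F), n ≠ 0 ∧ s ≠ 0 ∧ P.val *ᵥ ev 0 = x ∧
      P.val *ᵥ ev 2 = s • y ∧ P.valᵀ * H * P.val.map bar = n • mJ ∧
      P.val *ᵥ ![a, 1, b] = z := by
  have hconj := hh_conj bar H hb hH
  have hbi : bar (Matrix.of ![x, y, z]).det ≠ 0 := (map_ne_zero bar).mpr hind
  have hG := gram_det bar H x y z
  have hxy : hh bar H x y ≠ 0 := by
    intro h0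
    have h0' : hh bar H y x = 0 := by rw [← hconj, h0, map_zero]
    rw [hxx, hyy, h0, h0', Matrix.det_fin_three] at hG
    simp at hG
    rcases hG with (h | h) | h
    · exact hind h
    · exact hdet h
    · exact hbi ((map_eq_zero bar).mpr h)
  have hyx : hh bar H y x ≠ 0 := by
    rw [← hconj]; exact (map_ne_zero bar).mpr hxy
  obtain ⟨a, ha⟩ : ∃ a, a = hh bar H z y / hh bar H x y := ⟨_, rfl⟩
  obtain ⟨b, hbb⟩ : ∃ b, b = hh bar H z x / hh bar H y x := ⟨_, rfl⟩
  obtain ⟨e, he⟩ : ∃ e, e = z - a • x - b • y := ⟨_, rfl⟩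
  have hex : hh bar H e x = 0 := by
    rw [he, hh_left, hxx, hbb, div_mul_cancel₀ _ hyx]; ring
  have hey : hh bar H e y = 0 := by
    rw [he, hh_left, hyy, ha, div_mul_cancel₀ _ hxy]; ring
  have hxe : hh bar H x e = 0 := by rw [← hconj, hex, map_zero]
  have hye : hh bar H y e = 0 := by rw [← hconj, hey, map_zero]
  obtain ⟨n, hn⟩ : ∃ n, n = hh bar H e e := ⟨_, rfl⟩
  have hbn : bar n = n := by rw [hn, hconj]
  have hdet2 : (Matrix.of ![x, e, y]).det ≠ 0 := by
    have : (Matrix.of ![x, e, y]).det = -(Matrix.of ![x, y, z]).det := by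
      rw [Matrix.det_fin_three, Matrix.det_fin_three]
      simp [he]
      ring
    rw [this]
    exact neg_ne_zero.mpr hind
  have hn0 : n ≠ 0 := by
    intro h0
    have hG2 := gram_det bar H x e y
    rw [hxx, hxe, hex, ← hn, h0, hey, hye, hyy, Matrix.det_fin_three] at hG2
    simp at hG2
    rcases hG2 with (h | h) | h
    · exact hdet2 h
    · exact hdet h
    · exact hdet2 h
  obtain ⟨s, hs⟩ : ∃ s, s = n / hh bar H y x := ⟨_, rfl⟩
  have hs0 : s ≠ 0 := by rw [hs]; exact div_ne_zero hn0 hyx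
  have hbs : bar s = n / hh bar H x y := by
    rw [hs, map_div₀, hbn, hconj]
  obtain ⟨X, hX⟩ : ∃ X, X = (Matrix.of ![x, e, s • y])ᵀ := ⟨_, rfl⟩
  have hXd : X.det ≠ 0 := by
    have : X.det = s * (Matrix.of ![x, e, y]).det := by
      rw [hX, Matrix.det_transpose, Matrix.det_fin_three, Matrix.det_fin_three]
      simp
      ring
    rw [this]
    exact mul_ne_zero hs0 hdet2
  refine ⟨Matrix.GeneralLinearGroup.mkOfDetNeZero X hXd, n, s, a, b / s, hn0, hs0, ?_, ?_, ?_, ?_⟩
  · show X *ᵥ ev 0 = x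
    ext i
    rw [mulVec_ev, hX]; rfl
  · show X *ᵥ ev 2 = s • y
    ext i
    rw [mulVec_ev, hX]; rfl
  · show Xᵀ * H * X.map bar = n • mJ
    have hcol : ∀ i j, (Xᵀ * H * X.map bar) i j = hh bar H (fun k => X k i) (fun k => X k j) := by
      intro i j
      rw [hh_eq]
      simp only [Matrix.mul_apply, Fin.sum_univ_three, Matrix.transpose_apply, Matrix.map_apply]
      ring
    have c0 : (fun k => X k 0) = x := by rw [hX]; rfl
    have c1 : (fun k => X k 1) = e := by rw [hX]; rfl
    have c2 : (fun k => X k 2) = s • y := by rw [hX]; rfl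
    ext i j
    rw [hcol]
    fin_cases i <;> fin_cases j
    · show hh bar H (fun k => X k 0) (fun k => X k 0) = _
      rw [c0, hxx]; simp [mJ]
    · show hh bar H (fun k => X k 0) (fun k => X k 1) = _
      rw [c0, c1, hxe]; simp [mJ]
    · show hh bar H (fun k => X k 0) (fun k => X k 2) = _
      rw [c0, c2, hh_smul_right, hbs, div_mul_cancel₀ _ hxy]; simp [mJ]
    · show hh bar H (fun k => X k 1) (fun k => X k 0) = _
      rw [c0, c1, hex]; simp [mJ]
    · show hh bar H (fun k => X k 1) (fun k => X k 1) = _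
      rw [c1, ← hn]; simp [mJ]
    · show hh bar H (fun k => X k 1) (fun k => X k 2) = _
      rw [c1, c2, hh_smul_right, hey]; simp [mJ]
    · show hh bar H (fun k => X k 2) (fun k => X k 0) = _
      rw [c0, c2, hh_smul_left, hs, div_mul_cancel₀ _ hyx]; simp [mJ]
    · show hh bar H (fun k => X k 2) (fun k => X k 1) = _
      rw [c2, c1, hh_smul_left, hye]; simp [mJ]
    · show hh bar H (fun k => X k 2) (fun k => X k 2) = _
      rw [c2, hh_smul_left, hh_smul_right, hyy]; simp [mJ]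
  · show X *ᵥ ![a, 1, b / s] = z
    have : X *ᵥ ![a, 1, b / s] = a • x + e + (b / s) • s • y := by
      ext i
      rw [hX]
      simp [Matrix.mulVec, dotProduct, Fin.sum_univ_three]
      ring
    rw [this, smul_smul, div_mul_cancel₀ _ hs0, he]
    abel

theorem PM_conj {n : F} (hn : n ≠ 0) {P : GL (Fin 3) F}
    (hP : P.valᵀ * H * P.val.map bar = n • mJ) {g : GL (Fin 3) F} (hg : PM bar H g.val) :
    Pres bar (P⁻¹ * g * P).val := by
  have hb1 : ∀ A B : Matrix (Fin 3) (Fin 3) F, (A * B).map bar = A.map bar * B.map bar :=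
    fun A B => Matrix.map_mul
  have e0 : P.val * (P⁻¹ * g * P).val = g.val * P.val := by
    rw [← Units.val_mul, ← Units.val_mul]
    congr 1
    group
  have e1 : (P⁻¹ * g * P).valᵀ * (n • mJ) * (P⁻¹ * g * P).val.map bar = n • mJ := by
    rw [← hP]
    calc (P⁻¹ * g * P).valᵀ * (P.valᵀ * H * P.val.map bar) * (P⁻¹ * g * P).val.map bar
        = ((P⁻¹ * g * P).valᵀ * P.valᵀ) * H * (P.val.map bar * (P⁻¹ * g * P).val.map bar) := by
          simp only [Matrix.mul_assoc]
      _ = P.valᵀ * (g.valᵀ * H * g.val.map bar) * P.val.map bar := by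
          rw [← Matrix.transpose_mul, ← hb1, e0, Matrix.transpose_mul, hb1]
          simp only [Matrix.mul_assoc]
      _ = P.valᵀ * H * P.val.map bar := by rw [hg]
  have e2 : PM bar (n • mJ) (P⁻¹ * g * P).val := e1
  intro v w
  have h1 := hh_PM bar (n • mJ) e2 v w
  have h2 : ∀ v w : Fin 3 → F, hh bar (n • mJ) v w = n * her bar v w := by
    intro v w
    rw [hh_eq, her]
    simp [mJ]
    ring
  rw [h2, h2] at h1
  exact mul_left_cancel₀ hn h1

end form

end Pool.Agent.H542R3.MU
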