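import Mathlib
import Pool.Agent.H542R3.IG

set_option autoImplicit false

namespace Pool.Agent.H542R3

open Matrix

abbrev Kb := AlgebraicClosure (ZMod 2)

instance instCharKb : CharP Kb 2 := charP_of_injective_algebraMap (algebraMap (ZMod 2) Kb).injective 2

theorem iter_frob {R : Type*} [Monoid R] (x : R) (n m : ℕ) (h : x ^ (2 ^ n) = x) : x ^ (2 ^ (n * m)) = x := by
  induction m with
  | zero => simp
  | succ m ih =>
    rw [Nat.mul_succ, pow_add, pow_mul, ih, h]

/-- elements of odd degree over F_2 -/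
def OddF : Subfield Kb where
  carrier := {x | ∃ n, Odd n ∧ x ^ (2 ^ n) = x}
  mul_mem' := by
    rintro x y ⟨n, hn, hx⟩ ⟨m, hm, hy⟩
    refine ⟨n * m, hn.mul hm, ?_⟩
    rw [mul_pow, iter_frob x n m hx, mul_comm n m, iter_frob y m n hy]
  one_mem' := ⟨1, by decide, by simp⟩
  add_mem' := by
    rintro x y ⟨n, hn, hx⟩ ⟨m, hm, hy⟩
    refine ⟨n * m, hn.mul hm, ?_⟩
    rw [add_pow_char_pow, iter_frob x n m hx, mul_comm n m, iter_frob y m n hy]
  zero_mem' := ⟨1, by decide, by simp⟩
  neg_mem' := by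
    rintro x ⟨n, hn, hx⟩
    refine ⟨n, hn, ?_⟩
    rw [CharTwo.neg_eq, hx]
  inv_mem' := by
    rintro x ⟨n, hn, hx⟩
    refine ⟨n, hn, ?_⟩
    rw [inv_pow, hx]

abbrev FF := OddF

instance instCharFF : CharP FF 2 := (RingHom.charP_iff OddF.subtype OddF.subtype.injective 2).2 inferInstance

theorem FF_spec (x : FF) : ∃ n, Odd n ∧ x ^ (2 ^ n) = x := by
  obtain ⟨n, hn, hx⟩ := x.2
  exact ⟨n, hn, Subtype.ext (by simpa using hx)⟩

theorem hno : ∀ x : FF, x ^ 2 + x + 1 ≠ 0 := by
  intro x hx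
  obtain ⟨n, hn, hxn⟩ := FF_spec x
  have two0 : (2 : FF) = 0 := CharTwo.two_eq_zero
  have h3 : x ^ 4 = x := by
    have : x ^ 2 = x + 1 := by linear_combination hx - (x + 1) * two0
    have h4 : x ^ 4 = (x ^ 2) ^ 2 := by ring
    rw [h4, this]
    linear_combination this + (x + 1) * two0
  obtain ⟨k, rfl⟩ := hn
  have h5 : x ^ (2 ^ (2 * k)) = x := by
    apply iter_frob x 2 k
    exact h3
  rw [pow_add, pow_one, pow_mul, h5] at hxn
  have h6 : (1 : FF) = 0 := by linear_combination hx - hxn - x * two0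
  exact one_ne_zero h6

theorem hsq : ∀ x : FF, ∃ y : FF, y ^ 2 = x := by
  intro x
  obtain ⟨n, hn, hx⟩ := FF_spec x
  obtain ⟨k, rfl⟩ := hn
  refine ⟨x ^ (2 ^ (2 * k)), ?_⟩
  rw [← pow_mul, ← pow_succ, hx]

theorem mod5 (k : ℕ) : 2 ^ (2 * k + 1) % 5 = 2 ∨ 2 ^ (2 * k + 1) % 5 = 3 := by
  induction k with
  | zero => left; norm_num
  | succ k ih =>
    have : 2 ^ (2 * (k + 1) + 1) = 4 * 2 ^ (2 * k + 1) := by ring
    rw [this]
    omega

theorem mod3 (k : ℕ) : 2 ^ (2 * k + 1) % 3 = 2 := by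
  induction k with
  | zero => norm_num
  | succ k ih =>
    have : 2 ^ (2 * (k + 1) + 1) = 4 * 2 ^ (2 * k + 1) := by ring
    rw [this]
    omega

theorem coprime_aux (k : ℕ) (r : ℕ) (hr : r = 2 ∨ r = 3 ∨ r = 4 ∨ r = 5 ∨ r = 6) :
    ¬ r ∣ 2 ^ (2 * k + 1) - 1 := by
  intro hd
  have h1 : 1 ≤ 2 ^ (2 * k + 1) := Nat.one_le_two_pow
  have h2 : 2 ^ (2 * k + 1) % 2 = 0 := by
    rw [pow_succ]; simp
  have h3 := mod3 k
  have h5 := mod5 k
  rcases hr with rfl | rfl | rfl | rfl | rfl <;> omega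

theorem hord : ∀ a : FF, a ≠ 0 → a ≠ 1 → 7 ≤ orderOf a := by
  intro a ha ha1
  obtain ⟨n, hn, hx⟩ := FF_spec a
  obtain ⟨k, rfl⟩ := hn
  have h1 : 1 ≤ 2 ^ (2 * k + 1) := Nat.one_le_two_pow
  have h2 : 2 ≤ 2 ^ (2 * k + 1) := by
    calc 2 = 2 ^ 1 := by norm_num
      _ ≤ 2 ^ (2 * k + 1) := Nat.pow_le_pow_right (by norm_num) (by omega)
  have hpow : a ^ (2 ^ (2 * k + 1) - 1) = 1 := by
    have : a ^ (2 ^ (2 * k + 1) - 1) * a = 1 * a := by
      rw [← pow_succ, Nat.sub_add_cancel h1, hx, one_mul]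
    exact mul_right_cancel₀ ha this
  have hd := orderOf_dvd_of_pow_eq_one hpow
  have h0 : orderOf a ≠ 0 := by
    intro h
    rw [h] at hd
    have := Nat.eq_zero_of_zero_dvd hd
    omega
  have h1' : orderOf a ≠ 1 := by
    intro h
    exact ha1 (orderOf_eq_one_iff.1 h)
  by_contra hlt
  push Not at hlt
  exact coprime_aux k (orderOf a) (by omega) hd

/-- matrices fixed by the n-th Frobenius -/
def fixSub (n : ℕ) : Subgroup (SL2 FF) where
  carrier := {g | ∀ i j, (g i j) ^ (2 ^ n) = g i j}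
  mul_mem' := by
    intro a b ha hb i j
    rw [Matrix.SpecialLinearGroup.coe_mul, Matrix.mul_apply, Fin.sum_univ_two, add_pow_char_pow,
      mul_pow, mul_pow, ha, ha, hb, hb]
  one_mem' := by
    intro i j
    rw [Matrix.SpecialLinearGroup.coe_one, Matrix.one_apply]
    split_ifs <;> simp
  inv_mem' := by
    intro a ha i j
    rw [Matrix.SpecialLinearGroup.coe_inv, Matrix.adjugate_fin_two]
    fin_cases i <;> fin_cases j <;> simp [ha 0 0, ha 0 1, ha 1 0, ha 1 1, CharTwo.neg_eq]

theorem fixSub_finite (n : ℕ) (hn : n ≠ 0) : Finite (fixSub n) := by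
  have hfin : Finite {x : FF // x ^ (2 ^ n) = x} := by
    have h1 : ({x : FF | x ^ (2 ^ n) = x} : Set FF) ⊆
        ((Polynomial.X ^ (2 ^ n) - Polynomial.X : Polynomial FF).rootSet FF) := by
      intro x hx
      rw [Polynomial.mem_rootSet]
      refine ⟨?_, ?_⟩
      · apply FiniteField.X_pow_card_pow_sub_X_ne_zero FF hn (by norm_num)
      · simp only [map_sub, map_pow, Polynomial.aeval_X]
        rw [show x ^ (2 ^ n) = x from hx, sub_self]
    exact (Polynomial.rootSet_finite _ _).subset h1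
  have : Function.Injective (fun (g : fixSub n) (ij : Fin 2 × Fin 2) =>
      (⟨(g : SL2 FF) ij.1 ij.2, g.2 ij.1 ij.2⟩ : {x : FF // x ^ (2 ^ n) = x})) := by
    intro g h hgh
    apply Subtype.ext
    ext i j
    have := congrFun hgh (i, j)
    simpa using this
  exact Finite.of_injective _ this

theorem exists_fixSub (a : SL2 FF) : ∃ n, Odd n ∧ a ∈ fixSub n := by
  obtain ⟨n1, h1, e1⟩ := FF_spec (a 0 0)
  obtain ⟨n2, h2, e2⟩ := FF_spec (a 0 1)
  obtain ⟨n3, h3, e3⟩ := FF_spec (a 1 0)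
  obtain ⟨n4, h4, e4⟩ := FF_spec (a 1 1)
  refine ⟨n1 * n2 * n3 * n4, ((h1.mul h2).mul h3).mul h4, ?_⟩
  intro i j
  fin_cases i <;> fin_cases j
  · have := iter_frob _ n1 (n2 * n3 * n4) e1
    simpa [mul_assoc] using this
  · have := iter_frob _ n2 (n1 * n3 * n4) e2
    have h : n2 * (n1 * n3 * n4) = n1 * n2 * n3 * n4 := by ring
    rw [h] at this; exact this
  · have := iter_frob _ n3 (n1 * n2 * n4) e3
    have h : n3 * (n1 * n2 * n4) = n1 * n2 * n3 * n4 := by ring
    rw [h] at this; exact this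
  · have := iter_frob _ n4 (n1 * n2 * n3) e4
    have h : n4 * (n1 * n2 * n3) = n1 * n2 * n3 * n4 := by ring
    rw [h] at this; exact this

theorem fixSub_mono {n m : ℕ} {a : SL2 FF} (h : a ∈ fixSub n) : a ∈ fixSub (n * m) := by
  intro i j
  exact iter_frob _ n m (h i j)

theorem hlf (a b c : SL2 FF) : Finite (Subgroup.closure ({a, b, c} : Set (SL2 FF))) := by
  obtain ⟨n, hn, ha⟩ := exists_fixSub a
  obtain ⟨m, hm, hb⟩ := exists_fixSub b
  obtain ⟨l, hl, hc⟩ := exists_fixSub c
  have hle : Subgroup.closure ({a, b, c} : Set (SL2 FF)) ≤ fixSub (n * m * l) := by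
    rw [Subgroup.closure_le]
    intro x hx
    simp only [Set.mem_insert_iff, Set.mem_singleton_iff] at hx
    rcases hx with rfl | rfl | rfl
    · exact fixSub_mono (fixSub_mono ha)
    · have := fixSub_mono (m := n * l) hb
      rwa [show m * (n * l) = n * m * l by ring] at this
    · have := fixSub_mono (m := n * m) hc
      rwa [show l * (n * m) = n * m * l by ring] at this
  have hne : n * m * l ≠ 0 := by
    obtain ⟨a, rfl⟩ := hn
    obtain ⟨b, rfl⟩ := hm
    obtain ⟨c, rfl⟩ := hl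
    positivity
  have := fixSub_finite (n * m * l) hne
  exact Finite.of_injective (Subgroup.inclusion hle) (Subgroup.inclusion_injective hle)

theorem ig_FF (H : Subgroup (SL2 FF)) (hH : ∀ g : SL2 FF, ∃ h ∈ H, IsConj g h) : H = ⊤ :=
  ig_sl2 hno hsq hord hlf H hH

theorem infinite_FF : Infinite FF := by
  -- for every odd n, the roots of X^(2^n) - X all lie in FF
  by_contra hfin
  rw [not_infinite_iff_finite] at hfin
  set n := 2 * Nat.card FF + 1 with hn
  have hn0 : n ≠ 0 := by omega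
  let p : Polynomial Kb := Polynomial.X ^ (2 ^ n) - Polynomial.X
  have hsep : p.Separable := galois_poly_separable 2 _ (dvd_pow (dvd_refl 2) hn0)
  have hcard : Fintype.card (p.rootSet Kb) = p.natDegree :=
    Polynomial.card_rootSet_eq_natDegree hsep (IsAlgClosed.splits_domain _)
  have hdeg : p.natDegree = 2 ^ n := FiniteField.X_pow_card_pow_sub_X_natDegree_eq _ hn0 (by norm_num)
  have hroot : ∀ x ∈ p.rootSet Kb, x ^ (2 ^ n) = x := by
    intro x hx
    rw [Polynomial.mem_rootSet] at hx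
    have := hx.2
    simp only [p, map_sub, map_pow, Polynomial.aeval_X] at this
    exact sub_eq_zero.1 this
  let f : p.rootSet Kb → FF := fun x => ⟨x.1, ⟨n, ⟨Nat.card FF, hn⟩, hroot x.1 x.2⟩⟩
  have hf : Function.Injective f := by
    intro x y hxy
    apply Subtype.ext
    exact congrArg (fun z : FF => (z : Kb)) hxy
  have h1 : Nat.card (p.rootSet Kb) ≤ Nat.card FF := Nat.card_le_card_of_injective f hf
  rw [Nat.card_eq_fintype_card, hcard, hdeg] at h1
  have h2 : n < 2 ^ n := Nat.lt_two_pow_self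
  omega

/-- A normal subgroup of SL2 with a nontrivial upper unipotent is everything -/
theorem normal_top (M : Subgroup (SL2 FF)) [M.Normal] (c : FF) (hc : c ≠ 0) (hM : up c ∈ M) : M = ⊤ := by
  have two0 : (2 : FF) = 0 := CharTwo.two_eq_zero
  have hup : ∀ x : FF, up x ∈ M := by
    intro x
    by_cases hx : x = 0
    · have : up x = (1 : SL2 FF) := by
        rw [hx]; apply sl2_ext <;> simp [up]
      rw [this]; exact M.one_mem
    · obtain ⟨y, hy⟩ := hsq (x / c)
      have hy0 : y ≠ 0 := by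
        intro h; rw [h] at hy
        have : x / c = 0 := by rw [← hy]; ring
        rcases div_eq_zero_iff.1 this with h | h
        · exact hx h
        · exact hc h
      have h1 := conj_up (dg y hy0) (by simp [dg]) c
      have h2 : ((dg y hy0 : SL2 FF) 0 0) ^ 2 * c = x := by
        have : (dg y hy0 : SL2 FF) 0 0 = y := by simp [dg]
        rw [this, hy]; field_simp
      rw [h2] at h1
      rw [← h1]
      exact ‹M.Normal›.conj_mem _ hM _
  -- lower unipotents
  let w : SL2 FF := ⟨!![0, 1; 1, 0], by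
    rw [Matrix.det_fin_two]
    simp only [Matrix.of_apply, Matrix.cons_val', Matrix.cons_val_zero, Matrix.cons_val_one,
      Matrix.cons_val_fin_one]
    linear_combination -two0⟩
  have hlo : ∀ x : FF, lo x ∈ M := by
    intro x
    have h1 : w * up x * w⁻¹ = lo x := by
      apply sl2_ext
      · rw [mul00, mul00, mul01, inv00, inv10]; simp [up, lo, w, CharTwo.neg_eq]
      · rw [mul01, mul00, mul01, inv01, inv11]; simp [up, lo, w, CharTwo.neg_eq]
      · rw [mul10, mul10, mul11, inv00, inv10]; simp [up, lo, w, CharTwo.neg_eq]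
      · rw [mul11, mul10, mul11, inv01, inv11]; simp [up, lo, w, CharTwo.neg_eq]
    rw [← h1]
    exact ‹M.Normal›.conj_mem _ (hup x) _
  have hbig : ∀ g : SL2 FF, g 1 0 ≠ 0 → g ∈ M := by
    intro g hg
    have hd := sl2_det g
    have : g = up ((g 0 0 - 1) / g 1 0) * lo (g 1 0) * up ((g 1 1 - 1) / g 1 0) := by
      apply sl2_ext
      · rw [mul00, mul00, mul01]; simp [up, lo]; field_simp; ring
      · rw [mul01, mul00, mul01]; simp [up, lo]; field_simp; linear_combination -hd
      · rw [mul10, mul10, mul11]; simp [up, lo]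
      · rw [mul11, mul10, mul11]; simp [up, lo]; field_simp; ring
    rw [this]
    exact M.mul_mem (M.mul_mem (hup _) (hlo _)) (hup _)
  rw [eq_top_iff]
  intro g _
  by_cases hg : g 1 0 = 0
  · have h1 : g * lo 1 ∈ M := by
      apply hbig
      rw [mul10, hg]
      have hd := sl2_det g
      rw [hg] at hd
      have : g 1 1 ≠ 0 := by
        intro h; rw [h] at hd; simp at hd
      simpa [lo] using this
    have h2 := M.mul_mem h1 (M.inv_mem (hlo 1))
    rwa [mul_inv_cancel_right] at h2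
  · exact hbig g hg

theorem up_inj {a b : FF} (h : up a = up b) : a = b := by
  have := congrArg (fun x : SL2 FF => x 0 1) h
  simpa [up] using this

theorem up_add (a b : FF) : up a * up b = up (a + b) := by
  apply sl2_ext
  · rw [mul00]; simp [up]
  · rw [mul01]; simp [up, add_comm]
  · rw [mul10]; simp [up]
  · rw [mul11]; simp [up]

theorem fi_top (M : Subgroup (SL2 FF)) [M.Normal] [M.FiniteIndex] : M = ⊤ := by
  have hinf := infinite_FF
  have : Finite (SL2 FF ⧸ M) := inferInstance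
  obtain ⟨x, y, hxy, he⟩ := Finite.exists_ne_map_eq_of_infinite (fun x : FF => ((up x : SL2 FF) : SL2 FF ⧸ M))
  have h1 := QuotientGroup.eq.1 he
  have h2 : (up x)⁻¹ * up y = up (y - x) := by
    rw [inv_mul_eq_iff_eq_mul, up_add]; congr 1; ring
  rw [h2] at h1
  exact normal_top M (y - x) (sub_ne_zero.2 hxy.symm) h1

theorem exists_ne : ∃ a : FF, a ≠ 0 ∧ a ^ 2 ≠ 1 := by
  classical
  have hinf := infinite_FF
  obtain ⟨a, ha⟩ := Infinite.exists_notMem_finset ({0, 1} : Finset FF)
  simp only [Finset.mem_insert, Finset.mem_singleton, not_or] at ha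
  refine ⟨a, ha.1, ?_⟩
  intro h
  have two0 : (2 : FF) = 0 := CharTwo.two_eq_zero
  have : (a - 1) ^ 2 = 0 := by linear_combination h + (1 - a) * two0
  have := pow_eq_zero_iff (two_ne_zero) |>.1 this
  exact ha.2 (by linear_combination this)

open scoped commutatorElement in
theorem not_solvable : ¬ Group.IsSolvable (SL2 FF) := by
  intro hs
  have hnt : Nontrivial (SL2 FF) := ⟨up 1, up 0, fun h => one_ne_zero (up_inj h)⟩
  have hlt := Group.IsSolvable.commutator_lt_top_of_nontrivial (SL2 FF)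
  obtain ⟨a, ha, ha1⟩ := exists_ne
  have h1 : up (a ^ 2 - 1) ∈ commutator (SL2 FF) := by
    have h2 : ⁅dg a ha, up 1⁆ = up (a ^ 2 - 1) := by
      rw [commutatorElement_def, conj_up (dg a ha) (by simp [dg]) 1]
      have h3 : (up (1 : FF))⁻¹ = up (-1) := by
        rw [inv_eq_iff_mul_eq_one, up_add]
        apply sl2_ext <;> simp [up]
      rw [h3, up_add]
      congr 1
      simp [dg]; ring
    rw [← h2]
    exact Subgroup.commutator_mem_commutator (Subgroup.mem_top _) (Subgroup.mem_top _)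
  have := normal_top (commutator (SL2 FF)) (a ^ 2 - 1) (sub_ne_zero.2 ha1) h1
  rw [this] at hlt
  exact lt_irrefl _ hlt

theorem not_virt_solvable (H : Subgroup (SL2 FF)) (hfi : H.FiniteIndex) (hs : Group.IsSolvable H) : False := by
  have h1 : H.normalCore = ⊤ := fi_top H.normalCore
  have h2 : H = ⊤ := by
    rw [eq_top_iff, ← h1]; exact H.normalCore_le
  subst h2
  apply not_solvable
  exact Group.isSolvable_of_surjective (f := (Subgroup.topEquiv : (⊤ : Subgroup (SL2 FF)) ≃* SL2 FF).toMonoidHom)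
    (Subgroup.topEquiv : (⊤ : Subgroup (SL2 FF)) ≃* SL2 FF).surjective

end Pool.Agent.H542R3
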